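import Pool.Agent.P.MP_0d6be8_lc.NKStmt

set_option autoImplicit false

/-! The internal notions read in a full universe: codings of types. -/

open Pool.Agent.Lib.PosetForcing

namespace Pool.Agent.P.MP_0d6be8_lc.Std

/-- a full universe: a model of ZFC whose sets are the ranges of the families indexed by types -/
class Uni : Type 2 where
  /-- the universe -/
  M : Type 1
  /-- its membership -/
  mem : M → M → Prop
  zfc : IsZFC mem
  rng : ∀ (T : Type) (f : T → M), ∃ a, ∀ x, mem x a ↔ ∃ t, f t = x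
  small : ∀ a, ∃ (T : Type) (f : T → M), ∀ x, mem x a ↔ ∃ t, f t = x

variable [Uni]

/-- the universe -/
abbrev V : Type 1 := Uni.M

/-- its membership -/
abbrev E : V → V → Prop := Uni.mem

theorem vext {a b : V} (h : ∀ x, E x a ↔ E x b) : a = b := Uni.zfc.ext a b h

/-- the range of a family -/
noncomputable def rng {T : Type} (f : T → V) : V := (Uni.rng T f).choose

theorem mem_rng {T : Type} {f : T → V} {x : V} : E x (rng f) ↔ ∃ t, f t = x :=
  (Uni.rng T f).choose_spec x

/-- unordered pair -/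
noncomputable def up (a b : V) : V := (Uni.zfc.pair a b).choose

theorem mem_up {a b x : V} : E x (up a b) ↔ x = a ∨ x = b := (Uni.zfc.pair a b).choose_spec x

/-- ordered pair -/
noncomputable def pr (a b : V) : V := up (up a a) (up a b)

theorem up_eq {a b c d : V} (h : up a b = up c d) : (a = c ∨ a = d) ∧ (b = c ∨ b = d) ∧
    (c = a ∨ c = b) ∧ (d = a ∨ d = b) := by
  refine ⟨?_, ?_, ?_, ?_⟩
  · rw [← mem_up, ← h, mem_up]; exact Or.inl rfl
  · rw [← mem_up, ← h, mem_up]; exact Or.inr rfl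
  · rw [← mem_up, h, mem_up]; exact Or.inl rfl
  · rw [← mem_up, h, mem_up]; exact Or.inr rfl

theorem pr_inj {a b c d : V} : pr a b = pr c d ↔ a = c ∧ b = d := by
  refine ⟨fun h => ?_, fun h => by rw [h.1, h.2]⟩
  obtain ⟨h1, h2, h3, h4⟩ := up_eq h
  have hac : a = c := by
    rcases h1 with h1 | h1
    · exact (up_eq h1).1.elim id id
    · exact ((up_eq h1).2.2.1.elim id id).symm
  subst hac
  refine ⟨rfl, ?_⟩
  rcases h2 with h2 | h2 <;> rcases h4 with h4 | h4
  · exact ((up_eq h2).2.1.elim id id).trans ((up_eq h4).2.1.elim id id).symm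
  · rcases (up_eq h4).2.1 with h5 | h5
    · exact ((up_eq h2).2.1.elim id id).trans h5.symm
    · exact h5.symm
  · rcases (up_eq h2).2.1 with h5 | h5
    · exact h5.trans ((up_eq h4).2.1.elim id id).symm
    · exact h5
  · rcases (up_eq h2).2.1 with h5 | h5
    · rcases (up_eq h4).2.1 with h6 | h6
      · exact h5.trans h6.symm
      · exact h6.symm
    · exact h5

/-- power set -/
noncomputable def pow (a : V) : V := (Uni.zfc.power a).choose

theorem mem_pow {a x : V} : E x (pow a) ↔ IsSub E x a := (Uni.zfc.power a).choose_spec x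

theorem irrefl (x : V) : ¬ E x x := by
  intro h
  obtain ⟨y, hy, h2⟩ := Uni.zfc.found (up x x) ⟨x, mem_up.2 (Or.inl rfl)⟩
  obtain rfl : y = x := (mem_up.1 hy).elim id id
  exact h2 y h hy

theorem ex_succ (x : V) : ∃ y, IsSucc E y x := by
  obtain ⟨c, hc⟩ := Uni.zfc.union (up x (up x x))
  refine ⟨c, fun z => (hc z).trans ⟨?_, ?_⟩⟩
  · rintro ⟨y, hy, hz⟩
    rcases mem_up.1 hy with rfl | rfl
    · exact Or.inl hz
    · exact Or.inr ((mem_up.1 hz).elim id id)
  · rintro (hz | rfl)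
    · exact ⟨x, mem_up.2 (Or.inl rfl), hz⟩
    · exact ⟨_, mem_up.2 (Or.inr rfl), mem_up.2 (Or.inl rfl)⟩

/-- successor -/
noncomputable def sc (x : V) : V := (ex_succ x).choose

theorem mem_sc {x z : V} : E z (sc x) ↔ E z x ∨ z = x := (ex_succ x).choose_spec z

/-- the empty set -/
noncomputable def emp : V := rng (Empty.elim : Empty → V)

theorem not_emp (x : V) : ¬ E x emp := fun h => (mem_rng.1 h).elim fun t _ => t.elim

theorem eq_emp {e : V} (h : ∀ x, ¬ E x e) : e = emp :=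
  vext fun x => iff_of_false (h x) (not_emp x)

theorem upair_iff {p a b : V} : IsUPair E p a b ↔ p = up a b := by
  constructor
  · intro h
    exact vext fun x => (h x).trans mem_up.symm
  · rintro rfl x
    exact mem_up

theorem pair_iff {p a b : V} : IsPair E p a b ↔ p = pr a b := by
  unfold IsPair
  simp only [upair_iff]
  constructor
  · intro h
    exact vext fun x => (h x).trans mem_up.symm
  · rintro rfl x
    exact mem_up

theorem app_iff {f x y : V} : App E f x y ↔ E (pr x y) f := by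
  unfold App
  simp only [pair_iff]
  constructor
  · rintro ⟨p, h, rfl⟩
    exact h
  · intro h
    exact ⟨_, h, rfl⟩

theorem app2_iff {f x y z : V} : NK.App2 E f x y z ↔ App E f (pr x y) z := by
  unfold NK.App2
  simp only [pair_iff]
  constructor
  · rintro ⟨p, rfl, h⟩
    exact h
  · intro h
    exact ⟨_, rfl, h⟩

/-- a bijection from the type `T` onto the elements of `a` -/
structure Cod (T : Type) (a : V) : Type 1 where
  /-- the code -/
  e : T → V
  inj : Function.Injective e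
  mem : ∀ x, E x a ↔ ∃ t, e t = x

namespace Cod

variable {T U : Type} {a b : V}

theorem e_mem (c : Cod T a) (t : T) : E (c.e t) a := (c.mem _).2 ⟨t, rfl⟩

theorem all (c : Cod T a) {P : V → Prop} : (∀ x, E x a → P x) ↔ ∀ t, P (c.e t) := by
  constructor
  · intro h t
    exact h _ (c.e_mem t)
  · intro h x hx
    obtain ⟨t, rfl⟩ := (c.mem x).1 hx
    exact h t

theorem ex (c : Cod T a) {P : V → Prop} : (∃ x, E x a ∧ P x) ↔ ∃ t, P (c.e t) := by
  constructor
  · rintro ⟨x, hx, h⟩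
    obtain ⟨t, rfl⟩ := (c.mem x).1 hx
    exact ⟨t, h⟩
  · rintro ⟨t, h⟩
    exact ⟨_, c.e_mem t, h⟩

/-- the graph of a map on `T` -/
noncomputable def gr (c : Cod T a) (F : T → V) : V :=
  rng fun t => pr (c.e t) (F t)

theorem app_gr (c : Cod T a) {F : T → V} {x y : V} :
    App E (c.gr F) x y ↔ ∃ t, c.e t = x ∧ F t = y := by
  rw [app_iff, gr, mem_rng]
  simp only [pr_inj]

theorem app_gr' (c : Cod T a) {F : T → V} {t : T} {y : V} :
    App E (c.gr F) (c.e t) y ↔ F t = y := by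
  rw [app_gr]
  constructor
  · rintro ⟨s, h, rfl⟩
    rw [c.inj h]
  · intro h
    exact ⟨t, rfl, h⟩

theorem funOn_iff (c : Cod T a) {f : V} {P : V → Prop} :
    IsFunOn E f a P ↔ ∃ F : T → V, (∀ t, P (F t)) ∧ f = c.gr F := by
  constructor
  · rintro ⟨h1, h2, h3⟩
    choose F hF using fun t => h2 _ (c.e_mem t)
    refine ⟨F, fun t => ?_, ?_⟩
    · obtain ⟨x, y, hp, -, hy⟩ := h1 _ (app_iff.1 (hF t))
      rw [pair_iff, pr_inj] at hp
      rw [hp.2]
      exact hy
    · refine vext fun p => ?_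
      rw [gr, mem_rng]
      constructor
      · intro hp
        obtain ⟨x, y, hp', hx, -⟩ := h1 _ hp
        rw [pair_iff] at hp'
        obtain ⟨t, rfl⟩ := (c.mem x).1 hx
        subst hp'
        exact ⟨t, by rw [h3 _ _ _ (hF t) (app_iff.2 hp)]⟩
      · rintro ⟨t, rfl⟩
        exact app_iff.1 (hF t)
  · rintro ⟨F, hF, rfl⟩
    refine ⟨fun p hp => ?_, c.all.2 fun t => ⟨F t, c.app_gr'.2 rfl⟩, fun x y y' h h' => ?_⟩
    · obtain ⟨t, rfl⟩ := mem_rng.1 hp
      exact ⟨_, _, pair_iff.2 rfl, c.e_mem t, hF t⟩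
    · obtain ⟨t, rfl, rfl⟩ := c.app_gr.1 h
      exact c.app_gr'.1 h'

theorem fun_iff (c : Cod T a) (d : Cod U b) {f : V} :
    IsFun E f a b ↔ ∃ F : T → U, f = c.gr fun t => d.e (F t) := by
  unfold IsFun
  rw [c.funOn_iff]
  constructor
  · rintro ⟨F, hF, rfl⟩
    choose G hG using fun t => (d.mem _).1 (hF t)
    exact ⟨G, by simp only [hG]⟩
  · rintro ⟨F, rfl⟩
    exact ⟨_, fun t => d.e_mem _, rfl⟩

theorem le_iff (c : Cod T a) (d : Cod U b) :
    LeCard E a b ↔ ∃ F : T → U, Function.Injective F := by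
  constructor
  · rintro ⟨j, h1, h2⟩
    obtain ⟨F, rfl⟩ := (c.fun_iff d).1 h1
    refine ⟨F, fun s t h => c.inj (h2 _ _ _ (c.app_gr'.2 rfl) (c.app_gr'.2 ?_))⟩
    rw [h]
  · rintro ⟨F, hF⟩
    refine ⟨_, (c.fun_iff d).2 ⟨F, rfl⟩, fun x x' y h h' => ?_⟩
    obtain ⟨s, rfl, rfl⟩ := c.app_gr.1 h
    obtain ⟨t, rfl, h2⟩ := c.app_gr.1 h'
    rw [hF (d.inj h2)]

/-- the code of a subset -/
noncomputable def sub (c : Cod T a) (S : Set T) : V := rng fun t : S => c.e t

theorem mem_sub (c : Cod T a) {S : Set T} {x : V} : E x (c.sub S) ↔ ∃ t ∈ S, c.e t = x := by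
  rw [sub, mem_rng]
  simp only [Subtype.exists, exists_prop]

theorem mem_sub' (c : Cod T a) {S : Set T} {t : T} : E (c.e t) (c.sub S) ↔ t ∈ S := by
  rw [mem_sub]
  constructor
  · rintro ⟨s, h, h'⟩
    rwa [← c.inj h']
  · intro h
    exact ⟨t, h, rfl⟩

theorem sub_inj (c : Cod T a) : Function.Injective c.sub := by
  intro S S' h
  ext t
  rw [← c.mem_sub', h, c.mem_sub']

theorem isSub_iff (c : Cod T a) {s : V} : IsSub E s a ↔ ∃ S, c.sub S = s := by
  constructor
  · intro h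
    refine ⟨{t | E (c.e t) s}, vext fun x => ?_⟩
    rw [mem_sub]
    constructor
    · rintro ⟨t, h, rfl⟩
      exact h
    · intro hx
      obtain ⟨t, rfl⟩ := (c.mem x).1 (h x hx)
      exact ⟨t, hx, rfl⟩
  · rintro ⟨S, rfl⟩ x hx
    obtain ⟨t, -, rfl⟩ := c.mem_sub.1 hx
    exact c.e_mem t

theorem sub_sub (c : Cod T a) {S S' : Set T} : IsSub E (c.sub S) (c.sub S') ↔ S ⊆ S' := by
  constructor
  · intro h t ht
    exact c.mem_sub'.1 (h _ (c.mem_sub'.2 ht))
  · intro h x hx
    obtain ⟨t, ht, rfl⟩ := c.mem_sub.1 hx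
    exact c.mem_sub'.2 (h ht)

theorem all_sub (c : Cod T a) {S : Set T} {P : V → Prop} :
    (∀ x, E x (c.sub S) → P x) ↔ ∀ t ∈ S, P (c.e t) := by
  constructor
  · intro h t ht
    exact h _ (c.mem_sub'.2 ht)
  · intro h x hx
    obtain ⟨t, ht, rfl⟩ := c.mem_sub.1 hx
    exact h t ht

theorem ex_sub (c : Cod T a) {S : Set T} {P : V → Prop} :
    (∃ x, E x (c.sub S) ∧ P x) ↔ ∃ t ∈ S, P (c.e t) := by
  constructor
  · rintro ⟨x, hx, h⟩
    obtain ⟨t, ht, rfl⟩ := c.mem_sub.1 hx
    exact ⟨t, ht, h⟩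
  · rintro ⟨t, ht, h⟩
    exact ⟨_, c.mem_sub'.2 ht, h⟩

/-- a set is the code of `S` if it has the right elements -/
theorem eq_sub (c : Cod T a) {S : Set T} {s : V} {P : V → Prop} (h1 : ∀ x, P x → E x a)
    (h2 : ∀ t, P (c.e t) ↔ t ∈ S) : (∀ x, E x s ↔ P x) ↔ s = c.sub S := by
  have key : ∀ x, E x (c.sub S) ↔ P x := by
    intro x
    constructor
    · intro hx
      obtain ⟨t, ht, rfl⟩ := c.mem_sub.1 hx
      exact (h2 t).2 ht
    · intro hx
      obtain ⟨t, rfl⟩ := (c.mem x).1 (h1 x hx)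
      exact c.mem_sub'.2 ((h2 t).1 hx)
  constructor
  · intro h
    exact vext fun x => (h x).trans (key x).symm
  · rintro rfl
    exact key

/-- the coding of a subset -/
noncomputable def res (c : Cod T a) (S : Set T) : Cod S (c.sub S) where
  e t := c.e t
  inj _ _ h := Subtype.ext (c.inj h)
  mem _ := mem_rng

/-- the coding of the power set -/
noncomputable def pw (c : Cod T a) : Cod (Set T) (pow a) where
  e := c.sub
  inj := c.sub_inj
  mem _ := mem_pow.trans c.isSub_iff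

theorem pw_e (c : Cod T a) (S : Set T) : c.pw.e S = c.sub S := rfl

theorem res_e (c : Cod T a) (S : Set T) (t : S) : (c.res S).e t = c.e t := rfl

end Cod

theorem cod_of_set (a : V) : ∃ T : Type, Nonempty (Cod T a) := by
  obtain ⟨T, f, hf⟩ := Uni.small a
  refine ⟨Quotient (Setoid.ker f), ⟨⟨Quotient.lift f fun _ _ h => h, ?_, fun x => ?_⟩⟩⟩
  · rintro ⟨s⟩ ⟨t⟩ h
    exact Quotient.sound h
  · refine (hf x).trans ⟨?_, ?_⟩
    · rintro ⟨t, rfl⟩
      exact ⟨Quotient.mk _ t, rfl⟩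
    · rintro ⟨⟨t⟩, rfl⟩
      exact ⟨t, rfl⟩

theorem cod_of_type (T : Type) : ∃ a : V, Nonempty (Cod T a) := by
  obtain ⟨lin, wf⟩ := exists_wellFoundedLT T
  let e : T → V := wf.wf.fix fun t rec => rng fun s : {s // s < t} => rec s.1 s.2
  have he : ∀ t, e t = rng fun s : {s // s < t} => e s.1 := fun t => wf.wf.fix_eq _ t
  have hlt : ∀ s t, s < t → e s ≠ e t := by
    intro s t h h2
    have h3 : E (e s) (e t) := by
      rw [he t]
      exact mem_rng.2 ⟨⟨s, h⟩, rfl⟩
    rw [h2] at h3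
    exact irrefl _ h3
  refine ⟨rng e, ⟨⟨e, fun s t h => ?_, fun x => mem_rng⟩⟩⟩
  rcases lt_trichotomy s t with h1 | h1 | h1
  · exact absurd h (hlt _ _ h1)
  · exact h1
  · exact absurd h.symm (hlt _ _ h1)

/-- the numerals -/
noncomputable def num : ℕ → V
  | 0 => emp
  | n + 1 => sc (num n)

theorem mem_num {n : ℕ} {x : V} : E x (num n) ↔ ∃ i < n, num i = x := by
  induction n with
  | zero => simp [num, not_emp]
  | succ n ih =>
    rw [num, mem_sc, ih, or_comm]
    constructor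
    · rintro (rfl | ⟨i, hi, rfl⟩)
      · exact ⟨n, by omega, rfl⟩
      · exact ⟨i, by omega, rfl⟩
    · rintro ⟨i, hi, rfl⟩
      rcases (Nat.lt_succ_iff.1 hi).eq_or_lt with rfl | h
      · exact Or.inl rfl
      · exact Or.inr ⟨i, h, rfl⟩

theorem num_inj : Function.Injective num := by
  intro m n h
  rcases lt_trichotomy m n with h1 | h1 | h1
  · have h2 : E (num m) (num n) := mem_num.2 ⟨m, h1, rfl⟩
    rw [h] at h2
    exact absurd h2 (irrefl _)
  · exact h1
  · have h2 : E (num n) (num m) := mem_num.2 ⟨n, h1, rfl⟩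
    rw [h] at h2
    exact absurd h2 (irrefl _)

theorem succ_iff {y x : V} : IsSucc E y x ↔ y = sc x := by
  constructor
  · intro h
    exact vext fun z => (h z).trans mem_sc.symm
  · rintro rfl z
    exact mem_sc

theorem ind_range : IsInductive E (rng num) := by
  refine ⟨⟨emp, mem_rng.2 ⟨0, rfl⟩, not_emp⟩, fun x hx => ?_⟩
  obtain ⟨n, rfl⟩ := mem_rng.1 hx
  exact ⟨_, mem_rng.2 ⟨n + 1, rfl⟩, succ_iff.2 rfl⟩

theorem num_mem {w : V} (h : IsInductive E w) (n : ℕ) : E (num n) w := by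
  induction n with
  | zero =>
    obtain ⟨e, he, h0⟩ := h.1
    rwa [eq_emp h0] at he
  | succ n ih =>
    obtain ⟨y, hy, hs⟩ := h.2 _ ih
    rwa [succ_iff.1 hs] at hy

theorem omega_range : IsOmega E (rng num) := by
  refine ⟨ind_range, fun w hw x hx => ?_⟩
  obtain ⟨n, rfl⟩ := mem_rng.1 hx
  exact num_mem hw n

/-- the coding of the natural numbers -/
noncomputable def codN {w : V} (h : IsOmega E w) : Cod ℕ w where
  e := num
  inj := num_inj
  mem x := ⟨fun hx => mem_rng.1 (h.2 _ ind_range x hx), by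
    rintro ⟨n, rfl⟩
    exact num_mem h.1 n⟩

/-- the coding of a finite ordinal -/
noncomputable def codF (n : ℕ) : Cod (Fin n) (num n) where
  e i := num i
  inj _ _ h := Fin.ext (num_inj h)
  mem x := by
    rw [mem_num]
    constructor
    · rintro ⟨i, hi, rfl⟩
      exact ⟨⟨i, hi⟩, rfl⟩
    · rintro ⟨i, rfl⟩
      exact ⟨i, i.2, rfl⟩

theorem fin_iff {w : V} (h : IsOmega E w) {T : Type} {a : V} (c : Cod T a) :
    (∃ n, E n w ∧ LeCard E a n) ↔ Finite T := by
  rw [(codN h).ex]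
  constructor
  · rintro ⟨n, hn⟩
    obtain ⟨F, hF⟩ := (c.le_iff (codF n)).1 hn
    exact Finite.of_injective F hF
  · intro hT
    obtain ⟨n, ⟨e⟩⟩ := Finite.exists_equiv_fin T
    exact ⟨n, (c.le_iff (codF n)).2 ⟨e, e.injective⟩⟩

theorem ctb_iff {w : V} (h : IsOmega E w) {T : Type} {a : V} (c : Cod T a) :
    LeCard E a w ↔ Countable T := by
  rw [c.le_iff (codN h)]
  exact (countable_iff_exists_injective T).symm

theorem inf_iff {w : V} (h : IsOmega E w) {T : Type} {a : V} (c : Cod T a) :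
    LeCard E w a ↔ Infinite T := by
  rw [(codN h).le_iff c]
  constructor
  · rintro ⟨F, hF⟩
    exact Infinite.of_injective F hF
  · intro hT
    exact ⟨_, (Infinite.natEmbedding T).injective⟩

end Pool.Agent.P.MP_0d6be8_lc.Std
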