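import Pool.Agent.P.MP_0d6be8_lc.Std.A

set_option autoImplicit false

/-! The real numbers of a full universe. -/

open Pool.Agent.Lib.PosetForcing

namespace Pool.Agent.P.MP_0d6be8_lc.Std

theorem iso_of_lub {T : Type} [Field T] [LinearOrder T] [IsStrictOrderedRing T]
    (h : ∀ S : Set T, S.Nonempty → BddAbove S → ∃ c, IsLUB S c) : Nonempty (ℝ ≃+*o T) := by
  have arch : Archimedean T := by
    refine archimedean_iff_nat_le.2 fun x => ?_
    by_contra hx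
    push Not at hx
    obtain ⟨c, hc⟩ := h (Set.range (Nat.cast : ℕ → T)) ⟨_, 0, rfl⟩ ⟨x, by
      rintro _ ⟨n, rfl⟩
      exact (hx n).le⟩
    have h1 : c ≤ c - 1 := hc.2 (by
      rintro _ ⟨n, rfl⟩
      have := hc.1 ⟨n + 1, rfl⟩
      push_cast at this
      linarith)
    linarith
  let φ := ConditionallyCompleteLinearOrderedField.inducedOrderRingHom T ℝ
  have hm : StrictMono φ := φ.monotone'.strictMono_of_injective φ.toRingHom.injective
  have hq : ∀ q : ℚ, φ q = q := fun q => map_ratCast φ.toRingHom q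
  have hs : Function.Surjective φ := by
    intro r
    obtain ⟨q0, h0⟩ := exists_rat_lt r
    obtain ⟨q1, h1⟩ := exists_rat_gt r
    obtain ⟨c, hc⟩ := h {t | φ t < r} ⟨q0, by simpa only [Set.mem_ofPred_eq, hq] using h0⟩
      ⟨q1, fun t ht => hm.le_iff_le.1 (by rw [hq]; exact (ht.trans h1).le)⟩
    refine ⟨c, le_antisymm ?_ ?_⟩
    · by_contra h2
      obtain ⟨q, h3, h4⟩ := exists_rat_btwn (not_le.1 h2)
      have h5 : c ≤ q := hc.2 fun t ht => hm.le_iff_le.1 (by rw [hq]; exact (ht.trans h3).le)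
      have h6 := hm.le_iff_le.2 h5
      rw [hq] at h6
      exact absurd h4 (not_lt.2 h6)
    · by_contra h2
      obtain ⟨q, h3, h4⟩ := exists_rat_btwn (not_le.1 h2)
      have h5 : (q : T) ≤ c := hc.1 (by simpa only [Set.mem_ofPred_eq, hq] using h4)
      have h6 := hm.le_iff_le.2 h5
      rw [hq] at h6
      exact absurd h3 (not_lt.2 h6)
  let ψ : T ≃+* ℝ := RingEquiv.ofBijective φ.toRingHom ⟨hm.injective, hs⟩
  exact ⟨OrderRingIso.symm { ψ with map_le_map_iff' := hm.le_iff_le }⟩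

theorem reals_unique {T : Type} (ad mu : T → T → T) (l : T → T → Prop) (z e : T)
    (a0 : ∀ x, ad x z = x) (ac : ∀ x y, ad x y = ad y x)
    (aa : ∀ x y w, ad (ad x y) w = ad x (ad y w))
    (m1 : ∀ x, mu x e = x) (mc : ∀ x y, mu x y = mu y x)
    (ma : ∀ x y w, mu (mu x y) w = mu x (mu y w)) (ne : z ≠ e)
    (neg : ∀ x, ∃ y, ad x y = z) (inv : ∀ x, x ≠ z → ∃ y, mu x y = e)
    (dis : ∀ x y w, ad (mu x y) (mu x w) = mu x (ad y w))
    (lr : ∀ x, l x x) (la : ∀ x y, l x y → l y x → x = y) (lt : ∀ x y w, l x y → l y w → l x w)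
    (tot : ∀ x y, l x y ∨ l y x) (al : ∀ x y w, l x y → l (ad x w) (ad y w))
    (ml : ∀ x y, l z x → l z y → l z (mu x y))
    (sup : ∀ S : Set T, S.Nonempty → (∃ b, ∀ x ∈ S, l x b) →
      ∃ c, ∀ b, l c b ↔ ∀ x ∈ S, l x b) :
    ∃ φ : ℝ ≃ T, φ 0 = z ∧ (∀ x y, φ (x + y) = ad (φ x) (φ y)) ∧
      (∀ x y, φ (x * y) = mu (φ x) (φ y)) ∧ ∀ x y, l (φ x) (φ y) ↔ x ≤ y := by
  classical
  choose ng hng using neg
  choose iv hiv using inv
  let : Add T := ⟨ad⟩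
  let : Mul T := ⟨mu⟩
  let : Neg T := ⟨ng⟩
  let : Zero T := ⟨z⟩
  let : One T := ⟨e⟩
  let : Inv T := ⟨fun x => if h : x = z then z else iv x h⟩
  let F : Field T := Field.ofMinimalAxioms T aa (fun x => (ac _ _).trans (a0 x))
    (fun x => (ac _ _).trans (hng x)) ma mc (fun x => (mc _ _).trans (m1 x))
    (fun x hx => by
      change mu x (if h : x = z then z else iv x h) = e
      rw [dif_neg (show ¬ x = z from hx)]
      exact hiv x hx)
    (dif_pos rfl) (fun x y w => (dis x y w).symm) ⟨z, e, ne⟩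
  let L : LinearOrder T :=
    { le := l
      le_refl := lr
      le_trans := lt
      le_antisymm := la
      le_total := tot
      toDecidableLE := Classical.decRel _ }
  have : IsOrderedAddMonoid T := ⟨fun a b h c => al a b c h, fun a b h c => by
    rw [add_comm c, add_comm c]
    exact al a b c h⟩
  have hmul : ∀ a b : T, 0 ≤ a → 0 ≤ b → 0 ≤ a * b := ml
  have : ZeroLEOneClass T := ⟨by
    rcases le_total (0 : T) 1 with h | h
    · exact h
    · have h1 : (0 : T) ≤ -1 := neg_nonneg.2 h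
      simpa using hmul _ _ h1 h1⟩
  have : IsStrictOrderedRing T := IsStrictOrderedRing.of_mul_pos fun a b ha hb =>
    lt_of_le_of_ne (hmul _ _ ha.le hb.le) (mul_ne_zero ha.ne' hb.ne').symm
  obtain ⟨φ⟩ := iso_of_lub (T := T) fun S h1 h2 => by
    obtain ⟨c, hc⟩ := sup S h1 h2
    exact ⟨c, isLUB_iff_le_iff.2 hc⟩
  exact ⟨φ.toRingEquiv.toEquiv, map_zero φ, map_add φ, map_mul φ, fun x y => φ.map_le_map_iff'⟩

variable [Uni]

/-- a coding of the ordered field of real numbers -/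
structure RD (R add mul rle : V) : Type 1 where
  /-- the coding of the set -/
  c : Cod ℝ R
  add : ∀ x y z, NK.App2 E add (c.e x) (c.e y) z ↔ c.e (x + y) = z
  mul : ∀ x y z, NK.App2 E mul (c.e x) (c.e y) z ↔ c.e (x * y) = z
  le : ∀ x y, App E rle (c.e x) (c.e y) ↔ x ≤ y

theorem op_fun {T : Type} {R f : V} (c : Cod T R) (h : NK.IsOp E f R) :
    ∃ F : T → T → T, ∀ x y z, NK.App2 E f (c.e x) (c.e y) z ↔ c.e (F x y) = z := by
  have h1 : ∀ x y, ∃ t, NK.App2 E f (c.e x) (c.e y) (c.e t) := fun x y =>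
    c.ex.1 (h.1 _ _ (c.e_mem x) (c.e_mem y))
  choose F hF using h1
  refine ⟨F, fun x y z => ⟨fun h2 => h.2 _ _ _ _ (hF x y) h2, ?_⟩⟩
  rintro rfl
  exact hF x y

theorem monoid_fun {T : Type} {R f o : V} (c : Cod T R) (h : NK.IsMonoid E R f o) :
    ∃ (F : T → T → T) (u : T), (∀ x y z, NK.App2 E f (c.e x) (c.e y) z ↔ c.e (F x y) = z) ∧
      c.e u = o ∧ (∀ x, F x u = x) ∧ (∀ x y, F x y = F y x) ∧
      ∀ x y w, F (F x y) w = F x (F y w) := by
  obtain ⟨h1, h2, h3, h4, h5⟩ := h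
  obtain ⟨F, hF⟩ := op_fun c h1
  obtain ⟨u, rfl⟩ := (c.mem _).1 h2
  refine ⟨F, u, hF, rfl, fun x => c.inj ((hF _ _ _).1 (h3 _ (c.e_mem x))), fun x y => ?_,
    fun x y w => ?_⟩
  · exact (c.inj ((hF _ _ _).1 (h4 _ _ _ (c.e_mem x) (c.e_mem y) ((hF _ _ _).2 rfl)))).symm
  · exact (c.inj ((hF _ _ _).1 (h5 _ _ _ _ _ _ (c.e_mem x) (c.e_mem y) (c.e_mem w)
      ((hF _ _ _).2 rfl) ((hF _ _ _).2 rfl) ((hF _ _ _).2 rfl)))).symm

theorem rd_of_reals {R add mul rle o : V} (h : NK.IsReals E R add mul rle o) :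
    ∃ r : RD R add mul rle, r.c.e 0 = o := by
  obtain ⟨e, hA, hM, hne, hneg, hinv, hdis, hO, htot, hal, hml, hsup⟩ := h
  obtain ⟨T, ⟨c⟩⟩ := cod_of_set R
  obtain ⟨ad, z, ha, rfl, a0, ac, aa⟩ := monoid_fun c hA
  obtain ⟨mu, u, hm, rfl, m1, mc, ma⟩ := monoid_fun c hM
  obtain ⟨φ, h0, h1, h2, h3⟩ := reals_unique ad mu (fun x y => App E rle (c.e x) (c.e y)) z u
    a0 ac aa m1 mc ma (fun h => hne (by rw [h]))
    (fun x => by
      obtain ⟨y, hy⟩ := c.ex.1 (hneg _ (c.e_mem x))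
      exact ⟨y, c.inj ((ha _ _ _).1 hy)⟩)
    (fun x hx => by
      obtain ⟨y, hy⟩ := c.ex.1 (hinv _ (c.e_mem x) fun h => hx (c.inj h))
      exact ⟨y, c.inj ((hm _ _ _).1 hy)⟩)
    (fun x y w => c.inj ((ha _ _ _).1 (hdis _ _ _ _ _ _ _ (c.e_mem x) (c.e_mem y) (c.e_mem w)
      ((ha _ _ _).2 rfl) ((hm _ _ _).2 rfl) ((hm _ _ _).2 rfl) ((hm _ _ _).2 rfl))))
    (fun x => hO.1 _ (c.e_mem x))
    (fun x y h h' => c.inj (hO.2.1 _ _ (c.e_mem x) (c.e_mem y) h h'))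
    (fun x y w => hO.2.2 _ _ _ (c.e_mem x) (c.e_mem y) (c.e_mem w))
    (fun x y => htot _ _ (c.e_mem x) (c.e_mem y))
    (fun x y w h => hal _ _ _ _ _ (c.e_mem x) (c.e_mem y) (c.e_mem w) h ((ha _ _ _).2 rfl)
      ((ha _ _ _).2 rfl))
    (fun x y h h' => hml _ _ _ (c.e_mem x) (c.e_mem y) h h' ((hm _ _ _).2 rfl))
    (fun S ⟨s, hs⟩ ⟨b, hb⟩ => by
      obtain ⟨d, hd, hd'⟩ := hsup (c.sub S) (c.isSub_iff.2 ⟨S, rfl⟩) ⟨_, c.mem_sub'.2 hs⟩
        ⟨_, c.e_mem b, c.all_sub.2 hb⟩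
      obtain ⟨d, rfl⟩ := (c.mem _).1 hd
      exact ⟨d, fun b => (hd' _ (c.e_mem b)).trans c.all_sub⟩)
  refine ⟨⟨⟨fun x => c.e (φ x), c.inj.comp φ.injective, fun x => (c.mem x).trans ?_⟩,
    fun x y w => ?_, fun x y w => ?_, h3⟩, ?_⟩
  · exact (φ.exists_congr_right (q := fun t => c.e t = x)).symm
  · simp only [h1]
    exact ha _ _ _
  · simp only [h2]
    exact hm _ _ _
  · simp only [h0]

/-- the code of a relation -/
noncomputable def rel {T : Type} {a : V} (c : Cod T a) (r : T → T → Prop) : V :=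
  rng fun p : {p : T × T // r p.1 p.2} => pr (c.e p.1.1) (c.e p.1.2)

theorem app_rel {T : Type} {a : V} (c : Cod T a) {r : T → T → Prop} {x y : T} :
    App E (rel c r) (c.e x) (c.e y) ↔ r x y := by
  rw [app_iff, rel, mem_rng]
  constructor
  · rintro ⟨⟨⟨s, t⟩, h⟩, h2⟩
    rw [pr_inj] at h2
    rwa [← c.inj h2.1, ← c.inj h2.2]
  · intro h
    exact ⟨⟨(x, y), h⟩, rfl⟩

/-- the code of an operation -/
noncomputable def opr {T : Type} {a : V} (c : Cod T a) (F : T → T → T) : V :=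
  rng fun p : T × T => pr (pr (c.e p.1) (c.e p.2)) (c.e (F p.1 p.2))

theorem app_opr {T : Type} {a : V} (c : Cod T a) {F : T → T → T} {x y z : V} :
    NK.App2 E (opr c F) x y z ↔ ∃ s t, c.e s = x ∧ c.e t = y ∧ c.e (F s t) = z := by
  rw [app2_iff, app_iff, opr, mem_rng]
  simp only [pr_inj, Prod.exists, and_assoc]

theorem app_opr' {T : Type} {a : V} (c : Cod T a) {F : T → T → T} (x y : T) (z : V) :
    NK.App2 E (opr c F) (c.e x) (c.e y) z ↔ c.e (F x y) = z := by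
  rw [app_opr]
  constructor
  · rintro ⟨s, t, h1, h2, rfl⟩
    rw [c.inj h1, c.inj h2]
  · intro h
    exact ⟨x, y, rfl, rfl, h⟩

theorem monoid_opr {T : Type} {a : V} (c : Cod T a) {F : T → T → T} {u : T} (h1 : ∀ x, F x u = x)
    (h2 : ∀ x y, F x y = F y x) (h3 : ∀ x y w, F (F x y) w = F x (F y w)) :
    NK.IsMonoid E a (opr c F) (c.e u) := by
  refine ⟨⟨fun x y hx hy => ?_, fun x y z z' h h' => ?_⟩, c.e_mem u, c.all.2 fun x => ?_,
    fun x y z _ _ h => ?_, fun x y z p q r _ _ hz h h' h'' => ?_⟩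
  · obtain ⟨x, rfl⟩ := (c.mem _).1 hx
    obtain ⟨y, rfl⟩ := (c.mem _).1 hy
    exact ⟨_, c.e_mem _, (app_opr' c _ _ _).2 rfl⟩
  · obtain ⟨s, t, rfl, rfl, rfl⟩ := (app_opr c).1 h
    exact (app_opr' c _ _ _).1 h'
  · rw [app_opr', h1]
  · obtain ⟨s, t, rfl, rfl, rfl⟩ := (app_opr c).1 h
    rw [app_opr', h2]
  · obtain ⟨s, t, rfl, rfl, rfl⟩ := (app_opr c).1 h
    obtain ⟨z, rfl⟩ := (c.mem _).1 hz
    rw [app_opr'] at h' h''
    subst h' h''
    rw [app_opr', h3]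

theorem RD.sup_iff {R add mul rle : V} (r : RD R add mul rle) {S : V → Prop} {s : Set ℝ}
    (h : ∀ y, S y ↔ ∃ t ∈ s, r.c.e t = y) {x : ℝ} :
    NK.IsSup E R rle (r.c.e x) S ↔ IsLUB s x := by
  rw [isLUB_iff_le_iff, NK.IsSup, and_iff_right (r.c.e_mem x), r.c.all]
  refine forall_congr' fun b => iff_congr (r.le _ _) ⟨fun h1 t ht => ?_, fun h1 y hy => ?_⟩
  · exact (r.le _ _).1 (h1 _ ((h _).2 ⟨t, ht, rfl⟩))
  · obtain ⟨t, ht, rfl⟩ := (h _).1 hy
    exact (r.le _ _).2 (h1 ht)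

theorem exists_reals : ∃ R add mul rle o : V, NK.IsReals E R add mul rle o := by
  obtain ⟨R, ⟨c⟩⟩ := cod_of_type ℝ
  let r : RD R (opr c (· + ·)) (opr c (· * ·)) (rel c (· ≤ ·)) :=
    ⟨c, app_opr' c, app_opr' c, fun _ _ => app_rel c⟩
  refine ⟨R, opr c (· + ·), opr c (· * ·), rel c (· ≤ ·), c.e 0, c.e 1,
    monoid_opr c add_zero add_comm add_assoc, monoid_opr c mul_one mul_comm mul_assoc,
    fun h => zero_ne_one (c.inj h), c.all.2 fun x => ⟨_, c.e_mem (-x), ?_⟩,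
    c.all.2 fun x hx => ⟨_, c.e_mem x⁻¹, ?_⟩, ?_, ⟨c.all.2 fun x => (app_rel c).2 le_rfl, ?_, ?_⟩,
    ?_, ?_, ?_, ?_⟩
  · rw [app_opr', add_neg_cancel]
  · rw [app_opr', mul_inv_cancel₀ fun h => hx (by rw [h])]
  · intro x y z p q s t hx hy hz h1 h2 h3 h4
    obtain ⟨x, rfl⟩ := (c.mem _).1 hx
    obtain ⟨y, rfl⟩ := (c.mem _).1 hy
    obtain ⟨z, rfl⟩ := (c.mem _).1 hz
    rw [app_opr'] at h1 h3 h4
    subst h1 h3 h4
    rw [app_opr'] at h2 ⊢
    rw [← h2, mul_add]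
  · intro x y hx hy h1 h2
    obtain ⟨x, rfl⟩ := (c.mem _).1 hx
    obtain ⟨y, rfl⟩ := (c.mem _).1 hy
    rw [app_rel] at h1 h2
    rw [le_antisymm h1 h2]
  · intro x y z hx hy hz h1 h2
    obtain ⟨x, rfl⟩ := (c.mem _).1 hx
    obtain ⟨y, rfl⟩ := (c.mem _).1 hy
    obtain ⟨z, rfl⟩ := (c.mem _).1 hz
    rw [app_rel] at h1 h2 ⊢
    exact h1.trans h2
  · intro x y hx hy
    obtain ⟨x, rfl⟩ := (c.mem _).1 hx
    obtain ⟨y, rfl⟩ := (c.mem _).1 hy
    rw [app_rel, app_rel]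
    exact le_total x y
  · intro x y z p q hx hy hz h1 h2 h3
    obtain ⟨x, rfl⟩ := (c.mem _).1 hx
    obtain ⟨y, rfl⟩ := (c.mem _).1 hy
    obtain ⟨z, rfl⟩ := (c.mem _).1 hz
    rw [app_opr'] at h2 h3
    subst h2 h3
    rw [app_rel] at h1 ⊢
    linarith
  · intro x y p hx hy h1 h2 h3
    obtain ⟨x, rfl⟩ := (c.mem _).1 hx
    obtain ⟨y, rfl⟩ := (c.mem _).1 hy
    rw [app_opr'] at h3
    subst h3
    rw [app_rel] at h1 h2 ⊢
    exact mul_nonneg h1 h2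
  · rintro S hS ⟨x, hx⟩ ⟨b, hb, hb'⟩
    obtain ⟨S, rfl⟩ := c.isSub_iff.1 hS
    obtain ⟨x, hx', rfl⟩ := c.mem_sub.1 hx
    obtain ⟨b, rfl⟩ := (c.mem _).1 hb
    refine ⟨c.e (sSup S), (r.sup_iff fun y => c.mem_sub).2 
      (isLUB_csSup ⟨x, hx'⟩ ⟨b, fun t ht => ?_⟩)⟩
    exact (app_rel c).1 (hb' _ (c.mem_sub'.2 ht))

namespace RD

variable {R add mul rle w : V} (r : RD R add mul rle)

theorem abs_iff {x : ℝ} {t : V} : 
    NK.IsAbs E R add rle (r.c.e 0) (r.c.e x) t ↔ r.c.e |x| = t := by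
  constructor
  · rintro ⟨h1, h2, h3⟩
    obtain ⟨t, rfl⟩ := (r.c.mem _).1 h1
    rw [r.le] at h2
    rcases h3 with h3 | h3
    · rw [← r.c.inj h3, abs_of_nonneg h2]
    · rw [r.add] at h3
      have h4 : x = -t := by linarith [r.c.inj h3]
      rw [h4, abs_neg, abs_of_nonneg h2]
  · rintro rfl
    refine ⟨r.c.e_mem _, by rw [r.le]; exact abs_nonneg x, ?_⟩
    rcases le_total 0 x with h | h
    · exact Or.inl (by rw [abs_of_nonneg h])
    · exact Or.inr (by rw [r.add, abs_of_nonpos h, add_neg_cancel])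

theorem sums_iff (hw : IsOmega E w) {v : V → V → Prop} {τ : ℕ → ℝ}
    (hv : ∀ n x, v (num n) x ↔ r.c.e (τ n) = x) {s : V} :
    NK.IsSums E w R add (r.c.e 0) s v ↔
      s = (codN hw).gr fun n => r.c.e (∑ i ∈ Finset.range n, τ i) := by
  have ag : ∀ {F : ℕ → V} {n : ℕ} {y : V}, App E ((codN hw).gr F) (num n) y ↔ F n = y :=
    (codN hw).app_gr'
  constructor
  · rintro ⟨h1, h2, h3⟩
    obtain ⟨σ, rfl⟩ := ((codN hw).fun_iff r.c).1 h1
    have : ∀ n, σ n = ∑ i ∈ Finset.range n, τ i := by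
      intro n
      induction n with
      | zero =>
        have h4 := ag.1 (h2 (num 0) ((codN hw).e_mem 0) not_emp)
        simpa using r.c.inj h4
      | succ n ih =>
        have h4 := h3 (num n) (num (n + 1)) _ _ _ (succ_iff.2 rfl) (ag.2 rfl) ((hv _ _).2 rfl)
          (ag.2 rfl)
        rw [r.add] at h4
        rw [Finset.sum_range_succ, ← ih, r.c.inj h4]
    simp only [this]
  · rintro rfl
    refine ⟨((codN hw).fun_iff r.c).2 ⟨_, rfl⟩, fun n _ h => ?_, fun n n' x y z h1 h2 h3 h4 => ?_⟩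
    · rw [eq_emp h]
      exact (ag (n := 0)).2 (by simp)
    · obtain ⟨n, rfl, rfl⟩ := (codN hw).app_gr.1 h2
      rw [succ_iff.1 h1] at h4
      rw [← (hv _ _).1 h3, r.add, ← (ag (n := n + 1)).1 h4, Finset.sum_range_succ]

end RD

end Pool.Agent.P.MP_0d6be8_lc.Std
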