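import Pool.Agent.P.MP_0d6be8_lc.Std.B
import Pool.Agent.P.MP_0d6be8_lc.Defs

set_option autoImplicit false

/-! Boolean algebras, charges and the Nikodym property in a full universe. -/

open Pool.Agent.Lib.PosetForcing

namespace Pool.Agent.P.MP_0d6be8_lc.Std

theorem additive_bot {A : Type} [BooleanAlgebra A] {μ : A → ℝ} (h : IsAdditive μ) : μ ⊥ = 0 := by
  have := h ⊥ ⊥ disjoint_bot_left
  rw [sup_idem] at this
  linarith

theorem seq_iff {A : Type} [BooleanAlgebra A] {μ : A → ℝ} (h0 : μ ⊥ = 0) {C : ℝ} :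
    (∀ d : ℕ → A, (∀ i j, i ≠ j → Disjoint (d i) (d j)) →
      ∀ n, ∑ i ∈ Finset.range n, |μ (d i)| ≤ C) ↔ VarLE μ C := by
  classical
  constructor
  · intro h s hs
    let e := s.equivFin.symm
    let d : ℕ → A := fun i => if hi : i < s.card then (e ⟨i, hi⟩).1 else ⊥
    have h1 := h d (fun i j hij => ?_) s.card
    · rw [Finset.sum_range fun i => |μ (d i)|] at h1
      rw [← Finset.sum_coe_sort s fun a => |μ a|, ← e.sum_comp]
      refine le_of_eq_of_le (Finset.sum_congr rfl fun i _ => ?_) h1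
      simp only [d, dif_pos i.2]
    · by_cases hi : i < s.card
      · by_cases hj : j < s.card
        · simp only [d, dif_pos hi, dif_pos hj]
          refine hs (e ⟨i, hi⟩).2 (e ⟨j, hj⟩).2 fun h2 => hij ?_
          exact congrArg Fin.val (e.injective (Subtype.ext h2))
        · simp only [d, dif_neg hj]
          exact disjoint_bot_right
      · simp only [d, dif_neg hi]
        exact disjoint_bot_left
  · intro h d hd n
    have h1 := h ((Finset.range n).image d) (by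
      intro x hx y hy hxy
      obtain ⟨i, -, rfl⟩ := Finset.mem_image.1 hx
      obtain ⟨j, -, rfl⟩ := Finset.mem_image.1 hy
      exact hd i j fun h => hxy (by rw [h]))
    refine le_of_eq_of_le (Eq.symm ?_) h1
    refine Finset.sum_image_of_pairwise_eq_zero fun i _ j _ hij h2 => ?_
    have h3 := hd i j hij
    rw [← h2, disjoint_self] at h3
    rw [h3, h0, abs_zero]

variable [Uni]

/-- a coding of a Boolean algebra -/
structure BD (A : Type) [BooleanAlgebra A] (a le : V) : Type 1 where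
  /-- the coding of the set -/
  c : Cod A a
  le : ∀ x y, App E le (c.e x) (c.e y) ↔ x ≤ y

theorem exists_bd (A : Type) [BooleanAlgebra A] : ∃ a le : V, Nonempty (BD A a le) := by
  obtain ⟨a, ⟨c⟩⟩ := cod_of_type A
  exact ⟨a, rel c (· ≤ ·), ⟨c, fun _ _ => app_rel c⟩⟩

theorem bd_of_boolean {a le : V} (h : NK.IsBoolean E a le) :
    ∃ (A : Type) (_ : BooleanAlgebra A), Nonempty (BD A a le) := by
  obtain ⟨⟨x0, hx0⟩, hO, hL, hD, hC⟩ := h
  obtain ⟨T, ⟨c⟩⟩ := cod_of_set a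
  obtain ⟨x0, rfl⟩ := (c.mem _).1 hx0
  have hm : ∀ x y, ∃ t, NK.IsMeet E a le (c.e t) (c.e x) (c.e y) := fun x y => by
    obtain ⟨t, ht⟩ := (hL _ _ (c.e_mem x) (c.e_mem y)).1
    obtain ⟨t, rfl⟩ := (c.mem _).1 ht.1
    exact ⟨t, ht⟩
  have hj : ∀ x y, ∃ t, NK.IsJoin E a le (c.e t) (c.e x) (c.e y) := fun x y => by
    obtain ⟨t, ht⟩ := (hL _ _ (c.e_mem x) (c.e_mem y)).2
    obtain ⟨t, rfl⟩ := (c.mem _).1 ht.1
    exact ⟨t, ht⟩
  have hc : ∀ x, ∃ t, NK.IsCompl E a le (c.e t) (c.e x) := fun x => by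
    obtain ⟨t, ht⟩ := hC _ (c.e_mem x)
    obtain ⟨t, rfl⟩ := (c.mem _).1 ht.1
    exact ⟨t, ht⟩
  choose mt hm using hm
  choose jn hj using hj
  choose cp hc using hc
  have rf : ∀ x, App E le (c.e x) (c.e x) := fun x => hO.1 _ (c.e_mem x)
  let L : Lattice T :=
    { le := fun x y => App E le (c.e x) (c.e y)
      le_refl := rf
      le_trans := fun x y z => hO.2.2 _ _ _ (c.e_mem x) (c.e_mem y) (c.e_mem z)
      le_antisymm := fun x y h h' => c.inj (hO.2.1 _ _ (c.e_mem x) (c.e_mem y) h h')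
      sup := jn
      le_sup_left := fun x y => (((hj x y).2 _ (c.e_mem _)).1 (rf _)).1
      le_sup_right := fun x y => (((hj x y).2 _ (c.e_mem _)).1 (rf _)).2
      sup_le := fun x y z h h' => ((hj x y).2 _ (c.e_mem _)).2 ⟨h, h'⟩
      inf := mt
      inf_le_left := fun x y => (((hm x y).2 _ (c.e_mem _)).1 (rf _)).1
      inf_le_right := fun x y => (((hm x y).2 _ (c.e_mem _)).1 (rf _)).2
      le_inf := fun x y z h h' => ((hm y z).2 _ (c.e_mem _)).2 ⟨h, h'⟩ }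
  let D : DistribLattice T := DistribLattice.ofInfSupLe fun x y z =>
    ((hD _ _ _ _ _ _ _ (c.e_mem x) (c.e_mem y) (c.e_mem z) (hj y z) (hm x _) (hm x y)
      (hm x z)).2 _ (c.e_mem _)).2 ⟨le_sup_left (a := x ⊓ y), le_sup_right (a := x ⊓ y)⟩
  have hb : ∀ x y : T, x ⊓ cp x ≤ y := fun x y =>
    (hc x).2.1 _ _ (c.e_mem _) (c.e_mem y) (inf_le_left (a := x)) (inf_le_right (a := x))
  have ht : ∀ x y : T, y ≤ x ⊔ cp x := fun x y =>
    (hc x).2.2 _ _ (c.e_mem _) (c.e_mem y) (le_sup_left (a := x)) (le_sup_right (a := x))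
  let B : BooleanAlgebra T :=
    { D with
      compl := cp
      top := x0 ⊔ cp x0
      bot := x0 ⊓ cp x0
      inf_compl_le_bot := fun x => hb x _
      top_le_sup_compl := fun x => ht x _
      le_top := ht x0
      bot_le := hb x0 }
  exact ⟨T, B, ⟨c, fun _ _ => Iff.rfl⟩⟩

namespace BD

variable {A : Type} [BooleanAlgebra A] {a le : V} (b : BD A a le)

theorem meet_iff {x y : A} {t : V} :
    NK.IsMeet E a le t (b.c.e x) (b.c.e y) ↔ b.c.e (x ⊓ y) = t := by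
  constructor
  · rintro ⟨h1, h2⟩
    obtain ⟨t, rfl⟩ := (b.c.mem _).1 h1
    simp only [b.c.all, b.le] at h2
    rw [eq_of_forall_le_iff fun s => le_inf_iff.trans (h2 s).symm]
  · rintro rfl
    refine ⟨b.c.e_mem _, b.c.all.2 fun s => ?_⟩
    simp only [b.le, le_inf_iff]

theorem join_iff {x y : A} {t : V} :
    NK.IsJoin E a le t (b.c.e x) (b.c.e y) ↔ b.c.e (x ⊔ y) = t := by
  constructor
  · rintro ⟨h1, h2⟩
    obtain ⟨t, rfl⟩ := (b.c.mem _).1 h1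
    simp only [b.c.all, b.le] at h2
    rw [eq_of_forall_ge_iff fun s => sup_le_iff.trans (h2 s).symm]
  · rintro rfl
    refine ⟨b.c.e_mem _, b.c.all.2 fun s => ?_⟩
    simp only [b.le, sup_le_iff]

theorem disj_iff {x y : A} : NK.Disj E a le (b.c.e x) (b.c.e y) ↔ Disjoint x y := by
  constructor
  · intro h
    exact disjoint_iff_inf_le.2 ((b.le _ _).1 (h _ _ (b.c.e_mem _) (b.c.e_mem _)
      ((b.le _ _).2 inf_le_left) ((b.le _ _).2 inf_le_right)))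
  · intro h s t hs ht h1 h2
    obtain ⟨s, rfl⟩ := (b.c.mem _).1 hs
    obtain ⟨t, rfl⟩ := (b.c.mem _).1 ht
    rw [b.le] at h1 h2 ⊢
    exact (h h1 h2).trans bot_le

theorem compl_iff {x : A} {t : V} : NK.IsCompl E a le t (b.c.e x) ↔ b.c.e xᶜ = t := by
  constructor
  · rintro ⟨h1, h2, h3⟩
    obtain ⟨t, rfl⟩ := (b.c.mem _).1 h1
    have h4 := (b.le _ _).1 (h3 _ _ (b.c.e_mem (x ⊔ t)) (b.c.e_mem ⊤) ((b.le _ _).2 le_sup_left)
      ((b.le _ _).2 le_sup_right))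
    rw [(IsCompl.mk (b.disj_iff.1 h2) (codisjoint_iff_le_sup.2 h4)).compl_eq]
  · rintro rfl
    refine ⟨b.c.e_mem _, b.disj_iff.2 disjoint_compl_right, fun s t hs ht h1 h2 => ?_⟩
    obtain ⟨s, rfl⟩ := (b.c.mem _).1 hs
    obtain ⟨t, rfl⟩ := (b.c.mem _).1 ht
    rw [b.le] at h1 h2 ⊢
    exact le_top.trans (codisjoint_iff_le_sup.1 isCompl_compl.codisjoint |>.trans (sup_le h1 h2))

include b in
theorem isBoolean : NK.IsBoolean E a le := by
  refine ⟨⟨_, b.c.e_mem ⊤⟩, ⟨b.c.all.2 fun x => (b.le _ _).2 le_rfl, ?_, ?_⟩, ?_, ?_,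
    b.c.all.2 fun x => ⟨_, b.compl_iff.2 rfl⟩⟩
  · intro x y hx hy h1 h2
    obtain ⟨x, rfl⟩ := (b.c.mem _).1 hx
    obtain ⟨y, rfl⟩ := (b.c.mem _).1 hy
    rw [b.le] at h1 h2
    rw [le_antisymm h1 h2]
  · intro x y z hx hy hz h1 h2
    obtain ⟨x, rfl⟩ := (b.c.mem _).1 hx
    obtain ⟨y, rfl⟩ := (b.c.mem _).1 hy
    obtain ⟨z, rfl⟩ := (b.c.mem _).1 hz
    rw [b.le] at h1 h2 ⊢
    exact h1.trans h2
  · intro x y hx hy
    obtain ⟨x, rfl⟩ := (b.c.mem _).1 hx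
    obtain ⟨y, rfl⟩ := (b.c.mem _).1 hy
    exact ⟨⟨_, b.meet_iff.2 rfl⟩, _, b.join_iff.2 rfl⟩
  · intro x y z p q s t hx hy hz h1 h2 h3 h4
    obtain ⟨x, rfl⟩ := (b.c.mem _).1 hx
    obtain ⟨y, rfl⟩ := (b.c.mem _).1 hy
    obtain ⟨z, rfl⟩ := (b.c.mem _).1 hz
    rw [b.join_iff] at h1
    subst h1
    rw [b.meet_iff] at h2 h3 h4
    subst h2 h3 h4
    rw [b.join_iff, inf_sup_left]

variable {R add mul rle w : V} (r : RD R add mul rle) (hw : IsOmega E w)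

include hw in
theorem varLe_iff {μ : A → ℝ} (h0 : μ ⊥ = 0) {C : ℝ} :
    NK.VarLe E w R add rle (r.c.e 0) a le (b.c.gr fun x => r.c.e (μ x)) (r.c.e C) ↔ VarLE μ C := by
  have ag : ∀ {F : ℕ → V} {n : ℕ} {y : V}, App E ((codN hw).gr F) (num n) y ↔ F n = y :=
    (codN hw).app_gr'
  have hv : ∀ (d : ℕ → A) (n : ℕ) (t : V), (∃ p x, App E ((codN hw).gr fun i => b.c.e (d i))
      (num n) p ∧ App E (b.c.gr fun x => r.c.e (μ x)) p x ∧ NK.IsAbs E R add rle (r.c.e 0) x t) ↔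
      r.c.e |μ (d n)| = t := by
    intro d n t
    constructor
    · rintro ⟨p, x, h1, h2, h3⟩
      rw [ag] at h1
      subst h1
      rw [b.c.app_gr'] at h2
      subst h2
      exact r.abs_iff.1 h3
    · intro h
      exact ⟨_, _, ag.2 rfl, b.c.app_gr'.2 rfl, r.abs_iff.2 h⟩
  rw [← seq_iff h0]
  constructor
  · intro h d hd n
    refine (r.le _ _).1 (h _ _ (((codN hw).fun_iff b.c).2 ⟨d, rfl⟩) ?_
      ((r.sums_iff hw (hv d)).2 rfl) (num n) _ (ag.2 rfl))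
    intro i j p q h1 h2 hij
    obtain ⟨i, rfl, rfl⟩ := (codN hw).app_gr.1 h1
    obtain ⟨j, rfl, rfl⟩ := (codN hw).app_gr.1 h2
    exact b.disj_iff.2 (hd i j fun h => hij (by rw [h]))
  · intro h d s hd h1 h2 n y h3
    obtain ⟨d, rfl⟩ := ((codN hw).fun_iff b.c).1 hd
    rw [r.sums_iff hw (hv d)] at h2
    subst h2
    obtain ⟨n, rfl, rfl⟩ := (codN hw).app_gr.1 h3
    exact (r.le _ _).2 (h d (fun i j hij => b.disj_iff.1
      (h1 _ _ _ _ (ag.2 rfl) (ag.2 rfl) fun h => hij (num_inj h))) n)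

include hw in
theorem charge_iff {m : V} : NK.IsCharge E w R add rle (r.c.e 0) a le m ↔
    ∃ μ : A → ℝ, (IsAdditive μ ∧ ∃ C, VarLE μ C) ∧ (b.c.gr fun x => r.c.e (μ x)) = m := by
  constructor
  · rintro ⟨h1, h2, C, hC, h3⟩
    obtain ⟨μ, rfl⟩ := (b.c.fun_iff r.c).1 h1
    obtain ⟨C, rfl⟩ := (r.c.mem _).1 hC
    have ha : IsAdditive μ := fun x y h => (r.c.inj ((r.add _ _ _).1
      (h2 _ _ _ _ _ _ (b.c.e_mem x) (b.c.e_mem y) (b.disj_iff.2 h) (b.join_iff.2 rfl)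
        (b.c.app_gr'.2 rfl) (b.c.app_gr'.2 rfl) (b.c.app_gr'.2 rfl)))).symm
    exact ⟨μ, ⟨ha, C, (b.varLe_iff r hw (additive_bot ha)).1 h3⟩, rfl⟩
  · rintro ⟨μ, ⟨ha, C, hC⟩, rfl⟩
    refine ⟨(b.c.fun_iff r.c).2 ⟨μ, rfl⟩, ?_, _, r.c.e_mem C,
      (b.varLe_iff r hw (additive_bot ha)).2 hC⟩
    intro x y z p q s hx hy h1 h2 h3 h4 h5
    obtain ⟨x, rfl⟩ := (b.c.mem _).1 hx
    obtain ⟨y, rfl⟩ := (b.c.mem _).1 hy
    rw [b.join_iff] at h2
    subst h2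
    rw [b.c.app_gr'] at h3 h4 h5
    subst h3 h4 h5
    rw [r.add, ha x y (b.disj_iff.1 h1)]

include hw b in
theorem nik_iff : NK.Nikodym E w R add rle (r.c.e 0) a le ↔ Nikodym A := by
  have ag : ∀ {F : ℕ → V} {n : ℕ} {y : V}, App E ((codN hw).gr F) (num n) y ↔ F n = y :=
    (codN hw).app_gr'
  constructor
  · intro h μ h1 h2 h3
    obtain ⟨C, hC, h4⟩ := h ((codN hw).gr fun n => b.c.gr fun x => r.c.e (μ n x))
      ((codN hw).funOn_iff.2 ⟨_, fun n => (b.charge_iff r hw).2 ⟨μ n, ⟨h1 n, h2 n⟩, rfl⟩, rfl⟩)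
      (b.c.all.2 fun x => by
        obtain ⟨C, hC⟩ := h3 x
        refine ⟨_, r.c.e_mem C, fun n m p t h5 h6 h7 => ?_⟩
        obtain ⟨n, rfl, rfl⟩ := (codN hw).app_gr.1 h5
        rw [b.c.app_gr'] at h6
        subst h6
        rw [← r.abs_iff.1 h7, r.le]
        exact hC n)
    obtain ⟨C, rfl⟩ := (r.c.mem _).1 hC
    exact ⟨C, fun n => (b.varLe_iff r hw (additive_bot (h1 n))).1 (h4 _ _ (ag.2 rfl))⟩
  · intro h s hs h1
    obtain ⟨F, hF, rfl⟩ := (codN hw).funOn_iff.1 hs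
    choose μ hμ hF using fun n => (b.charge_iff r hw).1 (hF n)
    obtain ⟨C, hC⟩ := h μ (fun n => (hμ n).1) (fun n => (hμ n).2) fun x => by
      obtain ⟨C, hC, h2⟩ := h1 _ (b.c.e_mem x)
      obtain ⟨C, rfl⟩ := (r.c.mem _).1 hC
      exact ⟨C, fun n => (r.le _ _).1 (h2 _ _ _ _ (ag.2 (hF n).symm) (b.c.app_gr'.2 rfl)
        (r.abs_iff.2 rfl))⟩
    refine ⟨_, r.c.e_mem C, fun n m h2 => ?_⟩
    obtain ⟨n, rfl, rfl⟩ := (codN hw).app_gr.1 h2
    rw [← hF n]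
    exact (b.varLe_iff r hw (additive_bot (hμ n).1)).2 (hC n)

end BD

end Pool.Agent.P.MP_0d6be8_lc.Std
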