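import Pool.Agent.P.MP_0d6be8_lc.Std.B

set_option autoImplicit false

/-! Compact sets, Borel sets and Radon measures in a full universe. -/

open Pool.Agent.Lib.PosetForcing MeasureTheory symmDiff

namespace Pool.Agent.P.MP_0d6be8_lc.Std

/-- the Borel sets -/
abbrev MS (T : Type) [MeasurableSpace T] : Set (Set T) := {B | MeasurableSet B}

theorem mono_sums {τ : ℕ → ℝ} (h : ∀ n, 0 ≤ τ n) :
    Monotone fun n => ∑ i ∈ Finset.range n, τ i :=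
  monotone_nat_of_le_succ fun n => by
    rw [Finset.sum_range_succ]
    linarith [h n]

theorem plain_radon {T : Type} [TopologicalSpace T] [T2Space T] [MeasurableSpace T] [BorelSpace T]
    (ν : MS T → ℝ) :
    ((∀ B, 0 ≤ ν B) ∧ ν ⟨∅, MeasurableSet.empty⟩ = 0 ∧
      (∀ f : ℕ → MS T, (∀ i j u, u ∈ (f i).1 → u ∈ (f j).1 → i = j) →
        IsLUB (Set.range fun n => ∑ i ∈ Finset.range n, ν (f i))
          (ν ⟨⋃ i, (f i).1, MeasurableSet.iUnion fun i => (f i).2⟩)) ∧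
      ∀ B, IsLUB (ν '' {K | IsCompact K.1 ∧ K.1 ⊆ B.1}) (ν B)) ↔
    ∃ μ : Measure T, (IsFiniteMeasure μ ∧ μ.InnerRegular) ∧ (fun B : MS T => μ.real B.1) = ν := by
  constructor
  · rintro ⟨h1, h2, h3, h4⟩
    have hU : ∀ ⦃f : ℕ → Set T⦄ (h : ∀ i, MeasurableSet (f i)),
        Pairwise (Function.onFun Disjoint f) → ENNReal.ofReal (ν ⟨⋃ i, f i, MeasurableSet.iUnion h⟩) =
          ∑' i, ENNReal.ofReal (ν ⟨f i, h i⟩) := by
      intro f h hd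
      have h5 := h3 (fun i => ⟨f i, h i⟩) fun i j u hi hj => by
        by_contra hij
        exact Set.disjoint_left.1 (hd hij) hi hj
      have h6 := (hasSum_iff_tendsto_nat_of_nonneg (fun i => h1 _) _).2
        (tendsto_atTop_isLUB (mono_sums fun i => h1 _) h5)
      rw [← h6.tsum_eq, ENNReal.ofReal_tsum_of_nonneg (fun i => h1 _) h6.summable]
    let μ : Measure T := Measure.ofMeasurable (fun B hB => ENNReal.ofReal (ν ⟨B, hB⟩))
      (by rw [h2, ENNReal.ofReal_zero]) hU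
    have hμ : ∀ B : MS T, μ B.1 = ENNReal.ofReal (ν B) := fun B =>
      Measure.ofMeasurable_apply B.1 B.2
    refine ⟨μ, ⟨⟨?_⟩, ⟨fun U hU r hr => ?_⟩⟩, funext fun B => ?_⟩
    · rw [hμ ⟨_, MeasurableSet.univ⟩]
      exact ENNReal.ofReal_lt_top
    · have hr' : r ≠ ⊤ := hr.ne_top
      rw [hμ ⟨U, hU⟩, ENNReal.lt_ofReal_iff_toReal_lt hr'] at hr
      obtain ⟨_, ⟨K, hK, rfl⟩, h5⟩ := (lt_isLUB_iff (h4 _)).1 hr
      exact ⟨K.1, hK.2, hK.1, by rwa [hμ, ENNReal.lt_ofReal_iff_toReal_lt hr']⟩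
    · rw [measureReal_def, hμ, ENNReal.toReal_ofReal (h1 B)]
  · rintro ⟨μ, ⟨hf, hr⟩, rfl⟩
    refine ⟨fun B => measureReal_nonneg, measureReal_empty, fun f hf => ?_, fun B => ⟨?_, ?_⟩⟩
    · refine isLUB_of_tendsto_atTop (mono_sums fun i => measureReal_nonneg)
        (HasSum.tendsto_sum_nat ?_)
      have h1 : μ (⋃ i, (f i).1) = ∑' i, μ (f i).1 := measure_iUnion
        (fun i j hij => Set.disjoint_left.2 fun u hi hj => hij (hf i j u hi hj)) fun i => (f i).2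
      have h2 := ENNReal.hasSum_toReal (f := fun i => μ (f i).1) (h1 ▸ measure_ne_top _ _)
      rw [← ENNReal.tsum_toReal_eq fun i => measure_ne_top _ _, ← h1] at h2
      exact h2
    · rintro _ ⟨K, hK, rfl⟩
      exact measureReal_mono hK.2
    · intro c hc
      have h0 : 0 ≤ c := le_trans measureReal_nonneg
        (hc ⟨⟨∅, MeasurableSet.empty⟩, ⟨isCompact_empty, Set.empty_subset _⟩, rfl⟩)
      by_contra h
      have h1 : ENNReal.ofReal c < μ B.1 :=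
        (ENNReal.ofReal_lt_iff_lt_toReal h0 (measure_ne_top _ _)).2 (not_le.1 h)
      obtain ⟨K, h2, h3, h4⟩ := hr.innerRegular B.2 _ h1
      have h5 := hc ⟨⟨K, h3.isClosed.measurableSet⟩, ⟨h3, h2⟩, rfl⟩
      exact absurd ((ENNReal.ofReal_lt_iff_lt_toReal h0 (measure_ne_top _ _)).1 h4) (not_lt.2 h5)

variable [Uni] {T : Type} {X w : V} (s : Cod T X) (hw : IsOmega E w)

theorem union_iff {f : ℕ → Set T} {C : V} :
    (∀ u, E u C ↔ ∃ n B, App E ((codN hw).gr fun n => s.sub (f n)) n B ∧ E u B) ↔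
      C = s.sub (⋃ n, f n) := by
  refine s.eq_sub ?_ fun t => ?_
  · rintro u ⟨n, B, h1, h2⟩
    obtain ⟨n, rfl, rfl⟩ := (codN hw).app_gr.1 h1
    exact s.isSub_iff.2 ⟨_, rfl⟩ _ h2
  · rw [Set.mem_iUnion]
    constructor
    · rintro ⟨n, B, h1, h2⟩
      obtain ⟨n, rfl, rfl⟩ := (codN hw).app_gr.1 h1
      exact ⟨n, s.mem_sub'.1 h2⟩
    · rintro ⟨n, h⟩
      exact ⟨_, _, (codN hw).app_gr'.2 rfl, s.mem_sub'.2 h⟩

theorem cpl_iff {B : Set T} {C : V} :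
    (∀ u, E u C ↔ E u X ∧ ¬ E u (s.sub B)) ↔ C = s.sub Bᶜ :=
  s.eq_sub (fun _ h => h.1) fun t => by
    rw [s.mem_sub', and_iff_right (s.e_mem t)]
    rfl

theorem sd_iff {B F : Set T} {C : V} :
    (∀ u, E u C ↔ (E u (s.sub B) ∧ ¬ E u (s.sub F)) ∨ (E u (s.sub F) ∧ ¬ E u (s.sub B))) ↔
      C = s.sub (B ∆ F) :=
  s.eq_sub (fun _ h => h.elim (fun h => s.isSub_iff.2 ⟨_, rfl⟩ _ h.1)
    fun h => s.isSub_iff.2 ⟨_, rfl⟩ _ h.1) fun t => by
    simp only [s.mem_sub', Set.mem_symmDiff]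

theorem fam_iff {C : V} : (∀ B, E B C → IsSub E B X) ↔ ∃ 𝒞, s.pw.sub 𝒞 = C := by
  rw [← s.pw.isSub_iff]
  exact forall₂_congr fun B _ => mem_pow.symm

theorem mem_fam {𝒞 : Set (Set T)} {B : Set T} : E (s.sub B) (s.pw.sub 𝒞) ↔ B ∈ 𝒞 :=
  s.pw.mem_sub'

variable [TopologicalSpace T] (ho : ∀ B, NK.IsOpenIn E X (s.sub B) ↔ IsOpen B)

include hw ho in
theorem compact_iff {K : Set T} : NK.IsCompactIn E w X (s.sub K) ↔ IsCompact K := by
  have cov : ∀ 𝒞 : Set (Set T), (∀ u, E u (s.sub K) → ∃ O, E O (s.pw.sub 𝒞) ∧ E u O) ↔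
      K ⊆ ⋃ O ∈ 𝒞, O := by
    intro 𝒞
    rw [s.all_sub]
    refine forall₂_congr fun t _ => ?_
    rw [s.pw.ex_sub, Set.mem_iUnion₂]
    simp only [s.pw_e, s.mem_sub', exists_prop]
  constructor
  · rintro ⟨-, h⟩
    refine isCompact_of_finite_subcover fun {ι} U hU hK => ?_
    obtain ⟨F, n, h1, h2, h3, h4⟩ := h (s.pw.sub (Set.range U))
      (s.pw.all_sub.2 (by
        rintro _ ⟨i, rfl⟩
        exact (ho _).2 (hU i))) ((cov _).2 (by rwa [Set.biUnion_range]))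
    obtain ⟨F, rfl⟩ := (fam_iff s).1 fun B hB =>
      (fam_iff s).2 ⟨_, rfl⟩ B (h1 B hB)
    have hF : F.Finite := (fin_iff hw (s.pw.res F)).1 ⟨n, h2, h3⟩
    choose g hg using fun O : F => s.pw.sub_sub.1 h1 O.2
    have : Finite F := hF
    refine ⟨(Set.finite_range g).toFinset, fun t ht => ?_⟩
    obtain ⟨O, hO, h5⟩ := Set.mem_iUnion₂.1 ((cov _).1 h4 ht)
    refine Set.mem_iUnion₂.2 ⟨g ⟨O, hO⟩, by simp, ?_⟩
    rwa [hg]
  · intro h
    refine ⟨s.isSub_iff.2 ⟨_, rfl⟩, fun C h1 h2 => ?_⟩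
    obtain ⟨𝒞, rfl⟩ := (fam_iff s).1 fun B hB => (h1 B hB).1
    obtain ⟨F, h3, h4, h5⟩ := h.elim_finite_subcover_image (c := fun O => O)
      (fun O hO => (ho _).1 (h1 _ ((mem_fam s).2 hO))) ((cov _).1 h2)
    obtain ⟨n, h6, h7⟩ := (fin_iff hw (s.pw.res F)).2 h4
    exact ⟨_, n, s.pw.sub_sub.2 h3, h6, h7, (cov _).2 h5⟩

include hw ho in
theorem sigma_iff {𝒮 : Set (Set T)} : NK.IsSigmaOpen E w X (s.pw.sub 𝒮) ↔
    (∀ B, IsOpen B → B ∈ 𝒮) ∧ (∀ B ∈ 𝒮, Bᶜ ∈ 𝒮) ∧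
      ∀ f : ℕ → Set T, (∀ n, f n ∈ 𝒮) → ⋃ n, f n ∈ 𝒮 := by
  constructor
  · rintro ⟨-, h1, h2, h3⟩
    refine ⟨fun B hB => (mem_fam s).1 (h1 _ ((ho B).2 hB)), fun B hB => (mem_fam s).1
      (h2 _ _ ((mem_fam s).2 hB) ((cpl_iff s).2 rfl)), fun f hf => (mem_fam s).1
      (h3 _ _ (((codN hw).fun_iff (s.pw.res 𝒮)).2 ⟨fun n => ⟨f n, hf n⟩, rfl⟩)
        ((union_iff s hw).2 rfl))⟩
  · rintro ⟨h1, h2, h3⟩
    refine ⟨(fam_iff s).2 ⟨_, rfl⟩, fun O hO => ?_, fun B C hB hC => ?_, fun f C hf hC => ?_⟩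
    · obtain ⟨O, rfl⟩ := s.isSub_iff.1 hO.1
      exact (mem_fam s).2 (h1 _ ((ho _).1 hO))
    · obtain ⟨B, hB', rfl⟩ := s.pw.mem_sub.1 hB
      rw [(cpl_iff s).1 hC]
      exact (mem_fam s).2 (h2 _ hB')
    · obtain ⟨f, rfl⟩ := ((codN hw).fun_iff (s.pw.res 𝒮)).1 hf
      rw [(union_iff s hw (f := fun n => (f n).1)).1 hC]
      exact (mem_fam s).2 (h3 _ fun n => (f n).2)

variable [MeasurableSpace T] [BorelSpace T]

include hw ho in
theorem borel_std : NK.IsBorel E w X (s.pw.sub (MS T)) := by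
  refine ⟨(sigma_iff s hw ho).2 ⟨fun B hB => hB.measurableSet, fun B hB => MeasurableSet.compl hB,
    fun f hf => MeasurableSet.iUnion hf⟩, fun S hS => ?_⟩
  obtain ⟨𝒮, rfl⟩ := (fam_iff s).1 hS.1
  obtain ⟨h1, h2, h3⟩ := (sigma_iff s hw ho).1 hS
  refine s.pw.sub_sub.2 fun B hB => ?_
  have hB' : MeasurableSet[borel T] B := by
    rw [← BorelSpace.measurable_eq (α := T)]
    exact hB
  exact MeasurableSpace.generateFrom_induction _ (fun B _ => B ∈ 𝒮) (fun B hB _ => h1 B hB)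
    (h1 _ isOpen_empty) (fun B _ h => h2 B h) (fun f _ h => h3 f h) B hB'

include hw ho in
theorem borel_eq {S : V} (h : NK.IsBorel E w X S) : S = s.pw.sub (MS T) :=
  vext fun x => ⟨h.2 _ (borel_std s hw ho).1 x, (borel_std s hw ho).2 _ h.1 x⟩

variable {R add mul rle : V} (r : RD R add mul rle)

/-- the code of a real function on the Borel sets -/
noncomputable def mz (ν : MS T → ℝ) : V := (s.pw.res (MS T)).gr fun B => r.c.e (ν B)

omit [TopologicalSpace T] [BorelSpace T] in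
theorem app_mz {ν : MS T → ℝ} {B : MS T} {y : V} :
    App E (mz s r ν) (s.sub B.1) y ↔ r.c.e (ν B) = y := (s.pw.res (MS T)).app_gr'

omit [TopologicalSpace T] [BorelSpace T] in
theorem app_mz' {ν : MS T → ℝ} {x y : V} :
    App E (mz s r ν) x y ↔ ∃ B : MS T, s.sub B.1 = x ∧ r.c.e (ν B) = y :=
  (s.pw.res (MS T)).app_gr

include hw ho in
theorem radon_iff [T2Space T] {m : V} :
    NK.IsRadon E w R add rle (r.c.e 0) X (s.pw.sub (MS T)) m ↔ ∃ μ : Measure T,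
      (IsFiniteMeasure μ ∧ μ.InnerRegular) ∧ mz s r (fun B => μ.real B.1) = m := by
  have ag : ∀ {F : ℕ → V} {n : ℕ} {y : V}, App E ((codN hw).gr F) (num n) y ↔ F n = y :=
    (codN hw).app_gr'
  have hv : ∀ (ν : MS T → ℝ) (f : ℕ → MS T) (n : ℕ) (t : V),
      (∃ B, App E ((codN hw).gr fun i => s.sub (f i).1) (num n) B ∧ App E (mz s r ν) B t) ↔
        r.c.e (ν (f n)) = t := by
    intro ν f n t
    constructor
    · rintro ⟨B, h1, h2⟩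
      rw [ag] at h1
      subst h1
      exact (app_mz s r).1 h2
    · intro h
      exact ⟨_, ag.2 rfl, (app_mz s r).2 h⟩
  have hs : ∀ (σ : ℕ → ℝ) (y : V), (∃ n, App E ((codN hw).gr fun n => r.c.e (σ n)) n y) ↔
      ∃ t ∈ Set.range σ, r.c.e t = y := by
    intro σ y
    constructor
    · rintro ⟨n, h⟩
      obtain ⟨n, rfl, rfl⟩ := (codN hw).app_gr.1 h
      exact ⟨_, ⟨n, rfl⟩, rfl⟩
    · rintro ⟨_, ⟨n, rfl⟩, rfl⟩
      exact ⟨_, ag.2 rfl⟩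
  have hk : ∀ (ν : MS T → ℝ) (B : MS T) (y : V), (∃ K, NK.IsCompactIn E w X K ∧
      IsSub E K (s.sub B.1) ∧ App E (mz s r ν) K y) ↔
      ∃ t ∈ ν '' {K | IsCompact K.1 ∧ K.1 ⊆ B.1}, r.c.e t = y := by
    intro ν B y
    constructor
    · rintro ⟨K, h1, h2, h3⟩
      obtain ⟨K, rfl, rfl⟩ := (app_mz' s r).1 h3
      exact ⟨_, ⟨K, ⟨(compact_iff s hw ho).1 h1, s.sub_sub.1 h2⟩, rfl⟩, rfl⟩
    · rintro ⟨_, ⟨K, hK, rfl⟩, rfl⟩
      exact ⟨_, (compact_iff s hw ho).2 hK.1, s.sub_sub.2 hK.2, (app_mz s r).2 rfl⟩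
  have h0 : ∀ u, ¬ E u (s.sub ∅) := fun u hu => (s.mem_sub.1 hu).elim fun _ h => h.1
  constructor
  · rintro ⟨h1, h2, h3, h4, h5⟩
    obtain ⟨ν, hν⟩ := ((s.pw.res (MS T)).fun_iff r.c).1 h1
    obtain rfl : m = mz s r ν := hν
    refine ((plain_radon ν).1 ⟨fun B => (r.le _ _).1 (h2 _ _ ((app_mz s r).2 rfl)),
      r.c.inj ((app_mz s r).1 (h3 _ ((mem_fam s).2 MeasurableSet.empty) h0)), fun f hf => ?_,
      fun B => (r.sup_iff (hk ν B)).1 (h5 _ _ ((app_mz s r).2 rfl))⟩).imp fun μ hμ =>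
        ⟨hμ.1, by rw [hμ.2]⟩
    · refine (r.sup_iff (hs _)).1 (h4 _ _ _ _
        (((codN hw).fun_iff (s.pw.res (MS T))).2 ⟨f, rfl⟩) ?_ ((r.sums_iff hw (hv ν f)).2 rfl)
        ((union_iff s hw).2 rfl)
        ((app_mz s r (B := ⟨_, MeasurableSet.iUnion fun i => (f i).2⟩)).2 rfl))
      intro i j B B' u g1 g2 g3 g4
      obtain ⟨i, rfl, rfl⟩ := (codN hw).app_gr.1 g1
      obtain ⟨j, rfl, rfl⟩ := (codN hw).app_gr.1 g2
      obtain ⟨u, g5, rfl⟩ := s.mem_sub.1 g3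
      rw [hf i j u g5 (s.mem_sub'.1 g4)]
  · rintro ⟨μ, hμ, rfl⟩
    obtain ⟨h1, h2, h3, h4⟩ := (plain_radon _).2 ⟨μ, hμ, rfl⟩
    refine ⟨((s.pw.res (MS T)).fun_iff r.c).2 ⟨_, rfl⟩, fun B x h => ?_, fun B hB h => ?_,
      fun f σ C x g1 g2 g3 g4 g5 => ?_, fun B x h => ?_⟩
    · obtain ⟨B, rfl, rfl⟩ := (app_mz' s r).1 h
      exact (r.le _ _).2 (h1 B)
    · rw [eq_emp h, ← eq_emp h0]
      exact (app_mz s r (B := ⟨∅, MeasurableSet.empty⟩)).2 (by rw [h2])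
    · obtain ⟨f, rfl⟩ := ((codN hw).fun_iff (s.pw.res (MS T))).1 g1
      obtain rfl := (r.sums_iff hw (hv _ f)).1 g3
      obtain rfl := (union_iff s hw (f := fun n => (f n).1)).1 g4
      obtain rfl := (app_mz s r (B := ⟨_, MeasurableSet.iUnion fun i => (f i).2⟩)).1 g5
      refine (r.sup_iff (hs _)).2 (h3 f fun i j u hi hj => num_inj ?_)
      exact g2 _ _ _ _ _ (ag.2 rfl) (ag.2 rfl) (s.mem_sub'.2 hi) (s.mem_sub'.2 hj)
    · obtain ⟨B, rfl, rfl⟩ := (app_mz' s r).1 h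
      exact (r.sup_iff (hk _ B)).2 (h4 B)

omit [TopologicalSpace T] [BorelSpace T] in
include hw in
theorem ctype_iff (μ : Measure T) [IsFiniteMeasure μ] :
    NK.CountableType E w R rle (r.c.e 0) (s.pw.sub (MS T)) (mz s r fun B => μ.real B.1) ↔
      IsSeparable μ := by
  have hl : ∀ (B : Set T) (e : ℝ), μ B < ENNReal.ofReal e ↔ μ.real B < e := fun B e =>
    ENNReal.lt_ofReal_iff_toReal_lt (measure_ne_top _ _)
  constructor
  · rintro ⟨D, h1, h2, h3⟩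
    obtain ⟨𝒟, rfl⟩ := (fam_iff s).1 fun B hB => (fam_iff s).2 ⟨_, rfl⟩ B (h1 B hB)
    refine ⟨𝒟, (ctb_iff hw (s.pw.res 𝒟)).1 h2, s.pw.sub_sub.1 h1, fun B hB _ e he => ?_⟩
    obtain ⟨F, G, x, g1, g2, g3, g4⟩ := h3 _ _ ((mem_fam s).2 hB) (r.c.e_mem e)
      (by rw [r.le]; exact not_le.2 he)
    obtain ⟨F, hF, rfl⟩ := s.pw.mem_sub.1 g1
    obtain rfl := (sd_iff s).1 g2
    obtain ⟨G, g5, rfl⟩ := (app_mz' s r).1 g3
    rw [r.le, s.sub_inj g5] at g4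
    exact ⟨F, hF, (hl _ _).2 (not_le.1 g4)⟩
  · rintro ⟨𝒟, h1, h2⟩
    refine ⟨_, s.pw.sub_sub.2 h2.measurable, (ctb_iff hw (s.pw.res 𝒟)).2 h1,
      fun B e hB he h0 => ?_⟩
    obtain ⟨B, hB', rfl⟩ := s.pw.mem_sub.1 hB
    obtain ⟨e, rfl⟩ := (r.c.mem _).1 he
    rw [r.le] at h0
    obtain ⟨F, hF, h3⟩ := h2.approx B hB' (measure_ne_top _ _) e (not_le.1 h0)
    refine ⟨_, _, _, (mem_fam s).2 hF, (sd_iff s).2 rfl,
      (app_mz s r (B := ⟨_, MeasurableSet.symmDiff hB' (h2.measurable F hF)⟩)).2 rfl, ?_⟩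
    rw [r.le]
    exact not_le.2 ((hl _ _).1 h3)

end Pool.Agent.P.MP_0d6be8_lc.Std
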