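import Pool.Agent.P.MP_0d6be8_lc.Std.C
import Pool.Agent.P.MP_0d6be8_lc.Std.D
import Pool.Agent.K.MP_0d6be8_lc.C0

set_option autoImplicit false

/-! Stone spaces, the goal and MA in a full universe. -/

open Pool.Agent.Lib.PosetForcing MeasureTheory

namespace Pool.Agent.P.MP_0d6be8_lc.Std

theorem stone_up {A : Type} [BooleanAlgebra A] (U : Stone A) {x y : A} (hx : x ∈ U.carrier)
    (h : x ≤ y) : y ∈ U.carrier :=
  ((U.inf_mem x y).1 (by rwa [inf_eq_left.2 h])).2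

theorem stone_ext {A : Type} [BooleanAlgebra A] {U W : Stone A} (h : U.carrier = W.carrier) :
    U = W := by
  cases U
  cases W
  congr

variable [Uni]

namespace BD

variable {A : Type} [BooleanAlgebra A] {a le : V} (b : BD A a le)

theorem ultra_iff {u : V} : NK.IsUltra E a le u ↔ ∃ U : Stone A, b.c.sub U.carrier = u := by
  constructor
  · rintro ⟨h1, h2, h3, h4⟩
    obtain ⟨S, rfl⟩ := b.c.isSub_iff.1 h1
    have g2 : ∀ x y, x ∈ S → x ≤ y → y ∈ S := fun x y hx h =>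
      b.c.mem_sub'.1 (h2 _ _ (b.c.mem_sub'.2 hx) (b.c.e_mem y) ((b.le _ _).2 h))
    have g4 : ∀ x, x ∈ S ↔ xᶜ ∉ S := fun x => by
      have := h4 _ _ (b.c.e_mem x) (b.compl_iff.2 rfl)
      rwa [b.c.mem_sub', b.c.mem_sub'] at this
    have g0 : ⊥ ∉ S := fun h => (g4 ⊥).1 h (g2 _ _ h bot_le)
    refine ⟨⟨S, (g4 ⊤).2 (by rwa [compl_top]), g0, fun x y => ⟨fun h => ⟨g2 _ _ h inf_le_left,
      g2 _ _ h inf_le_right⟩, fun h => ?_⟩, fun x => ?_⟩, rfl⟩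
    · exact b.c.mem_sub'.1 (h3 _ _ _ (b.c.mem_sub'.2 h.1) (b.c.mem_sub'.2 h.2) (b.meet_iff.2 rfl))
    · by_contra h
      exact h (Or.inl ((g4 x).2 fun h' => h (Or.inr h')))
  · rintro ⟨U, rfl⟩
    refine ⟨b.c.isSub_iff.2 ⟨_, rfl⟩, fun x y hx hy h => ?_, fun x y z hx hy h => ?_,
      fun x z hx h => ?_⟩
    · obtain ⟨x, hx', rfl⟩ := b.c.mem_sub.1 hx
      obtain ⟨y, rfl⟩ := (b.c.mem _).1 hy
      exact b.c.mem_sub'.2 (stone_up U hx' ((b.le _ _).1 h))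
    · obtain ⟨x, hx', rfl⟩ := b.c.mem_sub.1 hx
      obtain ⟨y, hy', rfl⟩ := b.c.mem_sub.1 hy
      rw [← b.meet_iff.1 h]
      exact b.c.mem_sub'.2 ((U.inf_mem _ _).2 ⟨hx', hy'⟩)
    · obtain ⟨x, rfl⟩ := (b.c.mem _).1 hx
      rw [← b.compl_iff.1 h, b.c.mem_sub', b.c.mem_sub']
      refine ⟨fun h1 h2 => U.bot_notMem ?_, fun h1 => (U.mem_or_compl_mem x).resolve_right h1⟩
      rw [← inf_compl_eq_bot (a := x)]
      exact (U.inf_mem _ _).2 ⟨h1, h2⟩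

include b in
theorem exists_stone : ∃ X, NK.IsStone E a le X :=
  ⟨rng fun U : Stone A => b.c.sub U.carrier, fun _ => mem_rng.trans b.ultra_iff.symm⟩

/-- the coding of the Stone space -/
noncomputable def st {X : V} (h : NK.IsStone E a le X) : Cod (Stone A) X where
  e U := b.c.sub U.carrier
  inj _ _ h := stone_ext (b.c.sub_inj h)
  mem x := (h x).trans b.ultra_iff

theorem open_iff {X : V} (h : NK.IsStone E a le X) (B : Set (Stone A)) :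
    NK.IsOpenIn E X ((b.st h).sub B) ↔ IsOpen B := by
  rw [basis_basic.isOpen_iff, NK.IsOpenIn, and_iff_right ((b.st h).isSub_iff.2 ⟨_, rfl⟩),
    (b.st h).all_sub]
  refine forall₂_congr fun U _ => b.c.ex_sub.trans ⟨?_, ?_⟩
  · rintro ⟨x, hx, h1⟩
    exact ⟨_, ⟨x, rfl⟩, hx, fun W hW => (b.st h).mem_sub'.1
      (h1 _ ((b.st h).e_mem W) (b.c.mem_sub'.2 hW))⟩
  · rintro ⟨_, ⟨x, rfl⟩, hx, h1⟩
    exact ⟨x, hx, (b.st h).all.2 fun W hW => (b.st h).mem_sub'.2 (h1 (b.c.mem_sub'.1 hW))⟩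

variable {R add mul rle w X S : V} (r : RD R add mul rle) (hw : IsOmega E w)

include b hw in
theorem exists_borel (h : NK.IsStone E a le X) : ∃ S, NK.IsBorel E w X S := by
  have : BorelSpace (Stone A) := ⟨rfl⟩
  exact ⟨_, borel_std (b.st h) hw (b.open_iff h)⟩

include b hw in
theorem meas_iff (h : NK.IsStone E a le X) (hS : NK.IsBorel E w X S) :
    (∃ m, NK.IsRadon E w R add rle (r.c.e 0) X S m ∧ ¬ NK.CountableType E w R rle (r.c.e 0) S m) ↔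
      ∃ μ : Measure (Stone A), IsFiniteMeasure μ ∧ μ.InnerRegular ∧ ¬ IsSeparable μ := by
  have : BorelSpace (Stone A) := ⟨rfl⟩
  have : T2Space (Stone A) := stone_t2
  obtain rfl := borel_eq (b.st h) hw (b.open_iff h) hS
  constructor
  · rintro ⟨m, h1, h2⟩
    obtain ⟨μ, ⟨h3, h4⟩, rfl⟩ := (radon_iff (b.st h) hw (b.open_iff h) r).1 h1
    exact ⟨μ, h3, h4, fun h5 => h2 ((ctype_iff (b.st h) hw r μ).2 h5)⟩
  · rintro ⟨μ, h1, h2, h3⟩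
    exact ⟨_, (radon_iff (b.st h) hw (b.open_iff h) r).2 ⟨μ, ⟨h1, h2⟩, rfl⟩,
      fun h4 => h3 ((ctype_iff (b.st h) hw r μ).1 h4)⟩

end BD

theorem goal_iff {w : V} (hw : IsOmega E w) : NK.Goal E w ↔
    ∀ (A : Type) [BooleanAlgebra A], Infinite A → Nikodym A →
      ∃ μ : Measure (Stone A), IsFiniteMeasure μ ∧ μ.InnerRegular ∧ ¬ IsSeparable μ := by
  constructor
  · intro h A _ hA hN
    obtain ⟨R, add, mul, rle, o, hR⟩ := exists_reals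
    obtain ⟨r, rfl⟩ := rd_of_reals hR
    obtain ⟨a, le, ⟨b⟩⟩ := exists_bd A
    obtain ⟨X, hX⟩ := b.exists_stone
    obtain ⟨S, hS⟩ := b.exists_borel hw hX
    exact (b.meas_iff r hw hX hS).1 (h _ _ _ _ _ hR _ _ b.isBoolean ((inf_iff hw b.c).2 hA)
      ((b.nik_iff r hw).2 hN) _ _ hX hS)
  · intro h R add mul rle o hR a le hB hI hN X S hX hS
    obtain ⟨r, rfl⟩ := rd_of_reals hR
    obtain ⟨A, _, ⟨b⟩⟩ := bd_of_boolean hB
    exact (b.meas_iff r hw hX hS).2 (h A ((inf_iff hw b.c).1 hI) ((b.nik_iff r hw).1 hN))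

theorem pow_eq {C a : V} (h : IsPow E C a) : C = pow a := vext fun x => (h x).trans mem_pow.symm

/-- MA for preorders on types -/
def PlainMA : Prop :=
  ∀ (P : Type) (l : P → P → Prop), (∃ _ : P, True) → (∀ x, l x x) →
    (∀ x y z, l x y → l y z → l x z) →
    (∀ A : P → Prop, (∀ x y, A x → A y → x ≠ y → ¬ ∃ z, l z x ∧ l z y) →
      ∃ f : P → ℕ, ∀ x y, A x → A y → f x = f y → x = y) →
    ∀ F : (P → Prop) → Prop, (∀ D, F D → ∀ x, ∃ y, D y ∧ l y x) →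
      (¬ ∃ g : (ℕ → Prop) → P → Prop, (∀ s, F (g s)) ∧ ∀ s t, g s = g t → s = t) →
      ∃ G : P → Prop, (∃ x, G x) ∧ (∀ x y, G x → l x y → G y) ∧
        (∀ x y, G x → G y → ∃ z, G z ∧ l z x ∧ l z y) ∧ ∀ D, F D → ∃ x, G x ∧ D x

open Pool.Agent.P.MP_93aff1_lc in
theorem ma_iff {w C : V} (hw : IsOmega E w) (hC : IsPow E C w) :
    MP_93aff1_lc.MA E w C ↔ PlainMA := by
  obtain rfl := pow_eq hC
  have main : ∀ {P : Type} {Q le : V} (c : Cod P Q) (l : P → P → Prop)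
      (_ : ∀ x y, App E le (c.e x) (c.e y) ↔ l x y),
      (IsPoset E Q le ↔ (∃ _ : P, True) ∧ (∀ x, l x x) ∧ ∀ x y z, l x y → l y z → l x z) ∧
      (IsCCC E Q le w ↔ ∀ A : Set P, (∀ x y, x ∈ A → y ∈ A → x ≠ y → ¬ ∃ z, l z x ∧ l z y) →
        ∃ f : P → ℕ, ∀ x y, x ∈ A → y ∈ A → f x = f y → x = y) ∧
      (∀ D : Set P, IsDense E (c.sub D) Q le ↔ ∀ x, ∃ y, y ∈ D ∧ l y x) ∧
      (∀ G : Set P, IsFilter E (c.sub G) Q le ↔ (∃ x, x ∈ G) ∧ (∀ x y, x ∈ G → l x y → y ∈ G) ∧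
        ∀ x y, x ∈ G → y ∈ G → ∃ z, z ∈ G ∧ l z x ∧ l z y) ∧
      ∀ F : Set (Set P), LeCard E (pow w) (c.pw.sub F) ↔
        ∃ g : Set ℕ → Set P, (∀ s, g s ∈ F) ∧ ∀ s t, g s = g t → s = t := by
    intro P Q le c l hl
    have hc : ∀ x y, Compat E Q le (c.e x) (c.e y) ↔ ∃ z, l z x ∧ l z y := fun x y => by
      rw [Compat, c.ex]
      simp only [hl]
    refine ⟨and_congr ⟨?_, ?_⟩ (and_congr ?_ ⟨?_, ?_⟩), ⟨fun h A hA => ?_, fun h A hA h1 => ?_⟩,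
      fun D => ?_, fun G => ⟨?_, ?_⟩, fun F => ?_⟩
    · rintro ⟨x, hx⟩
      obtain ⟨x, -⟩ := (c.mem _).1 hx
      exact ⟨x, trivial⟩
    · rintro ⟨x, -⟩
      exact ⟨_, c.e_mem x⟩
    · simp only [c.all, hl]
    · intro h x y z h1 h2
      exact (hl _ _).1 (h _ _ _ (c.e_mem x) (c.e_mem y) (c.e_mem z) ((hl _ _).2 h1) ((hl _ _).2 h2))
    · intro h x y z hx hy hz h1 h2
      obtain ⟨x, rfl⟩ := (c.mem _).1 hx
      obtain ⟨y, rfl⟩ := (c.mem _).1 hy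
      obtain ⟨z, rfl⟩ := (c.mem _).1 hz
      exact (hl _ _).2 (h _ _ _ ((hl _ _).1 h1) ((hl _ _).1 h2))
    · have h1 : A.Countable := (ctb_iff hw (c.res A)).1 (h _ (c.isSub_iff.2 ⟨A, rfl⟩) (by
        intro x y hx hy hxy
        obtain ⟨x, hx', rfl⟩ := c.mem_sub.1 hx
        obtain ⟨y, hy', rfl⟩ := c.mem_sub.1 hy
        rw [hc]
        exact hA x y hx' hy' fun h => hxy (by rw [h])))
      obtain ⟨f, hf⟩ := Set.countable_iff_exists_injOn.1 h1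
      exact ⟨f, fun x y hx hy => hf hx hy⟩
    · obtain ⟨A, rfl⟩ := c.isSub_iff.1 hA
      obtain ⟨f, hf⟩ := h A fun x y hx hy hxy => by
        rw [← hc]
        exact h1 _ _ (c.mem_sub'.2 hx) (c.mem_sub'.2 hy) fun h => hxy (c.inj h)
      exact (ctb_iff hw (c.res A)).2
        (Set.countable_iff_exists_injOn.2 ⟨f, fun x hx y hy => hf x y hx hy⟩)
    · rw [IsDense, and_iff_right (c.isSub_iff.2 ⟨_, rfl⟩), c.all]
      simp only [c.ex_sub, hl]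
    · rintro ⟨-, ⟨x, hx⟩, h1, h2⟩
      obtain ⟨x, hx', rfl⟩ := c.mem_sub.1 hx
      refine ⟨⟨x, hx'⟩, fun x y hx h => c.mem_sub'.1
        (h1 _ _ (c.mem_sub'.2 hx) (c.e_mem y) ((hl _ _).2 h)), fun x y hx hy => ?_⟩
      simpa only [c.ex_sub, hl] using h2 _ _ (c.mem_sub'.2 hx) (c.mem_sub'.2 hy)
    · rintro ⟨⟨x, hx⟩, h1, h2⟩
      refine ⟨c.isSub_iff.2 ⟨_, rfl⟩, ⟨_, c.mem_sub'.2 hx⟩, fun x y hx hy h => ?_,
        fun x y hx hy => ?_⟩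
      · obtain ⟨x, hx', rfl⟩ := c.mem_sub.1 hx
        obtain ⟨y, rfl⟩ := (c.mem _).1 hy
        exact c.mem_sub'.2 (h1 _ _ hx' ((hl _ _).1 h))
      · obtain ⟨x, hx', rfl⟩ := c.mem_sub.1 hx
        obtain ⟨y, hy', rfl⟩ := c.mem_sub.1 hy
        simpa only [c.ex_sub, hl] using h2 _ _ hx' hy'
    · rw [(codN hw).pw.le_iff (c.pw.res F)]
      constructor
      · rintro ⟨g, hg⟩
        exact ⟨fun s => (g s).1, fun s => (g s).2, fun s t h => hg (Subtype.ext h)⟩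
      · rintro ⟨g, h1, h2⟩
        exact ⟨fun s => ⟨g s, h1 s⟩, fun s t h => h2 s t (congrArg Subtype.val h)⟩
  constructor
  · intro h P l h1 h2 h3 h4 F h5 h6
    obtain ⟨Q, ⟨c⟩⟩ := cod_of_type P
    obtain ⟨m1, m2, m3, m4, m5⟩ := main c l fun _ _ => app_rel c
    obtain ⟨G, hG, h7⟩ := h Q _ (c.pw.sub F) (m1.2 ⟨h1, h2, h3⟩) (m2.2 h4)
      (c.pw.all_sub.2 fun D hD => (m3 D).2 (h5 D hD)) fun h => h6 ((m5 F).1 h)
    obtain ⟨G, rfl⟩ := c.isSub_iff.1 hG.1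
    obtain ⟨g1, g2, g3⟩ := (m4 G).1 hG
    refine ⟨G, g1, g2, g3, fun D hD => ?_⟩
    obtain ⟨x, hx, h8⟩ := c.ex_sub.1 (h7 _ ((mem_fam c).2 hD))
    exact ⟨x, hx, c.mem_sub'.1 h8⟩
  · intro h Q le F h1 h2 h3 h4
    obtain ⟨P, ⟨c⟩⟩ := cod_of_set Q
    obtain ⟨m1, m2, m3, m4, m5⟩ := main c (fun x y => App E le (c.e x) (c.e y)) fun _ _ => Iff.rfl
    obtain ⟨F, rfl⟩ := (fam_iff c).1 fun D hD => (h3 D hD).1
    obtain ⟨g1, g2, g3⟩ := m1.1 h1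
    obtain ⟨G, g4, g5, g6, g7⟩ := h P _ g1 g2 g3 (m2.1 h2) F
      (fun D hD => (m3 D).1 (h3 _ ((mem_fam c).2 hD))) fun h => h4 ((m5 F).2 h)
    refine ⟨c.sub G, (m4 G).2 ⟨g4, g5, g6⟩, c.pw.all_sub.2 fun D hD => ?_⟩
    obtain ⟨x, hx, h8⟩ := g7 D hD
    exact ⟨_, c.mem_sub'.2 hx, c.mem_sub'.2 h8⟩

end Pool.Agent.P.MP_0d6be8_lc.Std
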