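import Pool.Agent.P.MP_0d6be8_lc.Std.F

set_option autoImplicit false

/-! Classical facts used as controls of the definitions. -/

open MeasureTheory

namespace Pool.Agent.P.MP_0d6be8_lc.Std

section additive

variable {A : Type} [BooleanAlgebra A] {μ : A → ℝ}

theorem additive_sup (h : IsAdditive μ) (s : Finset A) (hs : (s : Set A).PairwiseDisjoint id) :
    μ (s.sup id) = ∑ a ∈ s, μ a := by
  classical
  induction s using Finset.induction_on with
  | empty => simpa using additive_bot h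
  | insert a s ha ih =>
    rw [Finset.coe_insert] at hs
    rw [Finset.sup_insert, Finset.sum_insert ha, ← ih (hs.subset (Set.subset_insert _ _))]
    refine h _ _ (Finset.disjoint_sup_right.2 fun b hb => ?_)
    exact hs (Set.mem_insert _ _) (Set.mem_insert_of_mem _ hb) fun h => ha (h ▸ hb)

theorem varLE_of_bound (h : IsAdditive μ) {C : ℝ} (hC : ∀ a, |μ a| ≤ C) : VarLE μ (C + C) := by
  classical
  intro s hs
  rw [← Finset.sum_filter_add_sum_filter_not s fun a => 0 ≤ μ a]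
  refine add_le_add ?_ ?_
  · rw [Finset.sum_congr rfl fun a ha => abs_of_nonneg (Finset.mem_filter.1 ha).2,
      ← additive_sup h _ (hs.subset (Finset.coe_subset.2 (Finset.filter_subset _ _)))]
    exact (le_abs_self _).trans (hC _)
  · rw [Finset.sum_congr rfl fun a ha => abs_of_neg (not_le.1 (Finset.mem_filter.1 ha).2),
      Finset.sum_neg_distrib,
      ← additive_sup h _ (hs.subset (Finset.coe_subset.2 (Finset.filter_subset _ _)))]
    exact (neg_le_abs _).trans (hC _)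

theorem additive_split (h : IsAdditive μ) (a b : A) : μ a = μ (a ⊓ b) + μ (a \ b) := by
  rw [← h _ _ disjoint_inf_sdiff, sup_inf_sdiff]

end additive

theorem thin (ν : Set ℕ → ℝ) (C : ℝ)
    (hC : ∀ d : ℕ → Set ℕ, (∀ i j, i ≠ j → Disjoint (d i) (d j)) →
      ∀ n, ∑ i ∈ Finset.range n, |ν (d i)| ≤ C) (S : Set ℕ) (hS : S.Infinite) :
    ∃ S' ⊆ S, S'.Infinite ∧ ∀ T ⊆ S', |ν T| ≤ 1 := by
  by_contra h
  push Not at h
  let e := hS.natEmbedding S
  have hi : ∀ i, Function.Injective fun j => (e (Nat.pair i j)).1 := fun i j k h =>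
    (Nat.pair_eq_pair.1 (e.injective (Subtype.ext h))).2
  choose T h1 h2 using fun i => h (Set.range fun j => (e (Nat.pair i j)).1)
    (by rintro _ ⟨j, rfl⟩; exact (e _).2) (Set.infinite_range_of_injective (hi i))
  obtain ⟨n, hn⟩ := exists_nat_gt C
  have h3 := hC T (fun i j hij => Set.disjoint_left.2 fun x hx hy => by
    obtain ⟨k, rfl⟩ := h1 i hx
    obtain ⟨l, hl⟩ := h1 j hy
    exact hij (Nat.pair_eq_pair.1 (e.injective (Subtype.ext hl))).1.symm) n
  have h4 : ∑ _i ∈ Finset.range n, (1 : ℝ) ≤ ∑ i ∈ Finset.range n, |ν (T i)| :=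
    Finset.sum_le_sum fun i _ => (h2 i).le
  simp only [Finset.sum_const, Finset.card_range, nsmul_eq_mul, mul_one] at h4
  linarith

theorem head_bound {ν : Set ℕ → ℝ} (h : IsAdditive ν) {M : ℕ → ℝ} (hM : ∀ j, |ν {j}| ≤ M j)
    (m : ℕ) : ∀ F ⊆ Set.Iio m, |ν F| ≤ ∑ j ∈ Finset.range m, M j := by
  induction m with
  | zero =>
    intro F hF
    have : F = ⊥ := Set.eq_empty_of_forall_notMem fun x hx => Nat.not_lt_zero _ (hF hx)
    rw [this, additive_bot h]
    simp
  | succ m ih =>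
    intro F hF
    rw [Finset.sum_range_succ, additive_split h F {m}, add_comm]
    refine (abs_add_le _ _).trans (add_le_add (ih _ fun x hx => ?_) ?_)
    · exact lt_of_le_of_ne (Nat.lt_succ_iff.1 (hF hx.1)) hx.2
    · by_cases hm : m ∈ F
      · rw [inf_eq_right.2 (Set.singleton_subset_iff.2 hm)]
        exact hM m
      · rw [disjoint_iff.1 (Set.disjoint_singleton_right.2 hm), additive_bot h, abs_zero]
        exact (abs_nonneg _).trans (hM m)

theorem hump (ν : ℕ → Set ℕ → ℝ) (h1 : ∀ k, IsAdditive (ν k))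
    (h2 : ∀ k, ∃ C, ∀ d : ℕ → Set ℕ, (∀ i j, i ≠ j → Disjoint (d i) (d j)) →
      ∀ n, ∑ i ∈ Finset.range n, |ν k (d i)| ≤ C) (M : ℕ → ℝ) (hM : ∀ k j, |ν k {j}| ≤ M j)
    (h3 : ∀ k : ℕ, k + ∑ j ∈ Finset.range k, M j < |ν k {k}|) :
    ∃ L, ∀ C, ∃ k, C < |ν k L| := by
  have step : ∀ S : {S : Set ℕ // S.Infinite}, ∃ (k : ℕ) (S' : {S : Set ℕ // S.Infinite}),
      k ∈ S.1 ∧ S'.1 ⊆ S.1 ∧ (∀ j ∈ S'.1, k < j) ∧ ∀ T ⊆ S'.1, |ν k T| ≤ 1 := by
    intro S
    obtain ⟨k, hk⟩ := S.2.nonempty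
    obtain ⟨C, hC⟩ := h2 k
    obtain ⟨S', g1, g2, g3⟩ := thin (ν k) C hC (S.1 \ Set.Iic k) (S.2.sdiff (Set.finite_Iic k))
    exact ⟨k, ⟨S', g2⟩, hk, fun x hx => (g1 hx).1, fun j hj => not_le.1 (g1 hj).2, g3⟩
  choose kk nx s1 s2 s3 s4 using step
  let Q : ℕ → {S : Set ℕ // S.Infinite} := fun i => nx^[i] ⟨Set.univ, Set.infinite_univ⟩
  have hQ : ∀ i, Q (i + 1) = nx (Q i) := fun i => Function.iterate_succ_apply' _ _ _
  have anti : Antitone fun i => (Q i).1 := antitone_nat_of_succ_le fun i => by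
    rw [hQ]
    exact s2 _
  let k : ℕ → ℕ := fun i => kk (Q i)
  have hk : ∀ i j, i < j → k j ∈ (nx (Q i)).1 := fun i j h => by
    rw [← hQ]
    exact anti h (s1 _)
  have mono : StrictMono k := fun i j h => s3 _ _ (hk i j h)
  refine ⟨Set.range k, fun C => ?_⟩
  obtain ⟨i, hi⟩ := exists_nat_gt (C + 1)
  refine ⟨k i, ?_⟩
  have e1 := additive_split (h1 (k i)) (Set.range k) {k i}
  have e2 := additive_split (h1 (k i)) (Set.range k \ {k i}) (Set.Iio (k i))
  rw [inf_eq_right.2 (Set.singleton_subset_iff.2 (Set.mem_range_self i))] at e1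
  have e3 := head_bound (h1 (k i)) (hM (k i)) (k i) ((Set.range k \ {k i}) ⊓ Set.Iio (k i))
    inf_le_right
  have e4 := s4 (Q i) ((Set.range k \ {k i}) \ Set.Iio (k i)) (by
    rintro _ ⟨⟨⟨j, rfl⟩, g1⟩, g2⟩
    exact hk i j (mono.lt_iff_lt.1 (lt_of_le_of_ne (not_lt.1 g2) (Ne.symm g1))))
  have e5 := h3 (k i)
  have e6 : (i : ℝ) ≤ k i := Nat.cast_le.2 (mono.le_apply)
  have e7 : |ν (k i) {k i}| ≤ |ν (k i) (Set.range k)| +
      |ν (k i) ((Set.range k \ {k i}) ⊓ Set.Iio (k i))| +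
      |ν (k i) ((Set.range k \ {k i}) \ Set.Iio (k i))| := by
    have : ν (k i) {k i} = ν (k i) (Set.range k) -
        ν (k i) ((Set.range k \ {k i}) ⊓ Set.Iio (k i)) -
        ν (k i) ((Set.range k \ {k i}) \ Set.Iio (k i)) := by linarith
    rw [this]
    exact (abs_sub _ _).trans (add_le_add (abs_sub _ _) le_rfl)
  change |ν (k i) _| ≤ 1 at e4
  linarith

theorem nik_pow : Nikodym (Set ℕ) := by
  intro μ h1 h2 h3
  by_contra hC
  choose M hM using h3
  let U : Set ℕ → Prop := fun a => ∀ C, ∃ n b, b ≤ a ∧ C < |μ n b|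
  have hU : U ⊤ := by
    intro C
    by_contra h
    push Not at h
    exact hC ⟨C + C, fun n => varLE_of_bound (h1 n) fun a => h n a le_top⟩
  have hs : ∀ a b, U a → U (a ⊓ b) ∨ U (a \ b) := by
    intro a b ha
    by_contra h
    simp only [U, not_or, not_forall, not_exists, not_and, not_lt] at h
    obtain ⟨⟨C, g1⟩, D, g2⟩ := h
    obtain ⟨n, c, g3, g4⟩ := ha (C + D)
    rw [additive_split (h1 n) c b] at g4
    have := abs_add_le (μ n (c ⊓ b)) (μ n (c \ b))
    linarith [g1 n _ (inf_le_inf_right b g3), g2 n _ (sdiff_le_sdiff_right (c := b) g3)]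
  have step : ∀ s : {a // U a} × ℝ, ∃ (p : Set ℕ) (n : ℕ), p ≤ s.1.1 ∧ U (s.1.1 \ p) ∧
      s.2 < |μ n p| := by
    rintro ⟨⟨a, ha⟩, t⟩
    obtain ⟨n, b, g1, g2⟩ := ha (t + M a)
    rcases hs a b ha with h | h
    · refine ⟨a \ b, n, sdiff_le, by rwa [sdiff_sdiff_right_self], ?_⟩
      have e := additive_split (h1 n) a b
      rw [inf_eq_right.2 g1] at e
      have e2 : μ n b = μ n a - μ n (a \ b) := by linarith
      have e3 := abs_sub (μ n a) (μ n (a \ b))
      rw [← e2] at e3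
      change t < _
      linarith [hM a n]
    · refine ⟨b, n, g1, h, ?_⟩
      change t < _
      linarith [(abs_nonneg _).trans (hM a n)]
  choose p nn s1 s2 s3 using step
  let nx : {a // U a} × ℝ → {a // U a} × ℝ := fun s => (⟨_, s2 s⟩, s.2 + M (p s) + 1)
  let Q : ℕ → {a // U a} × ℝ := fun i => nx^[i] (⟨⊤, hU⟩, 0)
  have hQ : ∀ i, Q (i + 1) = nx (Q i) := fun i => Function.iterate_succ_apply' _ _ _
  have anti : Antitone fun i => (Q i).1.1 := antitone_nat_of_succ_le fun i => by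
    rw [hQ]
    exact sdiff_le
  have ht : ∀ i : ℕ, (Q i).2 = i + ∑ j ∈ Finset.range i, M (p (Q j)) := by
    intro i
    induction i with
    | zero => simp [Q]
    | succ i ih =>
      rw [hQ, Finset.sum_range_succ]
      change (Q i).2 + M (p (Q i)) + 1 = _
      rw [ih]
      push_cast
      ring
  have hlt : ∀ i j, i < j → Disjoint (p (Q i)) (p (Q j)) := fun i j h => by
    have h4 : (Q j).1.1 ≤ (Q (i + 1)).1.1 := anti h
    rw [hQ] at h4
    exact disjoint_sdiff_self_right.mono_right ((s1 _).trans h4)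
  have hd : ∀ T T' : Set ℕ, Disjoint T T' →
      Disjoint (⋃ j ∈ T, p (Q j)) (⋃ j ∈ T', p (Q j)) := by
    intro T T' h
    simp only [Set.disjoint_iUnion₂_left, Set.disjoint_iUnion₂_right]
    intro j hj i hi
    rcases lt_trichotomy i j with g | rfl | g
    · exact hlt _ _ g
    · exact absurd hj (Set.disjoint_left.1 h hi)
    · exact (hlt _ _ g).symm
  obtain ⟨L, hL⟩ := hump (fun k T => μ (nn (Q k)) (⋃ j ∈ T, p (Q j)))
    (fun k T T' h => by
      rw [← h1 _ _ _ (hd T T' h)]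
      exact congrArg _ (Set.biUnion_union _ _ _))
    (fun k => (h2 (nn (Q k))).imp fun C hC d g =>
      (seq_iff (additive_bot (h1 _))).2 hC _ fun i j hij => hd _ _ (g i j hij))
    (fun j => M (p (Q j))) (fun k j => by simpa using hM _ _)
    (fun k => by simpa [← ht] using s3 (Q k))
  obtain ⟨k, hk⟩ := hL (M (⋃ j ∈ L, p (Q j)))
  exact absurd hk (not_lt.2 (hM _ _))

theorem exists_point {A : Type} [BooleanAlgebra A] [Countable A] (L : A → Prop) (h0 : ¬ L ⊥)
    (hs : ∀ b a, L b → L (b ⊓ a) ∨ L (b ⊓ aᶜ)) (b0 : A) (hb : L b0) :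
    ∃ (U : Stone A) (b : ℕ → A), b 0 = b0 ∧ (∀ n, L (b n) ∧ b n ∈ U.carrier) ∧
      ∀ a, ∃ m, ∀ n, m ≤ n → b n ≤ a ∨ b n ≤ aᶜ := by
  classical
  obtain ⟨e, he⟩ := exists_surjective_nat A
  let b : ℕ → A := fun n => Nat.rec b0 (fun n x => if L (x ⊓ e n) then x ⊓ e n else x ⊓ (e n)ᶜ) n
  have hb1 : ∀ n, b (n + 1) = if L (b n ⊓ e n) then b n ⊓ e n else b n ⊓ (e n)ᶜ := fun _ => rfl
  have hL : ∀ n, L (b n) := by
    intro n
    induction n with
    | zero => exact hb
    | succ n ih =>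
      rw [hb1]
      split_ifs with h
      · exact h
      · exact (hs _ _ ih).resolve_left h
  have anti : Antitone b := antitone_nat_of_succ_le fun n => by
    rw [hb1]
    split_ifs <;> exact inf_le_left
  have dec : ∀ a, ∃ m, b m ≤ a ∨ b m ≤ aᶜ := by
    intro a
    obtain ⟨n, rfl⟩ := he a
    refine ⟨n + 1, ?_⟩
    rw [hb1]
    split_ifs
    · exact Or.inl inf_le_right
    · exact Or.inr inf_le_right
  refine ⟨⟨{a | ∃ n, b n ≤ a}, ⟨0, le_top⟩, ?_, fun x y => ⟨?_, ?_⟩, fun a => ?_⟩, b, rfl,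
    fun n => ⟨hL n, n, le_rfl⟩, fun a => (dec a).imp fun m h n hn => ?_⟩
  · rintro ⟨n, h⟩
    exact h0 (le_bot_iff.1 h ▸ hL n)
  · rintro ⟨n, h⟩
    exact ⟨⟨n, h.trans inf_le_left⟩, n, h.trans inf_le_right⟩
  · rintro ⟨⟨m, h⟩, n, h'⟩
    exact ⟨max m n, le_inf ((anti (le_max_left _ _)).trans h) ((anti (le_max_right _ _)).trans h')⟩
  · obtain ⟨m, h | h⟩ := dec a
    · exact Or.inl ⟨m, h⟩
    · exact Or.inr ⟨m, h⟩
  · exact h.imp (anti hn).trans (anti hn).trans

open Classical in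
/-- the point mass at an ultrafilter -/
noncomputable def dirac {A : Type} [BooleanAlgebra A] (U : Stone A) (a : A) : ℝ :=
  if a ∈ U.carrier then 1 else 0

theorem dirac_add {A : Type} [BooleanAlgebra A] (U : Stone A) : IsAdditive (dirac U) := by
  intro a b h
  have h1 : a ⊔ b ∈ U.carrier ↔ a ∈ U.carrier ∨ b ∈ U.carrier :=
    Set.ext_iff.1 (basic_sup a b) U
  have h2 : ¬ (a ∈ U.carrier ∧ b ∈ U.carrier) := by
    rw [← U.inf_mem, disjoint_iff.1 h]
    exact U.bot_notMem
  unfold dirac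
  by_cases ha : a ∈ U.carrier <;> by_cases hb : b ∈ U.carrier <;> simp_all

theorem dirac_abs {A : Type} [BooleanAlgebra A] (U W : Stone A) (a : A) :
    |dirac U a - dirac W a| ≤ 1 := by
  unfold dirac
  split_ifs <;> simp

theorem not_nik (A : Type) [BooleanAlgebra A] [Countable A] [Infinite A] : ¬ Nikodym A := by
  intro h
  obtain ⟨x, b, -, h1, h2⟩ := exists_point (fun c : A => (Set.Iic c).Infinite)
    (by simp) (fun c a hc => by
      by_contra g
      simp only [not_or, Set.not_infinite] at g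
      refine hc ((g.1.image2 (· ⊔ ·) g.2).subset fun y hy => ?_)
      exact ⟨y ⊓ a, inf_le_inf_right a hy, y ⊓ aᶜ, inf_le_inf_right _ hy, by
        simp only [← inf_sup_left, sup_compl_eq_top, inf_top_eq]⟩) ⊤
    (by simpa using Set.infinite_univ)
  have h3 : ∀ n, ∃ (y : Stone A) (c : A), c ≤ b n ∧ c ∈ y.carrier ∧ c ∉ x.carrier := by
    intro n
    have g : ∀ c : A, c ≠ ⊥ → ∃ y : Stone A, c ∈ y.carrier := fun c hc => by
      obtain ⟨y, d, rfl, g1, -⟩ := exists_point (fun c : A => c ≠ ⊥) (by simp) (fun c a hc => by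
        by_contra g
        simp only [not_or, not_not] at g
        refine hc ?_
        rw [← inf_top_eq c, ← sup_compl_eq_top (x := a), inf_sup_left, g.1, g.2, sup_idem]) c hc
      exact ⟨y, (g1 0).2⟩
    obtain ⟨c, g1, g2⟩ := ((h1 n).1.sdiff (Set.toFinite {⊥, b n})).nonempty
    simp only [Set.mem_insert_iff, Set.mem_singleton_iff, not_or] at g2
    by_cases hc : c ∈ x.carrier
    · obtain ⟨y, hy⟩ := g (b n \ c) fun g3 => g2.2 (le_antisymm g1 (sdiff_eq_bot_iff.1 g3))
      refine ⟨y, _, sdiff_le, hy, fun g3 => x.bot_notMem ?_⟩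
      rw [← inf_sdiff_self_right (x := c) (y := b n)]
      exact (x.inf_mem _ _).2 ⟨hc, g3⟩
    · obtain ⟨y, hy⟩ := g c g2.1
      exact ⟨y, c, g1, hy, hc⟩
  choose y c h3 h4 h5 using h3
  have ha : ∀ n : ℕ, IsAdditive fun a => n * (dirac (y n) a - dirac x a) := fun n a a' g => by
    simp only [dirac_add _ a a' g]
    ring
  have hb : ∀ (n : ℕ) a, |n * (dirac (y n) a - dirac x a)| ≤ n := fun n a => by
    rw [abs_mul, Nat.abs_cast]
    exact mul_le_of_le_one_right (Nat.cast_nonneg n) (dirac_abs _ _ _)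
  obtain ⟨C, hC⟩ := h _ ha (fun n => ⟨_, varLE_of_bound (ha n) (hb n)⟩) fun a => by
    obtain ⟨m, hm⟩ := h2 a
    refine ⟨m, fun n => ?_⟩
    rcases le_total n m with g | g
    · exact (hb n a).trans (Nat.cast_le.2 g)
    · have g1 : a ∈ (y n).carrier ↔ a ∈ x.carrier := by
        have g2 : b n ∈ (y n).carrier := stone_up _ (h4 n) (h3 n)
        rcases hm n g with g3 | g3
        · exact iff_of_true (stone_up _ g2 g3) (stone_up _ (h1 n).2 g3)
        · exact iff_of_false ((Set.ext_iff.1 (basic_compl a) _).1 (stone_up _ g2 g3))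
            ((Set.ext_iff.1 (basic_compl a) _).1 (stone_up _ (h1 n).2 g3))
      have g4 : dirac (y n) a = dirac x a := by
        unfold dirac
        rw [g1]
      simp [g4]
  obtain ⟨n, hn⟩ := exists_nat_gt C
  have := hC n {c n} (by simp)
  simp [dirac, h4, h5] at this
  linarith

theorem sep_ctb (A : Type) [BooleanAlgebra A] [Countable A] (μ : Measure (Stone A))
    [IsFiniteMeasure μ] : IsSeparable μ := by
  have : BorelSpace (Stone A) := ⟨rfl⟩
  have : SecondCountableTopology (Stone A) :=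
    basis_basic.secondCountableTopology (Set.countable_range _)
  infer_instance

/-- the continuum hypothesis: every set of reals is countable or has size continuum -/
def PlainCH : Prop :=
  ∀ S : Set (Set ℕ), S.Countable ∨ ∃ g : Set ℕ → S, Function.Injective g

theorem ch_eq (h : PlainCH) : Cardinal.continuum.{0} = Cardinal.aleph 1 := by
  refine le_antisymm ?_ Cardinal.aleph_one_le_continuum
  have h1 : Cardinal.aleph 1 ≤ Cardinal.mk (Set.univ : Set (Set ℕ)) := by
    simpa using Cardinal.aleph_one_le_continuum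
  obtain ⟨S, -, hS⟩ := Cardinal.le_mk_iff_exists_subset.1 h1
  rcases h S with h2 | ⟨g, hg⟩
  · exact absurd (hS ▸ Cardinal.le_aleph0_iff_set_countable.2 h2)
      (not_le.2 Cardinal.aleph0_lt_aleph_one)
  · simpa [hS] using Cardinal.mk_le_of_injective hg

theorem ma_of_ch (h : PlainCH) : PlainMA := by
  rintro P l ⟨p, -⟩ h1 h2 - F h3 h4
  have hF : Countable {D // F D} := by
    rw [← Cardinal.mk_le_aleph0_iff, ← Order.lt_succ_iff, Cardinal.succ_aleph0, ← ch_eq h]
    by_contra g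
    have g1 : Cardinal.mk (Set ℕ) ≤ Cardinal.mk {D // F D} := by simpa using g
    obtain ⟨e⟩ := g1
    exact h4 ⟨fun s => (e s).1, fun s => (e s).2, fun s t g => e.injective (Subtype.ext g)⟩
  let O : Preorder P :=
    { le := fun x y => l y x, le_refl := h1, le_trans := fun x y z a b => h2 _ _ _ b a }
  obtain ⟨E⟩ := nonempty_encodable {D // F D}
  let 𝒟 : {D // F D} → Order.Cofinal P := fun D => ⟨D.1, h3 D.1 D.2⟩
  let I := Order.idealOfCofinals p 𝒟
  refine ⟨fun x => x ∈ I, ⟨p, Order.mem_idealOfCofinals p 𝒟⟩, fun x y hx g => I.lower g hx,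
    fun x y hx hy => I.directed x hx y hy, fun D hD => ?_⟩
  obtain ⟨x, g1, g2⟩ := Order.cofinal_meets_idealOfCofinals p 𝒟 ⟨D, hD⟩
  exact ⟨x, g2, g1⟩

end Pool.Agent.P.MP_0d6be8_lc.Std
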