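import Pool.Agent.P.MP_0d6be8_lc.Std.G

set_option autoImplicit false

/-! The controls, stated with the internal notions. -/

open Pool.Agent.Lib.PosetForcing MeasureTheory

namespace Pool.Agent.P.MP_0d6be8_lc.Std

theorem zf_zfc : IsZFC fun x y : ZFSet.{0} => x ∈ y where
  ext a b h := ZFSet.ext h
  found a h := by
    obtain ⟨x, hx, hm⟩ := ZFSet.mem_wf.has_min {x | x ∈ a} h
    exact ⟨x, hx, fun y hy hya => hm y hya hy⟩
  pair a b := ⟨{a, b}, fun x => ZFSet.mem_pair⟩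
  union a := ⟨ZFSet.sUnion a, fun x => ZFSet.mem_sUnion⟩
  power a := ⟨a.powerset, fun x => ZFSet.mem_powerset⟩
  inf := ⟨ZFSet.omega, ⟨∅, ZFSet.omega_zero, ZFSet.notMem_empty⟩, fun x hx =>
    ⟨_, ZFSet.omega_succ hx, fun z => ZFSet.mem_insert_iff.trans or_comm⟩⟩
  sep φ v a := ⟨a.sep _, fun x => ZFSet.mem_sep⟩
  repl φ v a h := by
    choose F hF hU using fun t : a => h t.1 t.2
    refine ⟨ZFSet.range F, fun y => ZFSet.mem_range.trans ⟨?_, ?_⟩⟩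
    · rintro ⟨t, rfl⟩
      exact ⟨t.1, t.2, hF t⟩
    · rintro ⟨x, hx, h1⟩
      exact ⟨⟨x, hx⟩, (hU _ y h1).symm⟩
  choice a h1 h2 := by
    choose F hF using fun t : a => h1 t.1 t.2
    refine ⟨ZFSet.range F, fun x hx => ⟨F ⟨x, hx⟩, ⟨hF _, ZFSet.mem_range.2 ⟨_, rfl⟩⟩, ?_⟩⟩
    rintro z ⟨hz, hz'⟩
    obtain ⟨s, rfl⟩ := ZFSet.mem_range.1 hz'
    obtain rfl : x = s.1 := h2 _ _ _ hx s.2 hz (hF s)
    rfl

/-- the sets of the library form a full universe -/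
@[reducible] def zfUni : Uni where
  M := ZFSet.{0}
  mem x y := x ∈ y
  zfc := zf_zfc
  rng _ f := ⟨ZFSet.range f, fun _ => ZFSet.mem_range⟩
  small a := ⟨Shrink.{0} a, fun t => ((equivShrink a).symm t).1, fun x =>
    ⟨fun hx => ⟨equivShrink a ⟨x, hx⟩, by simp⟩, by
      rintro ⟨t, rfl⟩
      exact ((equivShrink a).symm t).2⟩⟩

variable [Uni] {w C R add mul rle o A le X S m : V}

theorem omega_pow : ∃ w C : V, IsOmega E w ∧ IsPow E C w :=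
  ⟨_, pow _, omega_range, fun _ => mem_pow⟩

theorem reals_std (h : NK.IsReals E R add mul rle o) : ∃ ρ : ℝ → V,
    (∀ x y, ρ x = ρ y → x = y) ∧ (∀ z, E z R ↔ ∃ x, ρ x = z) ∧ ρ 0 = o ∧
    (∀ x y z, NK.App2 E add (ρ x) (ρ y) z ↔ ρ (x + y) = z) ∧
    (∀ x y z, NK.App2 E mul (ρ x) (ρ y) z ↔ ρ (x * y) = z) ∧
    ∀ x y, App E rle (ρ x) (ρ y) ↔ x ≤ y := by
  obtain ⟨r, h0⟩ := rd_of_reals h
  exact ⟨r.c.e, fun _ _ h => r.c.inj h, r.c.mem, h0, r.add, r.mul, r.le⟩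

theorem pow_nik (hw : IsOmega E w) (hC : IsPow E C w) (hR : NK.IsReals E R add mul rle o) :
    ∃ le X S, (∀ a b, E a C → E b C → (App E le a b ↔ IsSub E a b)) ∧ NK.IsBoolean E C le ∧
      LeCard E w C ∧ NK.Nikodym E w R add rle o C le ∧ NK.IsStone E C le X ∧
      NK.IsBorel E w X S := by
  obtain rfl := pow_eq hC
  obtain ⟨r, rfl⟩ := rd_of_reals hR
  let b : BD (Set ℕ) (pow w) (rel (codN hw).pw (· ≤ ·)) := ⟨_, fun _ _ => app_rel _⟩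
  obtain ⟨X, hX⟩ := b.exists_stone
  obtain ⟨S, hS⟩ := b.exists_borel hw hX
  refine ⟨_, X, S, fun x y hx hy => ?_, b.isBoolean, (inf_iff hw b.c).2 inferInstance,
    (b.nik_iff r hw).2 nik_pow, hX, hS⟩
  obtain ⟨x, rfl⟩ := (b.c.mem _).1 hx
  obtain ⟨y, rfl⟩ := (b.c.mem _).1 hy
  exact (b.le _ _).trans (codN hw).sub_sub.symm

theorem ctb_not_nik (hw : IsOmega E w) (hR : NK.IsReals E R add mul rle o)
    (hA : NK.IsBoolean E A le) (h1 : LeCard E w A) (h2 : LeCard E A w) :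
    ¬ NK.Nikodym E w R add rle o A le := by
  obtain ⟨r, rfl⟩ := rd_of_reals hR
  obtain ⟨B, _, ⟨b⟩⟩ := bd_of_boolean hA
  have := (inf_iff hw b.c).1 h1
  have := (ctb_iff hw b.c).1 h2
  exact fun h => not_nik B ((b.nik_iff r hw).1 h)

theorem ctb_type (hw : IsOmega E w) (hR : NK.IsReals E R add mul rle o)
    (hA : NK.IsBoolean E A le) (h2 : LeCard E A w) (hX : NK.IsStone E A le X)
    (hS : NK.IsBorel E w X S) (hm : NK.IsRadon E w R add rle o X S m) :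
    NK.CountableType E w R rle o S m := by
  obtain ⟨r, rfl⟩ := rd_of_reals hR
  obtain ⟨B, _, ⟨b⟩⟩ := bd_of_boolean hA
  have := (ctb_iff hw b.c).1 h2
  by_contra h
  obtain ⟨μ, _, -, h3⟩ := (b.meas_iff r hw hX hS).1 ⟨m, hm, h⟩
  exact h3 (sep_ctb B μ)

theorem ch_control (hw : IsOmega E w) (hC : IsPow E C w)
    (h : ∀ S, IsSub E S C → LeCard E S w ∨ LeCard E C S) :
    MP_93aff1_lc.MA E w C ∧ ¬ NK.Goal E w := by
  have hch : PlainCH := by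
    obtain rfl := pow_eq hC
    intro S
    exact (h _ ((codN hw).pw.isSub_iff.2 ⟨S, rfl⟩)).imp (ctb_iff hw ((codN hw).pw.res S)).1
      ((codN hw).pw.le_iff ((codN hw).pw.res S)).1
  refine ⟨(ma_iff hw hC).2 (ma_of_ch hch), fun hG => ?_⟩
  obtain ⟨B, _, h1, -, h2, h3⟩ := main (ch_eq hch)
  obtain ⟨μ, h4, h5, h6⟩ := (goal_iff hw).1 hG B h1 h2
  exact h6 (h3 μ h4 h5)

theorem goal_plain (hw : IsOmega E w) : NK.Goal E w ↔
    ∀ (B : Type) [BooleanAlgebra B], (∃ f : ℕ → B, ∀ i j, f i = f j → i = j) →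
      (∀ μ : ℕ → B → ℝ, (∀ n a b, a ⊓ b = ⊥ → μ n (a ⊔ b) = μ n a + μ n b) →
        (∀ n, ∃ c, ∀ s : Finset B, (∀ a ∈ s, ∀ b ∈ s, a ≠ b → a ⊓ b = ⊥) →
          ∑ a ∈ s, |μ n a| ≤ c) →
        (∀ a, ∃ c, ∀ n, |μ n a| ≤ c) →
        ∃ c, ∀ n, ∀ s : Finset B, (∀ a ∈ s, ∀ b ∈ s, a ≠ b → a ⊓ b = ⊥) →
          ∑ a ∈ s, |μ n a| ≤ c) →
      ∃ μ : Measure (Stone B), IsFiniteMeasure μ ∧ μ.InnerRegular ∧ ¬ IsSeparable μ := by
  rw [goal_iff hw]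
  refine forall₂_congr fun B _ => imp_congr ⟨fun _ => ⟨_, (Infinite.natEmbedding B).injective⟩,
    fun ⟨f, hf⟩ => Infinite.of_injective f hf⟩ (imp_congr_left ?_)
  simp only [Nikodym, IsAdditive, VarLE, Set.PairwiseDisjoint, Set.Pairwise, Function.onFun, id,
    disjoint_iff, Finset.mem_coe]

end Pool.Agent.P.MP_0d6be8_lc.Std
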