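import Pool.Agent.K.MP_0d6be8_lc.C9

set_option autoImplicit false
set_option linter.unusedSectionVars false
set_option synthInstance.maxSize 4000

/-! The real numbers of a model with standard natural numbers. -/

noncomputable section

open Pool.Agent.Lib.PosetForcing (App IsFun IsFunOn IsSub)
open Pool.Agent.P.MP_5f3b23_lc.Zf (mm om op app_iff isPair_iff op_inj)
open Pool.Agent.P.MP_af1204_lc.Inn

namespace Pool.Agent.P.MP_0d6be8_lc.NKW.Ctl

/-- names of rational numbers -/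
abbrev T3 : Type := ℕ × ℕ × ℕ

/-- the value of a name -/
def val (t : T3) : ℝ := ((t.1 : ℝ) - t.2.1) / (t.2.2 + 1)

/-- sum of names -/
def tadd (s u : T3) : T3 := (s.1 * (u.2.2 + 1) + u.1 * (s.2.2 + 1),
  s.2.1 * (u.2.2 + 1) + u.2.1 * (s.2.2 + 1), s.2.2 * u.2.2 + s.2.2 + u.2.2)

/-- product of names -/
def tmul (s u : T3) : T3 := (s.1 * u.1 + s.2.1 * u.2.1, s.1 * u.2.1 + s.2.1 * u.1,
  s.2.2 * u.2.2 + s.2.2 + u.2.2)

/-- negative of a name -/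
def tneg (s : T3) : T3 := (s.2.1, s.1, s.2.2)

theorem den_eq (a b : ℝ) : a * b + a + b + 1 = (a + 1) * (b + 1) := by ring

theorem val_add (s u : T3) : val (tadd s u) = val s + val u := by
  simp only [val, tadd]
  push_cast
  rw [den_eq]
  field_simp
  ring

theorem val_mul (s u : T3) : val (tmul s u) = val s * val u := by
  simp only [val, tmul]
  push_cast
  rw [den_eq]
  field_simp
  ring

theorem val_neg (s : T3) : val (tneg s) = - val s := by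
  simp only [val, tneg]
  ring

theorem val_lt (s t : T3) : val s < val t ↔
    s.1 * (t.2.2 + 1) + t.2.1 * (s.2.2 + 1) < t.1 * (s.2.2 + 1) + s.2.1 * (t.2.2 + 1) := by
  rw [val, val, div_lt_div_iff₀ (by positivity) (by positivity), ← Nat.cast_lt (α := ℝ)]
  push_cast
  constructor <;> intro h <;> linarith

theorem val_btwn {x y : ℝ} (h : x < y) : ∃ t, x < val t ∧ val t < y := by
  obtain ⟨q, h1, h2⟩ := exists_rat_btwn h
  have e : val (q.num.toNat, (-q.num).toNat, q.den - 1) = q := by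
    have h3 : ((q.num.toNat : ℝ) - ((-q.num).toNat : ℝ)) = (q.num : ℝ) := by
      exact_mod_cast congrArg (Int.cast : ℤ → ℝ) (Int.toNat_sub_toNat_neg q.num)
    have h4 : (((q.den - 1 : ℕ) : ℝ) + 1) = (q.den : ℝ) := by
      exact_mod_cast Nat.sub_add_cancel q.pos
    rw [val, h3, h4, Rat.cast_def]
  exact ⟨_, e ▸ h1, e ▸ h2⟩

theorem gt_iff {x : ℝ} {t : T3} : x < val t ↔ ∃ s, ¬ val s < x ∧ val s < val t :=
  ⟨fun h => (val_btwn h).imp fun _ k => ⟨not_lt.2 k.1.le, k.2⟩,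
    fun ⟨_, h1, h2⟩ => (not_lt.1 h1).trans_lt h2⟩

theorem lt_add {x y : ℝ} {t : T3} :
    val t < x + y ↔ ∃ s u, val s < x ∧ val u < y ∧ val t < val (tadd s u) := by
  simp only [val_add]
  constructor
  · intro h
    obtain ⟨s, h1, h2⟩ := val_btwn (show val t - y < x by linarith)
    obtain ⟨u, h3, h4⟩ := val_btwn (show val t - val s < y by linarith)
    exact ⟨s, u, h2, h4, by linarith⟩
  · rintro ⟨s, u, h1, h2, h3⟩
    linarith

theorem lt_mul_btwn {t a b x q : ℝ} (h1 : a < x) (h2 : x < b) (h3 : t < a * q) (h4 : t < b * q) :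
    t < x * q := by
  rcases le_total 0 q with h | h <;> nlinarith

theorem lt_mul {x y : ℝ} {t : T3} : val t < x * y ↔ ∃ a b c d, val a < x ∧ x < val b ∧
    val c < y ∧ y < val d ∧ val t < val (tmul a c) ∧ val t < val (tmul a d) ∧
    val t < val (tmul b c) ∧ val t < val (tmul b d) := by
  simp only [val_mul]
  constructor
  · intro h
    have h1 : ∀ᶠ p : ℝ × ℝ in nhds (x, y), val t < p.1 * p.2 :=
      (continuous_mul.tendsto (x, y)).eventually (lt_mem_nhds h)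
    obtain ⟨ε, hε, h2⟩ := Metric.eventually_nhds_iff.1 h1
    have h3 : ∀ p q : ℝ, |p - x| < ε → |q - y| < ε → val t < p * q := fun p q hp hq =>
      h2 (y := (p, q)) (max_lt hp hq)
    obtain ⟨a, a1, a2⟩ := val_btwn (show x - ε < x by linarith)
    obtain ⟨b, b1, b2⟩ := val_btwn (show x < x + ε by linarith)
    obtain ⟨c, c1, c2⟩ := val_btwn (show y - ε < y by linarith)
    obtain ⟨d, d1, d2⟩ := val_btwn (show y < y + ε by linarith)
    refine ⟨a, b, c, d, a2, b1, c2, d1, h3 _ _ ?_ ?_, h3 _ _ ?_ ?_, h3 _ _ ?_ ?_, h3 _ _ ?_ ?_⟩ <;>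
      rw [abs_lt] <;> constructor <;> linarith
  · rintro ⟨a, b, c, d, h1, h2, h3, h4, h5, h6, h7, h8⟩
    have h9 := lt_mul_btwn h1 h2 h5 h7
    have h10 := lt_mul_btwn h1 h2 h6 h8
    rw [mul_comm] at h9 h10 ⊢
    exact lt_mul_btwn h3 h4 h9 h10

theorem lt_inv {x : ℝ} (hx : 0 < x) {t : T3} :
    val t < x⁻¹ ↔ ∃ b, x < val b ∧ val (tmul t b) < val (1, 0, 0) := by
  have e : val (1, 0, 0) = 1 := by simp [val]
  simp only [val_mul, e]
  rw [← one_div, lt_div_iff₀ hx]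
  constructor
  · intro h
    rcases le_or_gt (val t) 0 with k | k
    · obtain ⟨b, h1, -⟩ := val_btwn (lt_add_one x)
      exact ⟨b, h1, by nlinarith⟩
    · obtain ⟨b, h1, h2⟩ := val_btwn (show x < 1 / val t by rw [lt_div_iff₀ k]; linarith)
      rw [lt_div_iff₀ k] at h2
      exact ⟨b, h1, by linarith⟩
  · rintro ⟨b, h1, h2⟩
    rcases le_or_gt (val t) 0 with k | k <;> nlinarith

theorem eq_of_cut {x y : ℝ} (h : ∀ t, val t < x ↔ val t < y) : x = y := by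
  refine le_antisymm (not_lt.1 fun k => ?_) (not_lt.1 fun k => ?_)
  · obtain ⟨t, h1, h2⟩ := val_btwn k
    exact lt_asymm h1 ((h t).1 h2)
  · obtain ⟨t, h1, h2⟩ := val_btwn k
    exact lt_asymm h1 ((h t).2 h2)

theorem le_iff_cut {x y : ℝ} : x ≤ y ↔ ∀ t, val t < x → val t < y :=
  ⟨fun h _ k => k.trans_le h, fun h => not_lt.1 fun k =>
    let ⟨t, h1, h2⟩ := val_btwn k; lt_asymm h1 (h t h2)⟩

variable [Md] [Std]

section
variable {Γ : Type} [MC Γ]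

theorem dd_aux (a1 a2 a3 b1 b2 b3 : Γ → ℕ) (_ : DD a1) (_ : DD a2) (_ : DD a3) (_ : DD b1)
    (_ : DD b2) (_ : DD b3) :
    (DD fun g => tadd (a1 g, a2 g, a3 g) (b1 g, b2 g, b3 g)) ∧
    (DD fun g => tmul (a1 g, a2 g, a3 g) (b1 g, b2 g, b3 g)) ∧
    (DD fun g => tneg (a1 g, a2 g, a3 g)) ∧
    DP fun g => val (a1 g, a2 g, a3 g) < val (b1 g, b2 g, b3 g) :=
  have k : ∀ (c d e f : Γ → ℕ) [DD c] [DD d] [DD e] [DD f],
      DD fun g => c g * (d g).succ + e g * (f g).succ := fun c d e f _ _ _ _ =>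
    @dd_add _ _ _ _ _ _ (@dd_mul _ _ _ _ c _ _ (dd_succ d)) (@dd_mul _ _ _ _ e _ _ (dd_succ f))
  ⟨@dd_pair _ _ _ _ _ _ _ _ _ (k a1 b3 b1 a3) (@dd_pair _ _ _ _ _ _ _ _ _ (k a2 b3 b2 a3)
      (inferInstance : DD fun g => a3 g * b3 g + a3 g + b3 g)),
    (inferInstance : DD fun g => (a1 g * b1 g + a2 g * b2 g, a1 g * b2 g + a2 g * b1 g,
      a3 g * b3 g + a3 g + b3 g)),
    (inferInstance : DD fun g => (a2 g, a1 g, a3 g)),
    (@dp_lt _ _ _ _ _ _ _ _ _ (k a1 b3 b2 a3) (k b1 a3 a2 b3)).congr fun _ => val_lt _ _⟩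

variable (a b : Γ → T3) [DD a] [DD b]

theorem dd_aux' : (DD fun g => tadd (a g) (b g)) ∧ (DD fun g => tmul (a g) (b g)) ∧
    (DD fun g => tneg (a g)) ∧ DP fun g => val (a g) < val (b g) :=
  dd_aux _ _ _ _ _ _ (dd_fst a) (dd_fst fun g => (a g).2) (dd_snd fun g => (a g).2)
    (dd_fst b) (dd_fst fun g => (b g).2) (dd_snd fun g => (b g).2)

instance dd_tadd : DD fun g => tadd (a g) (b g) := (dd_aux' a b).1

instance dd_tmul : DD fun g => tmul (a g) (b g) := (dd_aux' a b).2.1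

instance dd_tneg : DD fun g => tneg (a g) := (dd_aux' a a).2.2.1

instance dp_vlt : DP fun g => val (a g) < val (b g) := (dd_aux' a b).2.2.2

end

/-- the cut of `x` is a set of the model -/
def InM (x : ℝ) : Prop := ∃ c : PS T3, ∀ t, t ∈ c ↔ val t < x

theorem InM.neg {x : ℝ} (h : InM x) : InM (-x) := by
  obtain ⟨c, hc⟩ := h
  refine ⟨sb fun t => ∃ s, s ∉ c ∧ val s < val (tneg t), fun t => ?_⟩
  rw [lt_neg, ← val_neg, gt_iff]
  simp only [← hc]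
  rfl

theorem InM.inv {x : ℝ} (h : InM x) (hx : 0 < x) : InM x⁻¹ := by
  obtain ⟨c, hc⟩ := h
  refine ⟨sb fun t => ∃ b, (∃ s, s ∉ c ∧ val s < val b) ∧ val (tmul t b) < val (1, 0, 0),
    fun t => ?_⟩
  rw [lt_inv hx]
  simp only [gt_iff (x := x), ← hc]
  rfl

/-- the product of two cuts -/
def cmul (c d : PS T3) : PS T3 := sb fun t => ∃ a b e f, a ∈ c ∧ (∃ s, s ∉ c ∧ val s < val b) ∧
  e ∈ d ∧ (∃ s, s ∉ d ∧ val s < val f) ∧ val t < val (tmul a e) ∧ val t < val (tmul a f) ∧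
    val t < val (tmul b e) ∧ val t < val (tmul b f)

/-- the sum of two cuts -/
def cadd (c d : PS T3) : PS T3 := sb fun t => ∃ s u, s ∈ c ∧ u ∈ d ∧ val t < val (tadd s u)

instance dd_cmul {Γ : Type} [MC Γ] (a b : Γ → PS T3) [DD a] [DD b] :
    DD fun g => cmul (a g) (b g) := by unfold cmul; infer_instance

instance dd_cadd {Γ : Type} [MC Γ] (a b : Γ → PS T3) [DD a] [DD b] :
    DD fun g => cadd (a g) (b g) := by unfold cadd; infer_instance

theorem mem_cmul {x y : ℝ} {c d : PS T3} (hc : ∀ t, t ∈ c ↔ val t < x)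
    (hd : ∀ t, t ∈ d ↔ val t < y) (t : T3) : t ∈ cmul c d ↔ val t < x * y := by
  rw [lt_mul]
  simp only [gt_iff (x := x), gt_iff (x := y), ← hc, ← hd]
  rfl

theorem mem_cadd {x y : ℝ} {c d : PS T3} (hc : ∀ t, t ∈ c ↔ val t < x)
    (hd : ∀ t, t ∈ d ↔ val t < y) (t : T3) : t ∈ cadd c d ↔ val t < x + y := by
  rw [lt_add]
  simp only [← hc, ← hd]
  rfl

theorem inM_val (s : T3) : InM (val s) := ⟨sb fun t => val t < val s, fun _ => Iff.rfl⟩

/-- the reals of the model -/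
def KK : Subfield ℝ where
  carrier := {x | InM x}
  zero_mem' := by simpa [val] using inM_val (0, 0, 0)
  one_mem' := by simpa [val] using inM_val (1, 0, 0)
  add_mem' := fun ⟨_, hc⟩ ⟨_, hd⟩ => ⟨_, mem_cadd hc hd⟩
  mul_mem' := fun ⟨_, hc⟩ ⟨_, hd⟩ => ⟨_, mem_cmul hc hd⟩
  neg_mem' := InM.neg
  inv_mem' x hx := by
    rcases lt_trichotomy x 0 with h | rfl | h
    · simpa using (InM.inv (InM.neg hx) (neg_pos.2 h)).neg
    · simpa using hx
    · exact InM.inv hx h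

/-- the cut of a real of the model -/
def cut (x : KK) : PS T3 := x.2.choose

theorem mem_cut (x : KK) (t : T3) : t ∈ cut x ↔ val t < x.1 := x.2.choose_spec t

theorem cut_inj {x y : KK} (h : cut x = cut y) : x = y :=
  Subtype.ext (eq_of_cut fun t => by rw [← mem_cut, h, mem_cut])

/-- Dedekind cuts -/
def IsCut (c : PS T3) : Prop := (∃ t, t ∈ c) ∧ (∃ t, t ∉ c) ∧
  (∀ s t, t ∈ c → ¬ val t < val s → s ∈ c) ∧ ∀ t, t ∈ c → ∃ s, s ∈ c ∧ val t < val s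

instance : DP IsCut := by unfold IsCut; infer_instance

theorem isCut_iff {c : PS T3} : IsCut c ↔ ∃ x : KK, cut x = c := by
  constructor
  · rintro ⟨⟨t0, h0⟩, ⟨t1, h1⟩, h2, h3⟩
    have hb : BddAbove (val '' {t | t ∈ c}) := ⟨val t1, by
      rintro _ ⟨t, ht, rfl⟩
      exact le_of_lt (not_not.1 fun k => h1 (h2 _ _ ht k))⟩
    have hn : (val '' {t | t ∈ c}).Nonempty := ⟨_, t0, h0, rfl⟩
    have key : ∀ t, t ∈ c ↔ val t < sSup (val '' {t | t ∈ c}) := fun t => by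
      rw [lt_csSup_iff hb hn]
      exact ⟨fun h => let ⟨s, k1, k2⟩ := h3 t h; ⟨_, ⟨s, k1, rfl⟩, k2⟩,
        fun ⟨_, ⟨s, k1, e⟩, k2⟩ => h2 _ _ k1 (lt_asymm (e ▸ k2))⟩
    exact ⟨⟨_, c, key⟩, PS.ext fun t => (mem_cut _ t).trans (key t).symm⟩
  · rintro ⟨x, rfl⟩
    simp only [IsCut, mem_cut]
    refine ⟨(val_btwn (sub_one_lt x.1)).imp fun _ h => h.2,
      (val_btwn (lt_add_one x.1)).imp fun _ h => lt_asymm h.1,
      fun s t h k => (not_lt.1 k).trans_lt h, fun t h => (val_btwn h).imp fun _ k => k.symm⟩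

instance mtK : MT KK where
  enc x := enc (cut x)
  inj _ _ h := cut_inj (enc_inj.1 h)
  ex := ⟨enc (sb IsCut), fun _ => mem_enc.trans ⟨fun ⟨_, h, e⟩ =>
    let ⟨x, k⟩ := isCut_iff.1 h; ⟨x, k ▸ e⟩, fun ⟨x, e⟩ => ⟨_, isCut_iff.2 ⟨x, rfl⟩, e⟩⟩⟩

instance dd_cut {Γ : Type} [MC Γ] (a : Γ → KK) [h : DD a] : DD fun g => cut (a g) :=
  h.of_enc fun _ => rfl

instance odK : OD KK := ⟨(inferInstance : DP fun p : Cx fun _ : Cw KK => KK =>
  ∀ t, t ∈ cut p.1.1 → t ∈ cut p.2).congr fun p => by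
    simp only [mem_cut]
    exact le_iff_cut⟩

instance rfK : RF KK where
  add := ⟨(inferInstance : DP fun p : Cx fun _ : (Cx fun _ : KK => KK) => KK =>
    cadd (cut p.1.1) (cut p.1.2) = cut p.2).congr fun p => by
      rw [show cadd (cut p.1.1) (cut p.1.2) = cut (p.1.1 + p.1.2) from PS.ext fun t =>
        (mem_cadd (mem_cut _) (mem_cut _) t).trans (mem_cut (p.1.1 + p.1.2) t).symm]
      exact ⟨congrArg cut, cut_inj⟩⟩
  mul := ⟨(inferInstance : DP fun p : Cx fun _ : (Cx fun _ : KK => KK) => KK =>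
    cmul (cut p.1.1) (cut p.1.2) = cut p.2).congr fun p => by
      rw [show cmul (cut p.1.1) (cut p.1.2) = cut (p.1.1 * p.1.2) from PS.ext fun t =>
        (mem_cmul (mem_cut _) (mem_cut _) t).trans (mem_cut (p.1.1 * p.1.2) t).symm]
      exact ⟨congrArg cut, cut_inj⟩⟩
  cpl G := by
    rintro ⟨x0, h0⟩ ⟨b0, hb0⟩
    have hb : BddAbove (Subtype.val '' {x : KK | x ∈ G}) := ⟨b0.1, by
      rintro _ ⟨x, hx, rfl⟩
      exact hb0 x hx⟩
    have hn : (Subtype.val '' {x : KK | x ∈ G}).Nonempty := ⟨_, x0, h0, rfl⟩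
    refine ⟨⟨sSup (Subtype.val '' {x : KK | x ∈ G}), sb fun t => ∃ x, x ∈ G ∧ t ∈ cut x,
      fun t => ?_⟩, fun b => ?_⟩
    · rw [lt_csSup_iff hb hn]
      exact ⟨fun ⟨x, k1, k2⟩ => ⟨_, ⟨x, k1, rfl⟩, (mem_cut _ _).1 k2⟩,
        fun ⟨_, ⟨x, k1, e⟩, k2⟩ => ⟨x, k1, (mem_cut _ _).2 (e ▸ k2)⟩⟩
    · exact (csSup_le_iff hb hn).trans Set.forall_mem_image

theorem archK (c : KK) : ∃ n : ℕ, c < n := by
  obtain ⟨n, hn⟩ := exists_nat_gt c.1
  exact ⟨n, by rwa [← Subtype.coe_lt_coe, SubringClass.coe_natCast]⟩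

section code
variable {Q : Type} [MT Q]

theorem app_sb {r : Q → Q → Prop} [DP fun p : Q × Q => r p.1 p.2] {x y : Q} :
    App mm (enc (sb fun p : Q × Q => r p.1 p.2)) (enc x) (enc y) ↔ r x y :=
  app_iff.trans (enc_mem_enc (x := (x, y)))

theorem app2_fn {f : Fn (Q × Q) Q} {x y z : MM} : NK.App2 mm (enc f) x y z ↔
    ∃ s t, enc s = x ∧ enc t = y ∧ enc (f (s, t)) = z := by
  rw [app2_iff, ← app_iff, app_enc]
  exact ⟨fun ⟨p, h1, h2⟩ => ⟨p.1, p.2, (op_inj h1).1, (op_inj h1).2, h2⟩,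
    fun ⟨s, t, h1, h2, h3⟩ => ⟨(s, t), h1 ▸ h2 ▸ rfl, h3⟩⟩

theorem app2_fn' {f : Fn (Q × Q) Q} (x y : Q) (z : MM) :
    NK.App2 mm (enc f) (enc x) (enc y) z ↔ z = enc (f (x, y)) := by
  rw [app2_iff, ← app_iff]
  exact app_enc' (x := (x, y))

theorem all_car {P : MM → Prop} : (∀ x, mm x (car Q) → P x) ↔ ∀ t : Q, P (enc t) :=
  ⟨fun h t => h _ (enc_mem t), fun h _ hx => let ⟨t, e⟩ := mem_car.1 hx; e ▸ h t⟩

theorem monoid_fn {f : Fn (Q × Q) Q} {u : Q} (h1 : ∀ x, f (x, u) = x)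
    (h2 : ∀ x y, f (x, y) = f (y, x)) (h3 : ∀ x y w, f (f (x, y), w) = f (x, f (y, w))) :
    NK.IsMonoid mm (car Q) (enc f) (enc u) := by
  refine ⟨⟨fun x y hx hy => ?_, fun x y z z' h h' => ?_⟩, enc_mem u, all_car.2 fun x => ?_,
    fun x y z _ _ h => ?_, fun x y z p q r _ _ hz h h' h'' => ?_⟩
  · obtain ⟨x, rfl⟩ := mem_car.1 hx
    obtain ⟨y, rfl⟩ := mem_car.1 hy
    exact ⟨_, enc_mem _, (app2_fn' _ _ _).2 rfl⟩
  · obtain ⟨s, t, rfl, rfl, rfl⟩ := app2_fn.1 h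
    exact ((app2_fn' _ _ _).1 h').symm
  · rw [app2_fn', h1]
  · obtain ⟨s, t, rfl, rfl, rfl⟩ := app2_fn.1 h
    rw [app2_fn', h2]
  · obtain ⟨s, t, rfl, rfl, rfl⟩ := app2_fn.1 h
    obtain ⟨z, rfl⟩ := mem_car.1 hz
    rw [app2_fn'] at h' h''
    subst h' h''
    rw [app2_fn', h3]

variable [Field Q] [LinearOrder Q] [IsStrictOrderedRing Q] [RF Q]

theorem reals_of : ∃ add mul rle : MM, NK.IsReals mm (car Q) add mul rle (enc (0 : Q)) ∧
    CR Q (car Q) add rle (enc (0 : Q)) := by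
  let ad : Fn (Q × Q) Q := lm fun p => p.1 + p.2
  let mu : Fn (Q × Q) Q := lm fun p => p.1 * p.2
  have ha : ∀ (x y : Q) z, NK.App2 mm (enc ad) (enc x) (enc y) z ↔ z = enc (x + y) := app2_fn'
  have hm : ∀ (x y : Q) z, NK.App2 mm (enc mu) (enc x) (enc y) z ↔ z = enc (x * y) := app2_fn'
  have hl : ∀ x y : Q, App mm (enc (sb fun p : Q × Q => p.1 ≤ p.2)) (enc x) (enc y) ↔ x ≤ y :=
    fun _ _ => app_sb
  refine ⟨enc ad, enc mu, enc (sb fun p : Q × Q => p.1 ≤ p.2), ⟨enc (1 : Q),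
    monoid_fn add_zero add_comm add_assoc, monoid_fn mul_one mul_comm mul_assoc,
    fun h => zero_ne_one (enc_inj.1 h), all_car.2 fun x => ⟨_, enc_mem (-x), ?_⟩,
    all_car.2 fun x hx => ⟨_, enc_mem x⁻¹, ?_⟩, ?_, ⟨all_car.2 fun x => (hl _ _).2 le_rfl, ?_, ?_⟩,
    ?_, ?_, ?_, ?_⟩, rfl, ha, hl, rfl⟩
  · rw [ha, add_neg_cancel]
  · rw [hm, mul_inv_cancel₀ fun h => hx (by rw [h])]
  · intro x y z p q s t hx hy hz h1 h2 h3 h4
    obtain ⟨x, rfl⟩ := mem_car.1 hx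
    obtain ⟨y, rfl⟩ := mem_car.1 hy
    obtain ⟨z, rfl⟩ := mem_car.1 hz
    obtain rfl := (ha _ _ _).1 h1
    obtain rfl := (hm _ _ _).1 h2
    obtain rfl := (hm _ _ _).1 h3
    obtain rfl := (hm _ _ _).1 h4
    rw [ha, mul_add]
  · intro x y hx hy h1 h2
    obtain ⟨x, rfl⟩ := mem_car.1 hx
    obtain ⟨y, rfl⟩ := mem_car.1 hy
    rw [hl] at h1 h2
    rw [le_antisymm h1 h2]
  · intro x y z hx hy hz h1 h2
    obtain ⟨x, rfl⟩ := mem_car.1 hx
    obtain ⟨y, rfl⟩ := mem_car.1 hy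
    obtain ⟨z, rfl⟩ := mem_car.1 hz
    rw [hl] at h1 h2 ⊢
    exact h1.trans h2
  · intro x y hx hy
    obtain ⟨x, rfl⟩ := mem_car.1 hx
    obtain ⟨y, rfl⟩ := mem_car.1 hy
    rw [hl, hl]
    exact le_total x y
  · intro x y z p q hx hy hz h1 h2 h3
    obtain ⟨x, rfl⟩ := mem_car.1 hx
    obtain ⟨y, rfl⟩ := mem_car.1 hy
    obtain ⟨z, rfl⟩ := mem_car.1 hz
    obtain rfl := (ha _ _ _).1 h2
    obtain rfl := (ha _ _ _).1 h3
    rw [hl] at h1 ⊢
    linarith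
  · intro x y p hx hy h1 h2 h3
    obtain ⟨x, rfl⟩ := mem_car.1 hx
    obtain ⟨y, rfl⟩ := mem_car.1 hy
    obtain rfl := (hm _ _ _).1 h3
    rw [hl] at h1 h2 ⊢
    exact mul_nonneg h1 h2
  · rintro S hS ⟨x, hx⟩ ⟨b, hb, hb'⟩
    obtain ⟨S, rfl⟩ := sub_iff.1 hS
    obtain ⟨x, hx', rfl⟩ := mem_enc.1 hx
    obtain ⟨b, rfl⟩ := mem_car.1 hb
    obtain ⟨c, hc⟩ := RF.cpl S ⟨x, hx'⟩ ⟨b, fun t ht => (hl _ _).1 (hb' _ (enc_mem_enc.2 ht))⟩
    refine ⟨enc c, enc_mem c, all_car.2 fun b => (hl _ _).trans ((hc b).trans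
      ⟨fun h y hy => ?_, fun h t ht => (hl _ _).1 (h _ (enc_mem_enc.2 ht))⟩)⟩
    obtain ⟨t, ht, rfl⟩ := mem_enc.1 hy
    exact (hl _ _).2 (h t ht)

end code

end Pool.Agent.P.MP_0d6be8_lc.NKW.Ctl
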