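import Pool.Agent.P.MP_0d6be8_lc.Std.I

set_option autoImplicit false
set_option linter.unusedSectionVars false
set_option synthInstance.maxSize 4000

/-! The Nikodym theorem for the power set of the natural numbers of a model. -/

noncomputable section

open Pool.Agent.P.MP_af1204_lc.Inn

namespace Pool.Agent.P.MP_0d6be8_lc.NKW.Ctl

variable [Md] [Std] {Q : Type} [MT Q] [Field Q] [LinearOrder Q] [IsStrictOrderedRing Q] [RF Q]

/-- finite additivity -/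
def Ad (ν : PS ℕ → Q) : Prop := ∀ a b, (∀ x, x ∈ a → x ∉ b) → ν (a ∪ b) = ν a + ν b

/-- a bound for the variation -/
def Vr (ν : PS ℕ → Q) (c : Q) : Prop :=
  ∀ d : Fn ℕ (PS ℕ), (∀ i j, i ≠ j → ∀ x, x ∈ d i → x ∉ d j) →
    ∀ n, ∑ i ∈ Finset.range n, |ν (d i)| ≤ c

theorem Ad.empty {ν : PS ℕ → Q} (h : Ad ν) {a : PS ℕ} (ha : ∀ x, x ∉ a) : ν a = 0 := by
  have := h a a fun x hx => (ha x hx).elim
  rw [show a ∪ a = a from PS.ext fun x => or_self_iff] at this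
  linarith

theorem Ad.split {ν : PS ℕ → Q} (h : Ad ν) (a b : PS ℕ) : ν a = ν (a ∩ b) + ν (a \ b) := by
  rw [← h (a ∩ b) (a \ b) fun x hx hy => hy.2 hx.2]
  exact congrArg ν (PS.ext fun x => (and_or_left.symm.trans (and_iff_left (em _))).symm)

theorem Ad.vr {ν : PS ℕ → Q} (h : Ad ν) {c : Q} (hc : ∀ a, |ν a| ≤ c) : Vr ν (c + c) := by
  intro d hd n
  have key : ∃ P N : PS ℕ, (∀ x, x ∈ P → ∃ i < n, x ∈ d i) ∧ (∀ x, x ∈ N → ∃ i < n, x ∈ d i) ∧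
      ∑ i ∈ Finset.range n, |ν (d i)| = ν P - ν N := by
    induction n with
    | zero => exact ⟨∅, ∅, fun _ k => k.elim, fun _ k => k.elim, by simp⟩
    | succ n ih =>
      obtain ⟨P, N, h1, h2, h3⟩ := ih
      have g : ∀ S : PS ℕ, (∀ x, x ∈ S → ∃ i < n, x ∈ d i) →
          (∀ x, x ∈ S → ∃ i < n + 1, x ∈ d i) ∧ (∀ x, x ∈ S ∪ d n → ∃ i < n + 1, x ∈ d i) ∧
            ν (S ∪ d n) = ν S + ν (d n) := fun S hS =>
        have g1 : ∀ x, x ∈ S → ∃ i < n + 1, x ∈ d i := fun x hx =>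
          let ⟨i, k1, k2⟩ := hS x hx; ⟨i, by omega, k2⟩
        ⟨g1, fun x hx => hx.elim (g1 x) fun k => ⟨n, by omega, k⟩, h _ _ fun x hx =>
          let ⟨i, k1, k2⟩ := hS x hx; hd i n (by omega) x k2⟩
      rw [Finset.sum_range_succ, h3]
      rcases le_total 0 (ν (d n)) with k | k
      · exact ⟨_, N, (g P h1).2.1, (g N h2).1, by rw [(g P h1).2.2, abs_of_nonneg k]; ring⟩
      · exact ⟨P, _, (g P h1).1, (g N h2).2.1, by rw [(g N h2).2.2, abs_of_nonpos k]; ring⟩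
  obtain ⟨P, N, -, -, e⟩ := key
  rw [e]
  linarith [(le_abs_self _).trans (hc P), (neg_le_abs _).trans (hc N)]

theorem head_bd {ν : PS ℕ → Q} (h : Ad ν) {M : ℕ → Q} (hM : ∀ j, |ν {j}| ≤ M j) (m : ℕ) :
    ∀ F : PS ℕ, (∀ x, x ∈ F → x < m) → |ν F| ≤ ∑ j ∈ Finset.range m, M j := by
  induction m with
  | zero =>
    intro F hF
    rw [h.empty fun x hx => Nat.not_lt_zero _ (hF x hx)]
    simp
  | succ m ih =>
    intro F hF
    rw [Finset.sum_range_succ, h.split F {m}, add_comm]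
    refine (abs_add_le _ _).trans (add_le_add (ih _ fun x hx => ?_) ?_)
    · exact lt_of_le_of_ne (Nat.lt_succ_iff.1 (hF x hx.1)) hx.2
    · by_cases hm : m ∈ F
      · rw [show F ∩ {m} = {m} from PS.ext fun x => ⟨fun k => k.2, fun k => ⟨k ▸ hm, k⟩⟩]
        exact hM m
      · rw [h.empty (a := F ∩ {m}) fun x k => hm (k.2 ▸ k.1), abs_zero]
        exact (abs_nonneg _).trans (hM m)

theorem thin (arch : ∀ c : Q, ∃ n : ℕ, c < n) (ν : Fn (PS ℕ) Q) {c : Q} (hc : Vr ν c)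
    (e : Fn ℕ ℕ) (he : ∀ i j, i < j → e i < e j) :
    ∃ i, ∀ T : PS ℕ, (∀ x, x ∈ T → ∃ j, e (Nat.pair i j) = x) → |ν T| ≤ 1 := by
  by_contra h
  push Not at h
  obtain ⟨T, hT⟩ := chs (R := fun (i : ℕ) (T : PS ℕ) =>
    (∀ x, x ∈ T → ∃ j, e (Nat.pair i j) = x) ∧ 1 < |ν T|) h
  obtain ⟨n, hn⟩ := arch c
  have h3 := hc T (fun i j hij x hx hy => by
    obtain ⟨k, rfl⟩ := (hT i).1 x hx
    obtain ⟨l, hl⟩ := (hT j).1 _ hy
    exact hij (Nat.pair_eq_pair.1 (StrictMono.injective he hl)).1.symm) n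
  have h4 : ∑ _i ∈ Finset.range n, (1 : Q) ≤ ∑ i ∈ Finset.range n, |ν (T i)| :=
    Finset.sum_le_sum fun i _ => (hT i).2.le
  simp only [Finset.sum_const, Finset.card_range, nsmul_eq_mul, mul_one] at h4
  linarith

theorem hump (arch : ∀ c : Q, ∃ n : ℕ, c < n) (ν : Fn ℕ (Fn (PS ℕ) Q)) (h1 : ∀ k, Ad (ν k))
    (h2 : ∀ k, ∃ c, Vr (ν k) c) (M : ℕ → Q) (hM : ∀ k j, |ν k {j}| ≤ M j)
    (h3 : ∀ k : ℕ, k + ∑ j ∈ Finset.range k, M j < |ν k {k}|) :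
    ∃ L, ∀ c, ∃ k, c < |ν k L| := by
  obtain ⟨f, -, hf⟩ := exists_seq (X := Fn ℕ ℕ)
    (fun _ e e' => (∀ j, ∃ i, e' j = e i ∧ 0 < i) ∧
      ∀ T : PS ℕ, (∀ x, x ∈ T → ∃ j, e' j = x) → |ν (e 0) T| ≤ 1)
    (fun _ e => ∀ i j, i < j → e i < e j) Fn.id (fun _ _ k => k) (by
      intro _ e he
      obtain ⟨c, hc⟩ := h2 (e 0)
      let sc : Fn ℕ ℕ := ⟨Nat.succ, dd_succ fun j => j⟩
      obtain ⟨i, hi⟩ := thin arch (ν (e 0)) hc (e.comp sc)
        fun i j k => he _ _ (Nat.succ_lt_succ k)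
      exact ⟨(e.comp sc).comp (lm fun j => Nat.pair i j), fun a b k =>
        he _ _ (Nat.succ_lt_succ (Nat.pair_lt_pair_right i k)),
        fun j => ⟨_, rfl, Nat.succ_pos _⟩, hi⟩)
  have sub : ∀ i j, i ≤ j → ∀ a, ∃ b, f i b = f j a := by
    intro i j hij
    induction j, hij using Nat.le_induction with
    | base => exact fun a => ⟨a, rfl⟩
    | succ j _ ih =>
      intro a
      obtain ⟨b, hb, -⟩ := (hf j).2.1 a
      rw [hb]
      exact ih b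
  let k : ℕ → ℕ := fun i => f i 0
  have mono : StrictMono k := fun i j h => by
    obtain ⟨b, hb⟩ := sub (i + 1) j h 0
    obtain ⟨a, ha, h0⟩ := (hf i).2.1 b
    change f i 0 < f j 0
    rw [← hb, ha]
    exact (hf i).1 _ _ h0
  let L : PS ℕ := sb fun x => ∃ i, f i 0 = x
  refine ⟨L, fun C => ?_⟩
  obtain ⟨i, hi⟩ := arch (C + 1)
  refine ⟨k i, ?_⟩
  let I : PS ℕ := sb fun x => x < k i
  have e1 := (h1 (k i)).split L {k i}
  have e2 := (h1 (k i)).split (L \ {k i}) I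
  rw [show L ∩ {k i} = {k i} from PS.ext fun x => ⟨fun g => g.2, fun g => ⟨⟨i, g.symm⟩, g⟩⟩] at e1
  have e3 := head_bd (h1 (k i)) (hM (k i)) (k i) ((L \ {k i}) ∩ I) fun x g => g.2
  have e4 := (hf i).2.2 ((L \ {k i}) \ I) (by
    rintro _ ⟨⟨⟨j, rfl⟩, g1⟩, g2⟩
    exact sub (i + 1) j (mono.lt_iff_lt.1 (lt_of_le_of_ne (not_lt.1 g2) (Ne.symm g1))) 0)
  have e5 := h3 (k i)
  have e6 : (i : Q) ≤ k i := Nat.cast_le.2 mono.le_apply
  have e7 : |ν (k i) {k i}| ≤ |ν (k i) L| + |ν (k i) ((L \ {k i}) ∩ I)| +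
      |ν (k i) ((L \ {k i}) \ I)| := by
    have : ν (k i) {k i} = ν (k i) L - ν (k i) ((L \ {k i}) ∩ I) - ν (k i) ((L \ {k i}) \ I) := by
      linarith
    rw [this]
    exact (abs_sub _ _).trans (add_le_add (abs_sub _ _) le_rfl)
  change |ν (k i) _| ≤ 1 at e4
  linarith

theorem nik_ps (arch : ∀ c : Q, ∃ n : ℕ, c < n) (m : Fn ℕ (Fn (PS ℕ) Q)) (h1 : ∀ n, Ad (m n))
    (h2 : ∀ n, ∃ c, Vr (m n) c) (h3 : ∀ a, ∃ c, ∀ n, |m n a| ≤ c) : ∃ c, ∀ n, Vr (m n) c := by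
  by_contra hC
  obtain ⟨M, hM⟩ := chs (R := fun (a : PS ℕ) (c : Q) => ∀ n, |m n a| ≤ c) h3
  let U : PS (PS ℕ) := sb fun a => ∀ c : Q, ∃ (n : ℕ) (b : PS ℕ), b ⊆ a ∧ c < |m n b|
  have hU : univ ∈ U := by
    intro c
    by_contra h
    push Not at h
    exact hC ⟨c + c, fun n => (h1 n).vr fun a => h n a fun _ _ => trivial⟩
  have hs : ∀ a b, a ∈ U → a ∩ b ∈ U ∨ a \ b ∈ U := by
    intro a b ha
    by_contra h
    obtain ⟨g1, g2⟩ := not_or.1 h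
    obtain ⟨C, g1⟩ := not_forall.1 g1
    obtain ⟨D, g2⟩ := not_forall.1 g2
    push Not at g1 g2
    obtain ⟨n, c, g3, g4⟩ := ha (C + D)
    rw [(h1 n).split c b] at g4
    have := abs_add_le (m n (c ∩ b)) (m n (c \ b))
    linarith [g1 n (c ∩ b) fun x k => ⟨g3 k.1, k.2⟩, g2 n (c \ b) fun x k => ⟨g3 k.1, k.2⟩]
  have step : ∀ a ∈ U, ∀ t : Q, ∃ (p : PS ℕ) (n : ℕ), p ⊆ a ∧ a \ p ∈ U ∧ t < |m n p| := by
    intro a ha t
    obtain ⟨n, b, g1, g2⟩ := ha (t + M a)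
    have g3 : a ∩ b = b := inter_eq_right.2 g1
    rcases hs a b ha with h | h
    · refine ⟨a \ b, n, fun _ k => k.1, ?_, ?_⟩
      · rwa [show a \ (a \ b) = a ∩ b from PS.ext fun x =>
          ⟨fun k => ⟨k.1, by_contra fun k' => k.2 ⟨k.1, k'⟩⟩, fun k => ⟨k.1, fun k' => k'.2 k.2⟩⟩]
      · have e := (h1 n).split a b
        rw [g3] at e
        have e2 : m n b = m n a - m n (a \ b) := by linarith
        have e3 := abs_sub (m n a) (m n (a \ b))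
        rw [← e2] at e3
        linarith [hM a n]
    · exact ⟨b, n, g1, h, by linarith [(abs_nonneg _).trans (hM a n)]⟩
  obtain ⟨p0, n0, k0⟩ := step _ hU 0
  obtain ⟨f, f0, hf⟩ := exists_seq (X := (PS ℕ × Q) × (PS ℕ × ℕ))
    (fun _ s s' => s'.1 = (s.1.1 \ s.2.1, s.1.2 + M s.2.1 + 1))
    (fun _ s => s.2.1 ⊆ s.1.1 ∧ s.1.1 \ s.2.1 ∈ U ∧ s.1.2 < |m s.2.2 s.2.1|)
    ((univ, 0), p0, n0) k0 (by
      rintro _ s ⟨-, g, -⟩
      obtain ⟨p, n, k⟩ := step _ g (s.1.2 + M s.2.1 + 1)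
      exact ⟨(_, p, n), k, rfl⟩)
  let p : Fn ℕ (PS ℕ) := lm fun i => (f i).2.1
  have anti : Antitone fun i => (f i).1.1 := antitone_nat_of_succ_le fun i => by
    rw [(hf i).2]
    exact fun _ k => k.1
  have ht : ∀ i : ℕ, (f i).1.2 = i + ∑ j ∈ Finset.range i, M (p j) := by
    intro i
    induction i with
    | zero => simp [f0]
    | succ i ih =>
      rw [(hf i).2, Finset.sum_range_succ]
      change (f i).1.2 + M (p i) + 1 = _
      rw [ih]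
      push_cast
      ring
  have hlt : ∀ i j, i < j → ∀ x, x ∈ p i → x ∉ p j := fun i j h x hx hy => by
    have h4 : (f j).1.1 ≤ (f (i + 1)).1.1 := anti h
    rw [(hf i).2] at h4
    exact (h4 ((hf j).1.1 hy)).2 hx
  have hd : ∀ T T' : PS ℕ, (∀ x, x ∈ T → x ∉ T') → ∀ x, x ∈ bU T p → x ∉ bU T' p := by
    rintro T T' h x ⟨i, hi, g1⟩ ⟨j, hj, g2⟩
    rcases lt_trichotomy i j with g | rfl | g
    · exact hlt _ _ g x g1 g2
    · exact h _ hi hj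
    · exact hlt _ _ g x g2 g1
  have h1' : ∀ j, bU {j} p = p j := fun j =>
    PS.ext fun x => ⟨fun ⟨i, g1, g2⟩ => g1 ▸ g2, fun g => ⟨j, rfl, g⟩⟩
  obtain ⟨L, hL⟩ := hump arch (lm fun k => lm fun T => m (f k).2.2 (bU T p))
    (fun k T T' h => by
      change m _ _ = m _ _ + m _ _
      rw [← h1 _ _ _ (hd T T' h)]
      exact congrArg _ (PS.ext fun x => ⟨fun ⟨i, g1, g2⟩ => g1.imp (fun g => ⟨i, g, g2⟩)
        fun g => ⟨i, g, g2⟩, fun g => g.elim (fun ⟨i, g1, g2⟩ => ⟨i, Or.inl g1, g2⟩)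
          fun ⟨i, g1, g2⟩ => ⟨i, Or.inr g1, g2⟩⟩))
    (fun k => (h2 (f k).2.2).imp fun c hc d g =>
      hc (lm fun i => bU (d i) p) fun i j hij => hd _ _ (g i j hij))
    (fun j => M (p j))
    (fun k j => by
      change |m _ (bU {j} p)| ≤ _
      rw [h1']
      exact hM _ _)
    (fun k => by
      change _ < |m _ (bU {k} p)|
      rw [h1', ← ht]
      exact (hf k).1.2.2)
  obtain ⟨k, hk⟩ := hL (M (bU L p))
  exact absurd hk (not_lt.2 (hM _ _))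

end Pool.Agent.P.MP_0d6be8_lc.NKW.Ctl
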