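import Pool.Agent.P.MP_0d6be8_lc.Std.J

set_option autoImplicit false
set_option linter.unusedSectionVars false
set_option synthInstance.maxSize 4000

/-! The hypotheses of the goal are met inside the model. -/

noncomputable section

open Pool.Agent.Lib.PosetForcing
open Pool.Agent.P.MP_5f3b23_lc.Zf (mm om op app_iff isPair_iff op_inj)
open Pool.Agent.P.MP_af1204_lc.Inn

namespace Pool.Agent.P.MP_0d6be8_lc.NKW.Ctl

section
variable [Md] [Std]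

instance dp_mm {Γ : Type} [MC Γ] (a b : Γ → MM) [DD a] [DD b] : DP fun g => mm (a g) (b g) :=
  dp_memM a b

instance dp_isPair {Γ : Type} [MC Γ] (p a b : Γ → MM) [DD p] [DD a] [DD b] :
    DP fun g => IsPair mm (p g) (a g) (b g) :=
  (inferInstance : DP fun g => p g = op (a g) (b g)).congr fun _ => isPair_iff

theorem exists_stone {A : Type} [MT A] (r : MM) : ∃ X, NK.IsStone mm (car A) r X := by
  have : DP fun u : PS A => NK.IsUltra mm (car A) r (enc u) := by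
    unfold NK.IsUltra NK.IsMeet NK.IsCompl NK.Disj IsSub
    infer_instance
  refine ⟨enc (sb fun u : PS A => NK.IsUltra mm (car A) r (enc u)), fun y => mem_enc.trans
    ⟨fun ⟨_, h, e⟩ => e ▸ h, fun h => ?_⟩⟩
  obtain ⟨u, rfl⟩ := sub_iff.1 h.1
  exact ⟨u, h, rfl⟩

theorem exists_borel (X : MM) : ∃ S, NK.IsBorel mm om X S := by
  have : DP fun B : PS (El X) => ∀ S : MM, NK.IsSigmaOpen mm om X S → enc B ∈ S := by
    unfold NK.IsSigmaOpen NK.IsOpenIn IsSub IsFun IsFunOn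
    infer_instance
  let T : PS (PS (El X)) := sb fun B => ∀ S : MM, NK.IsSigmaOpen mm om X S → enc B ∈ S
  have h1 : ∀ B, mm B (enc T) ↔ IsSub mm B X ∧ ∀ S, NK.IsSigmaOpen mm om X S → mm B S := by
    intro B
    refine mem_enc.trans ⟨?_, fun h => ?_⟩
    · rintro ⟨B, h, rfl⟩
      exact ⟨fun y hy => let ⟨t, _, k⟩ := mem_enc.1 hy; k ▸ t.2, h⟩
    · obtain ⟨B, rfl⟩ := (sub_iff (X := El X)).1 fun y hy => (car_El X).symm ▸ h.1 y hy
      exact ⟨B, h.2, rfl⟩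
  refine ⟨enc T, ⟨fun B hB => ((h1 B).1 hB).1, fun O hO => (h1 O).2 ⟨hO.1, fun S hS => hS.2.1 O hO⟩,
    fun B C hB hC => (h1 C).2 ⟨fun y hy => ((hC y).1 hy).1, fun S hS =>
      hS.2.2.1 B C (((h1 B).1 hB).2 S hS) hC⟩, fun f C hf hC => (h1 C).2 ⟨fun y hy => ?_,
      fun S hS => hS.2.2.2 f C ⟨fun p hp => ?_, hf.2⟩ hC⟩⟩, fun S hS B hB => ((h1 B).1 hB).2 S hS⟩
  · obtain ⟨n, B, h2, h3⟩ := (hC y).1 hy
    obtain ⟨x, z, e, -, k⟩ := hf.1 _ (app_iff.1 h2)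
    obtain ⟨-, rfl⟩ := op_inj (isPair_iff.1 e)
    exact ((h1 _).1 k).1 y h3
  · obtain ⟨x, z, e, k1, k2⟩ := hf.1 p hp
    exact ⟨x, z, e, k1, ((h1 _).1 k2).2 S hS⟩

/-- the inclusion of sets of natural numbers -/
def inc : MM := enc (sb fun p : PS ℕ × PS ℕ => p.1 ⊆ p.2)

theorem app_inc (x y : PS ℕ) : App mm inc (enc x) (enc y) ↔ x ⊆ y :=
  app_sb (r := fun x y : PS ℕ => x ⊆ y)

theorem meet_inc {x y : PS ℕ} {t : MM} :
    NK.IsMeet mm (car (PS ℕ)) inc t (enc x) (enc y) ↔ t = enc (x ∩ y) := by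
  constructor
  · rintro ⟨h1, h2⟩
    obtain ⟨t, rfl⟩ := mem_car.1 h1
    simp only [all_car, app_inc] at h2
    rw [Subset.antisymm (subset_inter ((h2 t).1 Subset.rfl).1 ((h2 t).1 Subset.rfl).2)
      ((h2 _).2 ⟨inter_subset_left, inter_subset_right⟩)]
  · rintro rfl
    refine ⟨enc_mem _, all_car.2 fun s => ?_⟩
    simp only [app_inc]
    exact ⟨fun h => ⟨fun _ k => (h k).1, fun _ k => (h k).2⟩, fun h => subset_inter h.1 h.2⟩

theorem join_inc {x y : PS ℕ} {t : MM} :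
    NK.IsJoin mm (car (PS ℕ)) inc t (enc x) (enc y) ↔ t = enc (x ∪ y) := by
  constructor
  · rintro ⟨h1, h2⟩
    obtain ⟨t, rfl⟩ := mem_car.1 h1
    simp only [all_car, app_inc] at h2
    rw [Subset.antisymm ((h2 _).2 ⟨subset_union_left, subset_union_right⟩)
      (union_subset ((h2 t).1 Subset.rfl).1 ((h2 t).1 Subset.rfl).2)]
  · rintro rfl
    refine ⟨enc_mem _, all_car.2 fun s => ?_⟩
    simp only [app_inc]
    exact ⟨fun h => ⟨fun _ k => h (Or.inl k), fun _ k => h (Or.inr k)⟩,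
      fun h => union_subset h.1 h.2⟩

theorem ca_inc : CA (fun x y : PS ℕ => x ⊆ y) (car (PS ℕ)) inc := ⟨rfl, app_inc⟩

theorem dj_iff {x y : PS ℕ} : Dj (fun x y : PS ℕ => x ⊆ y) x y ↔ ∀ n, n ∈ x → n ∉ y :=
  ⟨fun h n h1 h2 => h {n} ∅ (singleton_subset_iff.2 h1) (singleton_subset_iff.2 h2) rfl,
    fun h _ _ h1 h2 n k => (h n (h1 k) (h2 k)).elim⟩

theorem boolean_inc : NK.IsBoolean mm (car (PS ℕ)) inc := by
  refine ⟨⟨_, enc_mem (∅ : PS ℕ)⟩, ⟨all_car.2 fun x => (app_inc _ _).2 Subset.rfl, ?_, ?_⟩, ?_, ?_,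
    all_car.2 fun x => ⟨_, enc_mem xᶜ, ca_inc.disj_iff.2 (dj_iff.2 fun _ h k => k h), ?_⟩⟩
  · intro x y hx hy h1 h2
    obtain ⟨x, rfl⟩ := mem_car.1 hx
    obtain ⟨y, rfl⟩ := mem_car.1 hy
    rw [app_inc] at h1 h2
    rw [Subset.antisymm h1 h2]
  · intro x y z hx hy hz h1 h2
    obtain ⟨x, rfl⟩ := mem_car.1 hx
    obtain ⟨y, rfl⟩ := mem_car.1 hy
    obtain ⟨z, rfl⟩ := mem_car.1 hz
    rw [app_inc] at h1 h2 ⊢
    exact fun _ k => h2 (h1 k)
  · intro x y hx hy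
    obtain ⟨x, rfl⟩ := mem_car.1 hx
    obtain ⟨y, rfl⟩ := mem_car.1 hy
    exact ⟨⟨_, meet_inc.2 rfl⟩, _, join_inc.2 rfl⟩
  · intro x y z p q s t hx hy hz h1 h2 h3 h4
    obtain ⟨x, rfl⟩ := mem_car.1 hx
    obtain ⟨y, rfl⟩ := mem_car.1 hy
    obtain ⟨z, rfl⟩ := mem_car.1 hz
    obtain rfl := join_inc.1 h1
    obtain rfl := meet_inc.1 h2
    obtain rfl := meet_inc.1 h3
    obtain rfl := meet_inc.1 h4
    exact join_inc.2 (congrArg enc (PS.ext fun _ => and_or_left))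
  · intro y z hy hz h1 h2
    obtain ⟨y, rfl⟩ := mem_car.1 hy
    obtain ⟨z, rfl⟩ := mem_car.1 hz
    rw [app_inc] at h1 h2 ⊢
    exact fun n _ => (em _).elim (fun k => h1 k) fun k => h2 k

theorem var_vr {Q : Type} [MT Q] [Field Q] [LinearOrder Q] [IsStrictOrderedRing Q] [RF Q]
    {m : PS ℕ → Q} {c : Q} : Var (fun x y : PS ℕ => x ⊆ y) m c ↔ Vr m c := by
  simp only [Var, Vr, dj_iff]

theorem nik_inc {Q : Type} [MT Q] [Field Q] [LinearOrder Q] [IsStrictOrderedRing Q] [RF Q]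
    (arch : ∀ c : Q, ∃ n : ℕ, c < n) {R add rle o : MM} (cr : CR Q R add rle o) :
    NK.Nikodym mm om R add rle o (car (PS ℕ)) inc := by
  intro s hs h1
  have hc := cr.car
  subst hc
  have h2 : IsFun mm s (car ℕ) (car (Fn (PS ℕ) Q)) := by
    rw [car_nat]
    exact ⟨fun p hp => let ⟨x, y, e, k1, k2⟩ := hs.1 p hp
      ⟨x, y, e, k1, mem_car.2 (isFun_iff.1 k2.1)⟩, hs.2⟩
  obtain ⟨m, rfl⟩ := isFun_iff.1 h2
  have h3 : ∀ n, NK.IsCharge mm om (car Q) add rle o (car (PS ℕ)) inc (enc (m n)) := fun n => by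
    obtain ⟨x, y, e, -, k⟩ := hs.1 _ (app_iff.1 ((app_enc' (x := n)).2 rfl))
    obtain ⟨-, rfl⟩ := op_inj (isPair_iff.1 e)
    exact k
  obtain ⟨c, hc⟩ := nik_ps arch m
    (fun n a b h => enc_inj.1 ((cr.add _ _ _).1 ((h3 n).2.1 _ _ _ _ _ _ (enc_mem a) (enc_mem b)
      (ca_inc.disj_iff.2 (dj_iff.2 h)) (join_inc.2 rfl) (app_enc'.2 rfl) (app_enc'.2 rfl)
      (app_enc'.2 rfl))))
    (fun n => by
      obtain ⟨c, hc, k⟩ := (h3 n).2.2
      obtain ⟨c, rfl⟩ := mem_car.1 hc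
      exact ⟨c, var_vr.1 ((cr.var_iff ca_inc).1 k)⟩)
    (fun a => by
      obtain ⟨c, hc, k⟩ := h1 _ (enc_mem a)
      obtain ⟨c, rfl⟩ := mem_car.1 hc
      exact ⟨c, fun n => (cr.le _ _).1 (k _ _ _ _ ((app_enc' (x := n)).2 rfl) (app_enc'.2 rfl)
        (cr.abs_iff.2 rfl))⟩)
  refine ⟨enc c, enc_mem c, fun n f h => ?_⟩
  obtain ⟨n, rfl, rfl⟩ := app_enc.1 h
  exact (cr.var_iff ca_inc).2 (var_vr.2 (hc n))

theorem inside {C : MM} (hC : IsPow mm C om) : ∃ R add mul rle o le X S : MM,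
    NK.IsReals mm R add mul rle o ∧ (∀ a b, mm a C → mm b C → (App mm le a b ↔ IsSub mm a b)) ∧
      NK.IsBoolean mm C le ∧ LeCard mm om C ∧ NK.Nikodym mm om R add rle o C le ∧
      NK.IsStone mm C le X ∧ NK.IsBorel mm om X S := by
  obtain rfl : C = car (PS ℕ) := zext fun y => (hC y).trans (by
    rw [← car_nat]
    exact sub_iff.trans mem_car.symm)
  obtain ⟨add, mul, rle, h1, cr⟩ := reals_of (Q := KK)
  obtain ⟨X, hX⟩ := exists_stone (A := PS ℕ) inc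
  obtain ⟨S, hS⟩ := exists_borel X
  refine ⟨_, add, mul, rle, _, inc, X, S, h1, fun a b ha hb => ?_, boolean_inc, ?_,
    nik_inc archK cr, hX, hS⟩
  · obtain ⟨a, rfl⟩ := mem_car.1 ha
    obtain ⟨b, rfl⟩ := mem_car.1 hb
    refine (app_inc _ _).trans ⟨fun h y hy => ?_, fun h n k => enc_mem_enc.1 (h _ (enc_mem_enc.2 k))⟩
    obtain ⟨n, k, rfl⟩ := mem_enc.1 hy
    exact enc_mem_enc.2 (h k)
  · rw [← car_nat]
    exact rl_leCard.2 ⟨lm fun n => {n}, fun m n h => by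
      have k : m ∈ ({m} : PS ℕ) := rfl
      rwa [show ({m} : PS ℕ) = {n} from h] at k⟩

end

open Pool.Agent.P.MP_5f3b23_lc.Zf in
theorem model_control : ∃ (M : Type) (mem : M → M → Prop), IsZFC mem ∧ ∃ w C, IsOmega mem w ∧
    IsPow mem C w ∧ MP_93aff1_lc.MA mem w C ∧ NK.Goal mem w ∧ ∃ R add mul rle o le X S,
      NK.IsReals mem R add mul rle o ∧
      (∀ a b, mem a C → mem b C → (App mem le a b ↔ IsSub mem a b)) ∧
      NK.IsBoolean mem C le ∧ LeCard mem w C ∧ NK.Nikodym mem w R add rle o C le ∧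
      NK.IsStone mem C le X ∧ NK.IsBorel mem w X S := by
  obtain ⟨N, m, w, c, K, X, h1, h2, h3, h4, h5, h6⟩ := exists_model
  let z : Zm N := { mem := fun a x => m x a, zfc := h1 }
  let md : Md := ⟨N⟩
  obtain rfl : w = om := isOmega_iff.1 h2
  have st : Std := ⟨h6 (fun x => ∃ n, num n = x) (fun e he => ⟨0, (eq_emp he).symm⟩)
    fun x y hs ⟨n, hn⟩ => ⟨n + 1, zfc.ext _ _ fun z => by
      rw [num_succ, hn]; exact mem_suc.trans (hs z).symm⟩⟩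
  exact ⟨N, m, h1, _, c, h2, h3, h4, goal_of_core (core_of_princ h5), inside h3⟩

end Pool.Agent.P.MP_0d6be8_lc.NKW.Ctl
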