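import Pool.Agent.P.MP_0d6be8_lc.NKStmt
import Pool.Agent.P.MP_95b5c3_gt.Lit

set_option autoImplicit false
set_option synthInstance.maxSize 8000

/-! The notions of the problem are given by formulas. -/

open Pool.Agent.Lib.PosetForcing Pool.Agent.P.MP_93aff1_lc Pool.Agent.P.MP_95b5c3_gt.Lit

namespace Pool.Agent.P.MP_0d6be8_lc.Lit

universe v

instance ud_ne (i j : ℕ) : UD.{v} fun _ _ v => v i ≠ v j := by
  unfold Ne; infer_instance

instance ud_isPow (i j : ℕ) : UD.{v} fun _ mem v => IsPow mem (v i) (v j) := by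
  unfold IsPow; infer_instance

instance ud_isPoset (i j : ℕ) : UD.{v} fun _ mem v => IsPoset mem (v i) (v j) := by
  unfold IsPoset; infer_instance

instance ud_compat (i j k l : ℕ) : UD.{v} fun _ mem v => Compat mem (v i) (v j) (v k) (v l) := by
  unfold Compat; infer_instance

instance ud_isCCC (i j k : ℕ) : UD.{v} fun _ mem v => IsCCC mem (v i) (v j) (v k) := by
  unfold IsCCC; infer_instance

instance ud_isDense (i j k : ℕ) : UD.{v} fun _ mem v => IsDense mem (v i) (v j) (v k) := by
  unfold IsDense; infer_instance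

instance ud_isFilter (i j k : ℕ) : UD.{v} fun _ mem v => IsFilter mem (v i) (v j) (v k) := by
  unfold IsFilter; infer_instance

instance ud_ma (i j : ℕ) : UD.{v} fun _ mem v => MA mem (v i) (v j) := by
  unfold MA; infer_instance

instance ud_app2 (i j k l : ℕ) : UD.{v} fun _ mem v => NK.App2 mem (v i) (v j) (v k) (v l) := by
  unfold NK.App2; infer_instance

instance ud_isOp (i j : ℕ) : UD.{v} fun _ mem v => NK.IsOp mem (v i) (v j) := by
  unfold NK.IsOp; infer_instance

instance ud_isOrder (i j : ℕ) : UD.{v} fun _ mem v => NK.IsOrder mem (v i) (v j) := by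
  unfold NK.IsOrder; infer_instance

instance ud_isMonoid (i j k : ℕ) : UD.{v} fun _ mem v => NK.IsMonoid mem (v i) (v j) (v k) := by
  unfold NK.IsMonoid; infer_instance

instance ud_isSup (i j k : ℕ) (S : ∀ M : Type v, (M → M → Prop) → M → (ℕ → M) → Prop)
    [h : UD fun M mem v => S M mem (v 0) fun i => v (i + 1)] :
    UD.{v} fun M mem v => NK.IsSup mem (v i) (v j) (v k) fun x => S M mem x v := by
  have := h.ren fun i => Nat.casesOn i 0 fun j => j + 2
  have h2 : UD fun M mem v => S M mem (v 0) fun i => v (i + 1 + 1) := this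
  unfold NK.IsSup; infer_instance

instance ud_isReals (i j k l m : ℕ) :
    UD.{v} fun _ mem v => NK.IsReals mem (v i) (v j) (v k) (v l) (v m) := by
  unfold NK.IsReals; infer_instance

instance ud_isAbs (i j k l m n : ℕ) :
    UD.{v} fun _ mem v => NK.IsAbs mem (v i) (v j) (v k) (v l) (v m) (v n) := by
  unfold NK.IsAbs; infer_instance

instance ud_isMeet (i j k l m : ℕ) :
    UD.{v} fun _ mem v => NK.IsMeet mem (v i) (v j) (v k) (v l) (v m) := by
  unfold NK.IsMeet; infer_instance

instance ud_isJoin (i j k l m : ℕ) :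
    UD.{v} fun _ mem v => NK.IsJoin mem (v i) (v j) (v k) (v l) (v m) := by
  unfold NK.IsJoin; infer_instance

instance ud_disj (i j k l : ℕ) : UD.{v} fun _ mem v => NK.Disj mem (v i) (v j) (v k) (v l) := by
  unfold NK.Disj; infer_instance

instance ud_isCompl (i j k l : ℕ) :
    UD.{v} fun _ mem v => NK.IsCompl mem (v i) (v j) (v k) (v l) := by
  unfold NK.IsCompl; infer_instance

instance ud_isBoolean (i j : ℕ) : UD.{v} fun _ mem v => NK.IsBoolean mem (v i) (v j) := by
  unfold NK.IsBoolean; infer_instance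

instance ud_varLe (a b c d e f g h i : ℕ) : UD.{v} fun _ mem v =>
    NK.VarLe mem (v a) (v b) (v c) (v d) (v e) (v f) (v g) (v h) (v i) := by
  unfold NK.VarLe NK.IsSums; infer_instance

instance ud_isCharge (a b c d e f g h : ℕ) : UD.{v} fun _ mem v =>
    NK.IsCharge mem (v a) (v b) (v c) (v d) (v e) (v f) (v g) (v h) := by
  unfold NK.IsCharge; infer_instance

instance ud_nikodym (a b c d e f g : ℕ) : UD.{v} fun _ mem v =>
    NK.Nikodym mem (v a) (v b) (v c) (v d) (v e) (v f) (v g) := by
  unfold NK.Nikodym IsFunOn; infer_instance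

instance ud_isUltra (i j k : ℕ) : UD.{v} fun _ mem v => NK.IsUltra mem (v i) (v j) (v k) := by
  unfold NK.IsUltra; infer_instance

instance ud_isStone (i j k : ℕ) : UD.{v} fun _ mem v => NK.IsStone mem (v i) (v j) (v k) := by
  unfold NK.IsStone; infer_instance

instance ud_isOpenIn (i j : ℕ) : UD.{v} fun _ mem v => NK.IsOpenIn mem (v i) (v j) := by
  unfold NK.IsOpenIn; infer_instance

instance ud_isCompactIn (i j k : ℕ) :
    UD.{v} fun _ mem v => NK.IsCompactIn mem (v i) (v j) (v k) := by
  unfold NK.IsCompactIn; infer_instance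

instance ud_isSigmaOpen (i j k : ℕ) :
    UD.{v} fun _ mem v => NK.IsSigmaOpen mem (v i) (v j) (v k) := by
  unfold NK.IsSigmaOpen; infer_instance

instance ud_isBorel (i j k : ℕ) : UD.{v} fun _ mem v => NK.IsBorel mem (v i) (v j) (v k) := by
  unfold NK.IsBorel; infer_instance

instance ud_isRadon (a b c d e f g h : ℕ) : UD.{v} fun _ mem v =>
    NK.IsRadon mem (v a) (v b) (v c) (v d) (v e) (v f) (v g) (v h) := by
  unfold NK.IsRadon NK.IsSums; infer_instance

instance ud_countableType (a b c d e f : ℕ) : UD.{v} fun _ mem v =>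
    NK.CountableType mem (v a) (v b) (v c) (v d) (v e) (v f) := by
  unfold NK.CountableType; infer_instance

/-- the implication of the problem -/
def Imp (M : Type) (mem : M → M → Prop) : Prop :=
  ∀ w C : M, IsOmega mem w → IsPow mem C w → MA mem w C →
    ∃ R add mul rle o A le X S, NK.IsReals mem R add mul rle o ∧ NK.IsBoolean mem A le ∧
      LeCard mem w A ∧ NK.Nikodym mem w R add rle o A le ∧ NK.IsStone mem A le X ∧
      NK.IsBorel mem w X S ∧
      ∀ m, NK.IsRadon mem w R add rle o X S m → NK.CountableType mem w R rle o S m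

instance ud_impl : UD.{0} fun M mem _ => Imp M mem := by
  unfold Imp; infer_instance

theorem literal {N : Type} {mem' : N → N → Prop} (hN : IsZFC mem') {w C : N}
    (h1 : IsOmega mem' w) (h2 : IsPow mem' C w) (h3 : MA mem' w C) (h4 : NK.Goal mem' w) :
    (∃ φ, ∀ (M : Type) (mem : M → M → Prop), IsZFC mem → ∀ v, Sat mem φ v ↔ Imp M mem) ∧
      ∀ φ, (∀ (M : Type) (mem : M → M → Prop), IsZFC mem → ∀ v, Sat mem φ v ↔ Imp M mem) →
        ¬ Prov {χ | ZFC χ} φ ∧ Con (insert (.neg φ) {χ | ZFC χ}) := by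
  have h : ¬ Imp N mem' := fun g => by
    obtain ⟨R, add, mul, rle, o, A, le, X, S, a, b, c, d, e, f, k⟩ := g w C h1 h2 h3
    obtain ⟨m, hm, hm'⟩ := h4 R add mul rle o a A le b c d X S e f
    exact hm' (k m hm)
  obtain ⟨ψ, hψ⟩ := UD.fml fun M mem _ => Imp M mem
  have : Nonempty N := ⟨w⟩
  have hM := models_zfc.2 hN
  refine ⟨⟨ψ, fun M mem _ => hψ M mem⟩, fun φ hφ => ⟨fun g => h ((hφ N mem' hN fun _ => w).1
    (sound hM g _)), con_of (mem := mem') w fun χ hχ u => ?_⟩⟩
  rcases hχ with rfl | hχ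
  · exact fun g => h ((hφ N mem' hN u).1 g)
  · exact hM χ hχ u

end Pool.Agent.P.MP_0d6be8_lc.Lit
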